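import Pool.Agent.Helper48.ET.Fields

/-! Piece E: cells. -/

set_option autoImplicit false

namespace Pool.Agent.Helper48.ET

open Finset

variable {p : ℕ} [Fact p.Prime]

theorem cell_mem {C : ℕ} (hC : 0 < C) (x : ℕ → ZMod p) (i u : ℕ) :
    cell p C x i u ∈ KK p (C ^ i) := by
  induction i generalizing u with
  | zero => exact algebraMap_mem_KK _ _
  | succ i ih =>
    unfold cell
    refine Subfield.sum_mem _ fun s hs => Subfield.mul_mem _ ?_ ?_
    · exact KK_mono (pow_dvd_pow C (Nat.le_succ i)) (ih _)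
    · have h := (eb_spec (p := p) (m := C ^ i) (c := C) (pow_pos hC i) hC).mem s (mem_range.1 hs)
      rwa [← pow_succ] at h

theorem cell_add (C : ℕ) (x y : ℕ → ZMod p) (i u : ℕ) :
    cell p C (x + y) i u = cell p C x i u + cell p C y i u := by
  induction i generalizing u with
  | zero => simp [cell]
  | succ i ih =>
    unfold cell
    rw [← sum_add_distrib]
    exact sum_congr rfl fun s _ => by rw [ih, add_mul]

theorem cell_sub (C : ℕ) (x y : ℕ → ZMod p) (i u : ℕ) :
    cell p C (x - y) i u = cell p C x i u - cell p C y i u := by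
  induction i generalizing u with
  | zero => simp [cell]
  | succ i ih =>
    unfold cell
    rw [← sum_sub_distrib]
    exact sum_congr rfl fun s _ => by rw [ih, sub_mul]

theorem cell_congr {C : ℕ} (_hC : 0 < C) {x y : ℕ → ZMod p} {i u : ℕ}
    (h : ∀ v, u * C ^ i ≤ v → v < (u + 1) * C ^ i → x v = y v) :
    cell p C x i u = cell p C y i u := by
  induction i generalizing u with
  | zero =>
    unfold cell
    rw [h u (by simp) (by simp)]
  | succ i ih =>
    unfold cell
    refine sum_congr rfl fun s hs => ?_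
    rw [ih fun v h1 h2 => h v ?_ ?_]
    · refine le_trans ?_ h1
      rw [pow_succ, mul_comm (C ^ i) C, ← mul_assoc]
      exact Nat.mul_le_mul_right _ (by rw [mul_comm]; exact Nat.le_add_right _ _)
    · refine lt_of_lt_of_le h2 ?_
      rw [pow_succ, mul_comm (C ^ i) C, ← mul_assoc]
      refine Nat.mul_le_mul_right _ ?_
      have := mem_range.1 hs
      nlinarith

theorem cell_inj {C : ℕ} (hC : 0 < C) {x y : ℕ → ZMod p} {i u : ℕ}
    (h : cell p C x i u = cell p C y i u) :
    ∀ v, u * C ^ i ≤ v → v < (u + 1) * C ^ i → x v = y v := by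
  induction i generalizing u with
  | zero =>
    intro v h1 h2
    have hv : v = u := by
      simp only [pow_zero, mul_one] at h1 h2
      omega
    subst hv
    exact (algebraMap (ZMod p) (Om p)).injective h
  | succ i ih =>
    intro v h1 h2
    have hE := eb_spec (p := p) (m := C ^ i) (c := C) (pow_pos hC i) hC
    have h0 : ∑ s ∈ range C, (cell p C x i (C * u + s) - cell p C y i (C * u + s)) *
        eb p (C ^ i) C s = 0 := by
      have h' : ∑ s ∈ range C, cell p C x i (C * u + s) * eb p (C ^ i) C s =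
          ∑ s ∈ range C, cell p C y i (C * u + s) * eb p (C ^ i) C s := h
      simp only [sub_mul]
      rw [sum_sub_distrib, h', sub_self]
    have h3 := hE.indep (fun s => cell p C x i (C * u + s) - cell p C y i (C * u + s))
      (fun s => Subfield.sub_mem _ (cell_mem hC _ _ _) (cell_mem hC _ _ _)) h0
    have hCi : 0 < C ^ i := pow_pos hC i
    rw [pow_succ, mul_comm (C ^ i) C, ← mul_assoc] at h1 h2
    have h4 : u * C ≤ v / C ^ i := (Nat.le_div_iff_mul_le hCi).2 h1
    have h5 : v / C ^ i < (u + 1) * C := (Nat.div_lt_iff_lt_mul hCi).2 h2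
    have h6 : C * u + (v / C ^ i - C * u) = v / C ^ i := by
      rw [mul_comm u C] at h4
      omega
    have h7 : v / C ^ i - C * u < C := by
      have : (u + 1) * C = C * u + C := by ring
      omega
    have h8 := sub_eq_zero.1 (h3 _ h7)
    rw [h6] at h8
    refine ih h8 v (Nat.div_mul_le_self v _) ?_
    rw [add_mul, one_mul]
    exact Nat.lt_div_mul_add hCi

theorem Cells.mem_KK_one {y : Om p} (h : y ∈ KK p 1) : ∃ a : ZMod p, algebraMap (ZMod p) (Om p) a = y := by
  have h1 : y ^ p = y := by simpa using (mem_KK.1 h)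
  have h2 : y ∈ (⊥ : Subfield (Om p)) := (Subfield.mem_bot_iff_pow_eq_self (Om p) (p := p)).2 h1
  obtain ⟨n, hn⟩ := (_root_.mem_bot_iff_intCast p (Om p)).1 h2
  exact ⟨(n : ZMod p), by rw [map_intCast, hn]⟩

theorem cell_surj {C : ℕ} (hC : 0 < C) (i : ℕ) (k : ℕ → Om p) (hk : ∀ u, k u ∈ KK p (C ^ i)) :
    ∃ x : ℕ → ZMod p, ∀ u, cell p C x i u = k u := by
  induction i generalizing k with
  | zero =>
    choose x hx using fun u => Cells.mem_KK_one (by simpa using hk u)
    exact ⟨x, fun u => hx u⟩
  | succ i ih =>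
    have hE := eb_spec (p := p) (m := C ^ i) (c := C) (pow_pos hC i) hC
    choose c hc1 hc2 using fun u => hE.span (k u) (by rw [← pow_succ]; exact hk u)
    obtain ⟨x, hx⟩ := ih (fun v => c (v / C) (v % C)) fun v => hc1 _ _
    refine ⟨x, fun u => ?_⟩
    rw [hc2 u]
    unfold cell
    refine sum_congr rfl fun s hs => ?_
    have hs' := mem_range.1 hs
    rw [hx, Nat.mul_add_mod, Nat.mod_eq_of_lt hs', Nat.mul_add_div hC, Nat.div_eq_of_lt hs', add_zero]

theorem Cells.sum_range_mul_eq {M : Type*} [AddCommMonoid M] (f : ℕ → M) (m n : ℕ) :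
    ∑ j ∈ range (m * n), f j = ∑ s ∈ range m, ∑ r ∈ range n, f (n * s + r) := by
  induction m with
  | zero => simp
  | succ m ih =>
    rw [add_mul, one_mul, sum_range_add, ih, sum_range_succ, mul_comm m n]

/-- level-`i` cells in terms of level-`h` cells -/
theorem cell_comp {C : ℕ} (hC : 0 < C) (h d : ℕ) : ∃ β : ℕ → Om p,
    RelBasis p (C ^ h) (C ^ d) β ∧ ∀ (x : ℕ → ZMod p) (u : ℕ),
      cell p C x (h + d) u = ∑ r ∈ range (C ^ d), cell p C x h (C ^ d * u + r) * β r := by
  induction d with
  | zero =>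
    refine ⟨fun _ => 1, ⟨fun s _ => Subfield.one_mem _, fun y hy => ⟨fun _ => y, fun _ => ?_, ?_⟩,
      fun k _ h0 s hs => ?_⟩, fun x u => ?_⟩
    · simpa using hy
    · simp
    · have : s = 0 := by simpa using hs
      subst this
      simpa using h0
    · simp
  | succ d ih =>
    obtain ⟨β, hβ, hb⟩ := ih
    have hF := eb_spec (p := p) (m := C ^ (h + d)) (c := C) (pow_pos hC _) hC
    have hF' : RelBasis p (C ^ h * C ^ d) C (eb p (C ^ (h + d)) C) := by
      rw [← pow_add]; exact hF
    have hm := RelBasis.mul (pow_pos hC d) hβ hF'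
    refine ⟨fun j => eb p (C ^ (h + d)) C (j / C ^ d) * β (j % C ^ d), ?_, fun x u => ?_⟩
    · rw [pow_succ, mul_comm (C ^ d) C]
      exact hm
    · rw [pow_succ, mul_comm (C ^ d) C, Cells.sum_range_mul_eq]
      change ∑ s ∈ range C, cell p C x (h + d) (C * u + s) * eb p (C ^ (h + d)) C s = _
      refine sum_congr rfl fun s _ => ?_
      rw [hb, sum_mul]
      refine sum_congr rfl fun r hr => ?_
      have hr' := mem_range.1 hr
      simp only [Nat.mul_add_mod, Nat.mod_eq_of_lt hr', Nat.mul_add_div (pow_pos hC d),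
        Nat.div_eq_of_lt hr', add_zero]
      have : C ^ d * (C * u + s) + r = C * C ^ d * u + (C ^ d * s + r) := by ring
      rw [this]
      ring

end Pool.Agent.Helper48.ET
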