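import Pool.Agent.Helper48.ET.Defs

/-! Piece D1 for MP_12a1af_nt (Q2): relative bases of the finite subfields `KK p n`. -/

set_option autoImplicit false

namespace Pool.Agent.Helper48.ET

open Finset

section

variable {p : ℕ} [Fact p.Prime]

namespace FieldsAux

open Polynomial in
theorem card_KK {n : ℕ} (hn : 0 < n) : Nat.card (KK p n) = p ^ n := by
  classical
  have hp : p.Prime := Fact.out
  have h1 : 1 < p ^ n := Nat.one_lt_pow hn.ne' hp.one_lt
  have hsep : (X ^ (p ^ n) - X : (Om p)[X]).Separable :=
    galois_poly_separable p (p ^ n) (dvd_pow_self p hn.ne')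
  have hne : (X ^ (p ^ n) - X : (Om p)[X]) ≠ 0 := hsep.ne_zero
  have hc := card_rootSet_eq_natDegree (K := Om p) hsep (IsAlgClosed.splits _)
  rw [FiniteField.X_pow_card_sub_X_natDegree_eq (Om p) h1] at hc
  have hset : (X ^ (p ^ n) - X : (Om p)[X]).rootSet (Om p) = (KK p n : Set (Om p)) := by
    ext y
    rw [mem_rootSet]
    simp only [hne, ne_eq, not_false_eq_true, true_and, map_sub, map_pow, aeval_X]
    rw [sub_eq_zero]
    rfl
  rw [← hc, ← Nat.card_eq_fintype_card, hset]
  rfl

/-- `KK p (m * c)` as a vector space over `KK p m` -/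
noncomputable def sub (m c : ℕ) : Submodule (KK p m) (Om p) where
  carrier := (KK p (m * c) : Set (Om p))
  add_mem' := fun ha hb => (KK p (m * c)).add_mem ha hb
  zero_mem' := (KK p (m * c)).zero_mem
  smul_mem' := by
    intro k x hx
    have hk : (k : Om p) ∈ KK p (m * c) := KK_mono (Dvd.intro c rfl) k.2
    have := (KK p (m * c)).mul_mem hk hx
    exact this

theorem mem_sub {m c : ℕ} {y : Om p} : y ∈ sub (p := p) m c ↔ y ∈ KK p (m * c) := Iff.rfl

theorem finite_KK {n : ℕ} (hn : 0 < n) : Finite (KK p n) := by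
  have hp : p.Prime := Fact.out
  refine (Nat.card_pos_iff.1 ?_).2
  rw [card_KK hn]
  exact pow_pos hp.pos n

theorem finrank_sub {m c : ℕ} (hm : 0 < m) (hc : 0 < c) :
    Module.finrank (KK p m) (sub (p := p) m c) = c := by
  classical
  have hp : p.Prime := Fact.out
  have f1 : Finite (KK p m) := finite_KK hm
  have f2 : Finite (sub (p := p) m c) := finite_KK (n := m * c) (Nat.mul_pos hm hc)
  have h := Module.natCard_eq_pow_finrank (K := KK p m) (V := sub (p := p) m c)
  have h2 : Nat.card (sub (p := p) m c) = p ^ (m * c) := card_KK (n := m * c) (Nat.mul_pos hm hc)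
  rw [h2, card_KK hm, ← pow_mul] at h
  have h3 := Nat.pow_right_injective hp.two_le h
  exact (Nat.eq_of_mul_eq_mul_left hm h3).symm

end FieldsAux

open FieldsAux in
theorem exists_relBasis {m c : ℕ} (hm : 0 < m) (hc : 0 < c) : ∃ E, RelBasis p m c E := by
  classical
  have f1 : Finite (KK p m) := finite_KK hm
  have f2 : Finite (sub (p := p) m c) := finite_KK (n := m * c) (Nat.mul_pos hm hc)
  have hr := finrank_sub (p := p) hm hc
  let b : Module.Basis (Fin c) (KK p m) (sub (p := p) m c) :=
    (Module.finBasis (KK p m) (sub (p := p) m c)).reindex (finCongr hr)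
  refine ⟨fun s => if h : s < c then (b ⟨s, h⟩ : Om p) else 0, ?_, ?_, ?_⟩
  · intro s hs
    simp only [hs, dif_pos]
    exact (b ⟨s, hs⟩).2
  · intro y hy
    refine ⟨fun s => if h : s < c then ((b.repr ⟨y, hy⟩ ⟨s, h⟩ : KK p m) : Om p) else 0, ?_, ?_⟩
    · intro s
      change (if h : s < c then ((b.repr ⟨y, hy⟩ ⟨s, h⟩ : KK p m) : Om p) else 0) ∈ KK p m
      split
      · exact Subtype.property _
      · exact (KK p m).zero_mem
    · have h := b.sum_repr ⟨y, hy⟩
      have h2 := congrArg (fun z : sub (p := p) m c => (z : Om p)) h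
      simp only [Submodule.coe_sum, Submodule.coe_smul] at h2
      refine h2.symm.trans ?_
      rw [Finset.sum_range]
      refine Finset.sum_congr rfl fun s _ => ?_
      simp only [Fin.is_lt, dif_pos]
      rfl
  · intro k hk hsum s hs
    have hli := b.linearIndependent
    rw [Fintype.linearIndependent_iff] at hli
    have h := hli (fun s => ⟨k s, hk s⟩) ?_ ⟨s, hs⟩
    · exact congrArg Subtype.val h
    · apply Subtype.ext
      rw [Submodule.coe_sum, Submodule.coe_zero, ← hsum, Finset.sum_range]
      refine Finset.sum_congr rfl fun s _ => ?_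
      simp only [Fin.is_lt, dif_pos]
      rfl

theorem eb_spec {m c : ℕ} (hm : 0 < m) (hc : 0 < c) : RelBasis p m c (eb p m c) := by
  classical
  have h := exists_relBasis (p := p) hm hc
  have h2 : eb p m c = Classical.choose h := by
    unfold eb
    rw [dif_pos h]
  rw [h2]
  exact Classical.choose_spec h

namespace FieldsAux

theorem sum_range_mul {M : Type*} [AddCommMonoid M] (d c : ℕ) (f : ℕ → M) :
    ∑ j ∈ range (d * c), f j = ∑ t ∈ range d, ∑ s ∈ range c, f (t * c + s) := by
  induction d with
  | zero => simp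
  | succ d ih =>
    rw [Nat.succ_mul, Finset.sum_range_add, ih, Finset.sum_range_succ]

end FieldsAux

open FieldsAux in
theorem RelBasis.mul {m c d : ℕ} {E F : ℕ → Om p} (hc : 0 < c) (hE : RelBasis p m c E)
    (hF : RelBasis p (m * c) d F) :
    RelBasis p m (d * c) (fun j => F (j / c) * E (j % c)) := by
  have hmcd : m * (d * c) = m * c * d := by ring
  have hdiv : ∀ t s, s < c → (t * c + s) / c = t := by
    intro t s hs
    rw [mul_comm, Nat.mul_add_div hc, Nat.div_eq_of_lt hs, add_zero]
  have hmod : ∀ t s, s < c → (t * c + s) % c = s := by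
    intro t s hs
    rw [mul_comm, Nat.mul_add_mod, Nat.mod_eq_of_lt hs]
  refine ⟨?_, ?_, ?_⟩
  · intro j hj
    have h1 : j / c < d := Nat.div_lt_of_lt_mul (by rw [mul_comm]; exact hj)
    have h2 : j % c < c := Nat.mod_lt _ hc
    rw [hmcd]
    exact (KK p (m * c * d)).mul_mem (hF.mem _ h1) (KK_mono (Dvd.intro d rfl) (hE.mem _ h2))
  · intro y hy
    rw [hmcd] at hy
    obtain ⟨k, hk, hy⟩ := hF.span y hy
    choose l hl hl2 using fun t => hE.span (k t) (hk t)
    refine ⟨fun j => l (j / c) (j % c), fun j => hl _ _, ?_⟩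
    rw [hy, sum_range_mul]
    refine Finset.sum_congr rfl fun t _ => ?_
    rw [hl2 t, Finset.sum_mul]
    refine Finset.sum_congr rfl fun s hs => ?_
    rw [Finset.mem_range] at hs
    simp only [hdiv t s hs, hmod t s hs]
    ring
  · intro k hk hsum j hj
    rw [sum_range_mul] at hsum
    have h1 : j / c < d := Nat.div_lt_of_lt_mul (by rw [mul_comm]; exact hj)
    have h2 : j % c < c := Nat.mod_lt _ hc
    have hin : ∀ t, (∑ s ∈ range c, k (t * c + s) * E s) ∈ KK p (m * c) := by
      intro t
      refine (KK p (m * c)).sum_mem fun s hs => ?_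
      rw [Finset.mem_range] at hs
      exact (KK p (m * c)).mul_mem (KK_mono (Dvd.intro c rfl) (hk _)) (hE.mem _ hs)
    have h3 := hF.indep (fun t => ∑ s ∈ range c, k (t * c + s) * E s) hin ?_ (j / c) h1
    · have h4 := hE.indep (fun s => k (j / c * c + s)) (fun s => hk _) h3 (j % c) h2
      have h5 : j / c * c + j % c = j := Nat.div_add_mod' j c
      simp only [h5] at h4
      exact h4
    · rw [← hsum]
      refine Finset.sum_congr rfl fun t _ => ?_
      rw [Finset.sum_mul]
      refine Finset.sum_congr rfl fun s hs => ?_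
      rw [Finset.mem_range] at hs
      simp only [hdiv t s hs, hmod t s hs]
      ring

end

end Pool.Agent.Helper48.ET
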