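import Pool.Agent.Helper48.ET.Ticks
import Pool.Agent.Helper48.ET.Fields
import Pool.Agent.Helper48.ET.Cells

/-! Existence and uniqueness of the `z`-part of a code word
(piece G of the Erdos-Turan Q2 theorem). -/

set_option autoImplicit false

namespace Pool.Agent.Helper48.ET

open Finset

variable {p : ℕ} [Fact p.Prime]

/-- the ends of the blocks decrease -/
theorem pow_mul_mm_anti {C : ℕ} (hC : 0 < C) (κ : ℕ) {i j : ℕ} (h : i ≤ j) :
    C ^ j * mm C κ j ≤ C ^ i * mm C κ i := by
  induction j, h using Nat.le_induction with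
  | base => exact le_rfl
  | succ j _ ih =>
    refine le_trans ?_ ih
    rw [pow_succ, mul_assoc]
    exact Nat.mul_le_mul_left _ (mul_mm_le hC κ j)

/-- the blocks tile `[0, N)` -/
theorem exists_block {C : ℕ} (hC : 2 ≤ C) {b N : ℕ} (hN : C ^ b ∣ N) {u : ℕ} (hu : u < N) :
    ∃ i, b ≤ i ∧ C ^ (i + 1) * mm C (2 * N + C ^ b) (i + 1) ≤ u ∧
      u < C ^ i * mm C (2 * N + C ^ b) i := by
  have hC0 : 0 < C := by omega
  have hex : ∃ d, C ^ (b + d + 1) * mm C (2 * N + C ^ b) (b + d + 1) ≤ u := by
    refine ⟨N, ?_⟩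
    have h1 : mm C (2 * N + C ^ b) (b + N + 1) = 0 := by
      apply mm_top hC (I := b + N) (Nat.le_add_right _ _) _ (Nat.lt_succ_self _)
      calc N < C ^ N := Nat.lt_pow_self (by omega)
        _ ≤ C ^ (b + N + 1) := Nat.pow_le_pow_right hC0 (by omega)
    rw [h1]
    simp
  classical
  let d := Nat.find hex
  have hd : C ^ (b + d + 1) * mm C (2 * N + C ^ b) (b + d + 1) ≤ u := Nat.find_spec hex
  refine ⟨b + d, Nat.le_add_right _ _, hd, ?_⟩
  rcases Nat.eq_zero_or_pos d with h0 | h0
  · rw [h0, Nat.add_zero, mul_comm, mm_base hC0 hN]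
    exact hu
  · have := Nat.find_min hex (m := d - 1) (by omega)
    have e : b + (d - 1) + 1 = b + d := by omega
    rw [e] at this
    exact not_le.mp this

/-- the block is unique -/
theorem block_unique {C : ℕ} (hC : 0 < C) {κ u i j : ℕ}
    (hi1 : C ^ (i + 1) * mm C κ (i + 1) ≤ u) (hi2 : u < C ^ i * mm C κ i)
    (hj1 : C ^ (j + 1) * mm C κ (j + 1) ≤ u) (hj2 : u < C ^ j * mm C κ j) : i = j := by
  rcases lt_trichotomy i j with h | h | h
  · have := pow_mul_mm_anti hC κ (Nat.succ_le_of_lt h)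
    simp only [Nat.succ_eq_add_one] at this
    omega
  · exact h
  · have := pow_mul_mm_anti hC κ (Nat.succ_le_of_lt h)
    simp only [Nat.succ_eq_add_one] at this
    omega

theorem tw_mem (C κ : ℕ) (hC : 0 < C) (θ : Par p) (x : ℕ → ZMod p) (i s : ℕ) :
    tw C κ θ x i s ∈ KK p (C ^ i) := by
  unfold tw
  split_ifs with h
  · refine sum_mem fun u _ => mul_mem ?_ (cell_mem hC x i u)
    exact algebraMap_mem_KK _ _
  · exact zero_mem _

/-- `z` exists for every `x` -/
theorem code_exists {C : ℕ} (hC : 2 ≤ C) {b N : ℕ} (hN : C ^ b ∣ N) (θ : Par p)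
    (x : ℕ → ZMod p) (hx : ∀ u, N ≤ u → x u = 0) : ∃ z, IsCode C b N θ x z := by
  classical
  have hC0 : 0 < C := by omega
  set κ := 2 * N + C ^ b with hκ
  -- the block `i` alone
  have hblock : ∀ i, ∃ zi : ℕ → ZMod p, 0 < cc C κ i →
      ∑ s ∈ range (cc C κ i), (cell p C zi i (C * mm C κ (i + 1) + s) - tw C κ θ x i s) *
        eb p (C ^ i) (cc C κ i) s =
      θ.val none * (∑ s ∈ range (cc C κ i), cell p C x i (C * mm C κ (i + 1) + s) *
        eb p (C ^ i) (cc C κ i) s) ^ 2 := by
    intro i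
    by_cases hc : 0 < cc C κ i
    · have hCi : 0 < C ^ i := by positivity
      have hE := eb_spec (p := p) hCi hc
      have hmono : KK p (C ^ i) ≤ KK p (C ^ i * cc C κ i) := KK_mono (Dvd.intro _ rfl)
      obtain ⟨k, hk, hky⟩ := hE.span
        (θ.val none * (∑ s ∈ range (cc C κ i), cell p C x i (C * mm C κ (i + 1) + s) *
          eb p (C ^ i) (cc C κ i) s) ^ 2 +
          ∑ s ∈ range (cc C κ i), tw C κ θ x i s * eb p (C ^ i) (cc C κ i) s) (by
        refine add_mem (mul_mem (algebraMap_mem_KK _ _) (pow_mem ?_ 2)) ?_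
        · exact sum_mem fun s hs => mul_mem (hmono (cell_mem hC0 x i _))
            (hE.mem s (mem_range.mp hs))
        · exact sum_mem fun s hs => mul_mem (hmono (tw_mem C κ hC0 θ x i s))
            (hE.mem s (mem_range.mp hs)))
      obtain ⟨zi, hzi⟩ := cell_surj hC0 i (fun u => k (u - C * mm C κ (i + 1)))
        (fun u => hk _)
      refine ⟨zi, fun _ => ?_⟩
      have h1 : ∀ s ∈ range (cc C κ i),
          (cell p C zi i (C * mm C κ (i + 1) + s) - tw C κ θ x i s) *
            eb p (C ^ i) (cc C κ i) s =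
          k s * eb p (C ^ i) (cc C κ i) s - tw C κ θ x i s * eb p (C ^ i) (cc C κ i) s := by
        intro s _
        rw [hzi, Nat.add_sub_cancel_left, sub_mul]
      rw [sum_congr rfl h1, sum_sub_distrib, ← hky]
      ring
    · exact ⟨0, fun h => absurd h hc⟩
  choose zb hzb using hblock
  -- the block of a digit
  have hidx : ∀ u, ∃ i, u < N → b ≤ i ∧ C ^ (i + 1) * mm C κ (i + 1) ≤ u ∧
      u < C ^ i * mm C κ i := by
    intro u
    by_cases hu : u < N
    · obtain ⟨i, hi⟩ := exists_block hC hN hu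
      exact ⟨i, fun _ => hi⟩
    · exact ⟨0, fun h => absurd h hu⟩
  choose idx hidx using hidx
  refine ⟨fun u => if u < N then zb (idx u) u else 0, hx, ?_, ?_⟩
  · intro u hu
    simp [not_lt.mpr hu]
  · intro i hi
    unfold BlockRel
    rw [← hκ]
    by_cases hc : 0 < cc C κ i
    · rw [← hzb i hc]
      refine sum_congr rfl fun s hs => ?_
      congr 2
      apply cell_congr hC0
      intro v hv1 hv2
      have hs' := mem_range.mp hs
      have hv3 : v < C ^ i * mm C κ i := by
        refine lt_of_lt_of_le hv2 ?_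
        rw [mul_comm]
        apply Nat.mul_le_mul_left
        unfold cc at hs'
        omega
      have hv4 : C ^ (i + 1) * mm C κ (i + 1) ≤ v := by
        refine le_trans ?_ hv1
        rw [pow_succ, mul_assoc, mul_comm]
        exact Nat.mul_le_mul_right _ (Nat.le_add_right _ _)
      have hvN : v < N := by
        have h5 := pow_mul_mm_anti hC0 κ hi
        have h6 := mm_base hC0 hN
        rw [mul_comm] at h6
        rw [← hκ] at h6
        rw [h6] at h5
        omega
      have hv5 := hidx v hvN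
      have : idx v = i := block_unique hC0 hv5.2.1 hv5.2.2 hv4 hv3
      simp only [hvN, if_true, this]
    · have h0 : cc C κ i = 0 := by omega
      rw [h0]
      simp

/-- `z` is unique -/
theorem code_unique {C : ℕ} (hC : 2 ≤ C) {b N : ℕ} (hN : C ^ b ∣ N) (θ : Par p)
    {x z z' : ℕ → ZMod p} (h : IsCode C b N θ x z) (h' : IsCode C b N θ x z') : z = z' := by
  have hC0 : 0 < C := by omega
  funext u
  by_cases hu : u < N
  · obtain ⟨i, hbi, hi1, hi2⟩ := exists_block hC hN hu
    have hCi : 0 < C ^ i := by positivity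
    have hw1 : C * mm C (2 * N + C ^ b) (i + 1) ≤ u / C ^ i := by
      rw [Nat.le_div_iff_mul_le hCi]
      refine le_trans (le_of_eq ?_) hi1
      ring
    have hw2 : u / C ^ i < mm C (2 * N + C ^ b) i := by
      rw [Nat.div_lt_iff_lt_mul hCi, mul_comm]
      exact hi2
    have hs : u / C ^ i - C * mm C (2 * N + C ^ b) (i + 1) < cc C (2 * N + C ^ b) i := by
      unfold cc
      omega
    have hE := eb_spec (p := p) hCi (lt_of_le_of_lt (Nat.zero_le _) hs)
    have hr := h.rel i hbi
    have hr' := h'.rel i hbi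
    unfold BlockRel at hr hr'
    have hz := hE.indep (fun s => cell p C z i (C * mm C (2 * N + C ^ b) (i + 1) + s) -
        cell p C z' i (C * mm C (2 * N + C ^ b) (i + 1) + s))
      (fun s => sub_mem (cell_mem hC0 _ _ _) (cell_mem hC0 _ _ _)) (by
        have h3 := hr.trans hr'.symm
        rw [← sub_eq_zero, ← sum_sub_distrib] at h3
        rw [← h3]
        refine sum_congr rfl fun s _ => ?_
        ring) _ hs
    have hz2 := sub_eq_zero.mp hz
    rw [Nat.add_sub_cancel' hw1] at hz2
    refine cell_inj hC0 hz2 u ?_ ?_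
    · exact Nat.div_mul_le_self _ _
    · exact Nat.lt_mul_of_div_lt (Nat.lt_succ_self _) hCi
  · rw [h.zs u (not_lt.mp hu), h'.zs u (not_lt.mp hu)]

end Pool.Agent.Helper48.ET
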