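import Pool.Agent.Helper48.ET.Defs

/-! Piece D2: the Moore matrix of a basis is invertible. -/

set_option autoImplicit false

namespace Pool.Agent.Helper48.ET

open Finset

variable {p : ℕ} [Fact p.Prime]

/-- a nonzero polynomial vanishing on `KK p N` has degree at least `p ^ N` -/
theorem natDegree_ge_of_KK {N : ℕ} (hN : 0 < N) {f : Polynomial (Om p)} (hf : f ≠ 0)
    (hr : ∀ y ∈ KK p N, f.eval y = 0) : p ^ N ≤ f.natDegree := by
  classical
  set g : Polynomial (Om p) := Polynomial.X ^ (p ^ N) - Polynomial.X with hg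
  have hp1 : 1 < p := (Fact.out : p.Prime).one_lt
  have hsep : g.Separable := galois_poly_separable p (p ^ N) (dvd_pow_self p hN.ne')
  have hdeg : g.natDegree = p ^ N := FiniteField.X_pow_card_pow_sub_X_natDegree_eq (Om p) hN.ne' hp1
  have hcard : Multiset.card g.roots = g.natDegree := by
    exact IsAlgClosed.card_roots_eq_natDegree
  have hnd : g.roots.Nodup := Polynomial.nodup_roots hsep
  have hsub : g.roots ≤ f.roots := by
    refine (Multiset.le_iff_subset hnd).mpr ?_
    intro y hy
    have hy0 := (Polynomial.mem_roots'.mp hy).2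
    have hyK : y ∈ KK p N := by
      rw [mem_KK]
      have : y ^ (p ^ N) - y = 0 := by simpa [hg, Polynomial.IsRoot] using hy0
      exact sub_eq_zero.mp this
    exact (Polynomial.mem_roots hf).mpr (hr y hyK)
  calc p ^ N = Multiset.card g.roots := by rw [hcard, hdeg]
    _ ≤ Multiset.card f.roots := Multiset.card_le_card hsub
    _ ≤ f.natDegree := Polynomial.card_roots' f

/-- the matrix `(E_j ^ (q ^ t))` is invertible: a nonzero polynomial `∑_{t<n} c_t X ^ (q ^ t)`
cannot vanish at all the `q ^ n` elements of `KK p (m * n)` (`q = p ^ m`) -/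
theorem RelBasis.moore {m n : ℕ} {E : ℕ → Om p} (hm : 0 < m) (h : RelBasis p m n E) :
    ∃ W : ℕ → ℕ → Om p, IsInv n (fun t j => E j ^ ((p ^ m) ^ t)) W := by
  classical
  set q : ℕ := p ^ m with hq
  have hp1 : 1 < p := (Fact.out : p.Prime).one_lt
  have hq1 : 1 < q := Nat.one_lt_pow hm.ne' hp1
  rcases Nat.eq_zero_or_pos n with rfl | hn
  · exact ⟨fun _ _ => 0, by constructor <;> intro i hi <;> omega⟩
  set M : Matrix (Fin n) (Fin n) (Om p) := fun t j => E j ^ (q ^ (t : ℕ)) with hM
  have hdet : M.det ≠ 0 := by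
    intro h0
    obtain ⟨v, hv0, hv⟩ := Matrix.exists_vecMul_eq_zero_iff.mpr h0
    have hv' : ∀ j : Fin n, ∑ t : Fin n, v t * E j ^ (q ^ (t : ℕ)) = 0 := by
      intro j
      have := congrFun hv j
      simpa [Matrix.vecMul, dotProduct, hM] using this
    set f : Polynomial (Om p) := ∑ t : Fin n, Polynomial.C (v t) * Polynomial.X ^ (q ^ (t : ℕ)) with hf
    have hcoef : ∀ t : Fin n, f.coeff (q ^ (t : ℕ)) = v t := by
      intro t
      rw [hf, Polynomial.finsetSum_coeff]
      rw [Finset.sum_eq_single t]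
      · simp
      · intro s _ hst
        rw [Polynomial.coeff_C_mul, Polynomial.coeff_X_pow, if_neg, mul_zero]
        intro he
        exact hst (Fin.ext (Nat.pow_right_injective hq1 he)).symm
      · simp
    have hf0 : f ≠ 0 := by
      intro h0
      apply hv0
      ext t
      rw [← hcoef t, h0]
      simp
    have hroot : ∀ y ∈ KK p (m * n), f.eval y = 0 := by
      intro y hy
      obtain ⟨k, hk, rfl⟩ := h.span y hy
      rw [hf, Polynomial.eval_finsetSum]
      have : ∀ t : Fin n, Polynomial.eval (∑ s ∈ range n, k s * E s)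
          (Polynomial.C (v t) * Polynomial.X ^ (q ^ (t : ℕ))) =
          ∑ s ∈ range n, k s * (v t * E s ^ (q ^ (t : ℕ))) := by
        intro t
        rw [Polynomial.eval_mul, Polynomial.eval_C, Polynomial.eval_pow, Polynomial.eval_X]
        have hpw : (∑ s ∈ range n, k s * E s) ^ (q ^ (t : ℕ)) =
            ∑ s ∈ range n, (k s * E s) ^ (q ^ (t : ℕ)) := by
          rw [hq, ← pow_mul]
          exact sum_pow_char_pow p (m * (t : ℕ)) _ _
        rw [hpw, Finset.mul_sum]
        refine Finset.sum_congr rfl fun s _ => ?_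
        rw [mul_pow, pow_pow_KK (hk s) t]
        ring
      rw [Finset.sum_congr rfl fun t _ => this t, Finset.sum_comm]
      refine Finset.sum_eq_zero fun s hs => ?_
      rw [← Finset.mul_sum, hv' ⟨s, Finset.mem_range.mp hs⟩, mul_zero]
    have h1 := natDegree_ge_of_KK (Nat.mul_pos hm hn) hf0 hroot
    have h2 : f.natDegree ≤ q ^ (n - 1) := by
      rw [hf]
      refine Polynomial.natDegree_sum_le_of_forall_le _ _ fun t _ => ?_
      refine (Polynomial.natDegree_C_mul_X_pow_le _ _).trans ?_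
      exact Nat.pow_le_pow_right hq1.le (by omega)
    have h3 : q ^ (n - 1) < q ^ n := Nat.pow_lt_pow_right hq1 (by omega)
    rw [pow_mul, ← hq] at h1
    omega
  have hU : IsUnit M.det := isUnit_iff_ne_zero.mpr hdet
  refine ⟨fun j t => if hjt : j < n ∧ t < n then M⁻¹ ⟨j, hjt.1⟩ ⟨t, hjt.2⟩ else 0, ?_, ?_⟩
  · intro i hi k hk
    have := congrFun (congrFun (Matrix.mul_nonsing_inv M hU) ⟨i, hi⟩) ⟨k, hk⟩
    rw [Matrix.mul_apply] at this
    rw [← Fin.sum_univ_eq_sum_range (fun t => E t ^ (q ^ i) *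
      (if hjt : t < n ∧ k < n then M⁻¹ ⟨t, hjt.1⟩ ⟨k, hjt.2⟩ else 0)) n]
    rw [Matrix.one_apply] at this
    simpa [hM, hk] using this
  · intro i hi k hk
    have := congrFun (congrFun (Matrix.nonsing_inv_mul M hU) ⟨i, hi⟩) ⟨k, hk⟩
    rw [Matrix.mul_apply] at this
    rw [← Fin.sum_univ_eq_sum_range (fun t =>
      (if hjt : i < n ∧ t < n then M⁻¹ ⟨i, hjt.1⟩ ⟨t, hjt.2⟩ else 0) * E k ^ (q ^ t)) n]
    rw [Matrix.one_apply] at this
    simpa [hM, hi] using this

end Pool.Agent.Helper48.ET
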