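import Pool.Agent.Helper48.ET.Defs

/-! Arithmetic of `mm` (piece F of the Erdos-Turan Q2 theorem). -/

set_option autoImplicit false

namespace Pool.Agent.Helper48.ET

open Finset

theorem mm_mono {C κ' κ i : ℕ} (h : κ' ≤ κ) : mm C κ' i ≤ mm C κ i :=
  Nat.div_le_div_right (Nat.sub_le_sub_right h _)

theorem mul_mm_le {C : ℕ} (hC : 0 < C) (κ i : ℕ) : C * mm C κ (i + 1) ≤ mm C κ i := by
  unfold mm
  have e : 2 * C ^ (i + 1) = 2 * C ^ i * C := by ring
  rw [e, ← Nat.div_div_eq_div_mul]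
  refine (Nat.mul_div_le _ _).trans (Nat.div_le_div_right (Nat.sub_le_sub_left ?_ _))
  exact Nat.pow_le_pow_right hC (Nat.le_succ i)

theorem mm_le {C : ℕ} (hC : 0 < C) (κ i : ℕ) : 2 * C ^ i * mm C κ i ≤ κ - C ^ i :=
  Nat.mul_div_le _ _

theorem lt_mm {C : ℕ} (hC : 0 < C) (κ i : ℕ) : κ < 2 * C ^ i * mm C κ i + 3 * C ^ i := by
  have h : κ - C ^ i < 2 * C ^ i * (mm C κ i + 1) :=
    Nat.lt_mul_div_succ _ (by positivity)
  have h2 : 2 * C ^ i * (mm C κ i + 1) = 2 * C ^ i * mm C κ i + 2 * C ^ i := by ring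
  omega

/-- `t ≤ mm C κ i` in terms of `κ` -/
theorem le_mm_iff {C : ℕ} (hC : 0 < C) {κ i t : ℕ} (ht : 1 ≤ t) :
    t ≤ mm C κ i ↔ C ^ i * (2 * t + 1) ≤ κ := by
  unfold mm
  rw [Nat.le_div_iff_mul_le (by positivity)]
  have e : C ^ i * (2 * t + 1) = t * (2 * C ^ i) + C ^ i := by ring
  have h1 : 0 < C ^ i := by positivity
  have h2 : 0 < t * (2 * C ^ i) := by positivity
  rw [e]
  omega

theorem two_le_cc {C : ℕ} (hC : 8 ≤ C) {κ i : ℕ} (h : 1 ≤ mm C κ (i + 1)) : 2 ≤ cc C κ i := by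
  have hC0 : 0 < C := by omega
  have h1 : C ^ (i + 1) * (2 * mm C κ (i + 1) + 1) ≤ κ := (le_mm_iff hC0 h).mp le_rfl
  have h2 : C * mm C κ (i + 1) + 2 ≤ mm C κ i := by
    rw [le_mm_iff hC0 (by omega)]
    refine le_trans ?_ h1
    rw [pow_succ, mul_assoc]
    apply Nat.mul_le_mul_left
    have e1 : C * (2 * mm C κ (i + 1) + 1) = 2 * (C * mm C κ (i + 1)) + C := by ring
    rw [e1]
    omega
  unfold cc
  omega

theorem mm_base {C b N : ℕ} (hC : 0 < C) (h : C ^ b ∣ N) : mm C (2 * N + C ^ b) b * C ^ b = N := by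
  unfold mm
  rw [Nat.add_sub_cancel, Nat.mul_div_mul_left _ _ (by norm_num)]
  exact Nat.div_mul_cancel h

theorem mm_top {C b N I i : ℕ} (hC : 2 ≤ C) (hb : b ≤ I) (hN : N < C ^ (I + 1))
    (hi : I < i) : mm C (2 * N + C ^ b) i = 0 := by
  unfold mm
  have hC0 : 0 < C := by omega
  have h1 : C ^ (I + 1) ≤ C ^ i := Nat.pow_le_pow_right hC0 hi
  have h2 : C ^ b ≤ C ^ i := Nat.pow_le_pow_right hC0 (by omega)
  apply Nat.div_eq_of_lt
  omega

/-- at most one level `≥ e` changes between `κ'` and `κ` -/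
theorem one_change {C κ' κ e : ℕ} (hC : 2 ≤ C) (hev : Even C) (h : κ' ≤ κ) (hd : κ ≤ κ' + C ^ e) :
    ∃ j, ∀ i, e ≤ i → i ≠ j → mm C κ' i = mm C κ i := by
  have hC0 : 0 < C := by omega
  -- a change at level `i` gives an odd multiple of `C ^ i` in `(κ', κ]`
  have key : ∀ i, mm C κ' i ≠ mm C κ i → ∃ t, κ' < C ^ i * (2 * t + 1) ∧
      C ^ i * (2 * t + 1) ≤ κ := by
    intro i hne
    have hlt : mm C κ' i < mm C κ i := lt_of_le_of_ne (mm_mono h) hne
    refine ⟨mm C κ i, ?_, (le_mm_iff hC0 (by omega)).mp le_rfl⟩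
    by_contra hcon
    push Not at hcon
    have := (le_mm_iff hC0 (κ := κ') (i := i) (t := mm C κ i) (by omega)).mpr hcon
    omega
  by_cases hex : ∃ i, e ≤ i ∧ mm C κ' i ≠ mm C κ i
  · obtain ⟨j, hj, hne⟩ := hex
    refine ⟨j, fun i hi hij => ?_⟩
    by_contra hne'
    obtain ⟨t, ht1, ht2⟩ := key j hne
    obtain ⟨s, hs1, hs2⟩ := key i hne'
    -- both are multiples of `C ^ e`
    obtain ⟨a, ha⟩ : C ^ e ∣ C ^ j * (2 * t + 1) := (pow_dvd_pow C hj).mul_right _
    obtain ⟨b, hb⟩ : C ^ e ∣ C ^ i * (2 * s + 1) := (pow_dvd_pow C hi).mul_right _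
    have hab : a = b := by
      rw [ha] at ht1 ht2
      rw [hb] at hs1 hs2
      by_contra hab
      rcases Nat.lt_or_gt_of_ne hab with hlt | hlt
      · have : C ^ e * (a + 1) ≤ C ^ e * b := Nat.mul_le_mul_left _ hlt
        rw [mul_add, mul_one] at this
        omega
      · have : C ^ e * (b + 1) ≤ C ^ e * a := Nat.mul_le_mul_left _ hlt
        rw [mul_add, mul_one] at this
        omega
    have heq : C ^ j * (2 * t + 1) = C ^ i * (2 * s + 1) := by rw [ha, hb, hab]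
    -- an odd multiple of `C ^ i` for at most one `i`
    have aux : ∀ i j s t : ℕ, i < j → C ^ j * (2 * t + 1) ≠ C ^ i * (2 * s + 1) := by
      intro i j s t hlt heq
      obtain ⟨d, rfl⟩ := Nat.exists_eq_add_of_lt hlt
      have h1 : C ^ (i + d + 1) * (2 * t + 1) = C ^ i * (C ^ (d + 1) * (2 * t + 1)) := by ring
      rw [h1] at heq
      have h2 := Nat.eq_of_mul_eq_mul_left (by positivity) heq
      have h3 : Even (2 * s + 1) := by
        rw [← h2]
        exact (hev.pow_of_ne_zero (Nat.succ_ne_zero d)).mul_right _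
      have : ¬ Even (2 * s + 1) := by
        rw [Nat.not_even_iff_odd]; exact ⟨s, rfl⟩
      exact this h3
    rcases Nat.lt_or_gt_of_ne hij with hlt | hlt
    · exact aux i j s t hlt heq
    · exact aux j i t s hlt heq.symm
  · push Not at hex
    exact ⟨0, fun i hi _ => hex i hi⟩

end Pool.Agent.Helper48.ET
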