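import Pool.Agent.Helper48.ET.Fields
import Pool.Agent.Helper48.ET.Moore
import Pool.Agent.Helper48.ET.Cells
import Pool.Agent.Helper48.ET.Ticks

/-!
ET-H: structure of the blocks in level-`h` cells (MP_12a1af_nt, Q2).
-/

set_option autoImplicit false

namespace Pool.Agent.Helper48.ET

open Finset

namespace StructAux

/-! ### sums -/

theorem sum_divmod {A : Type*} [AddCommMonoid A] (f : ℕ → ℕ → A) {c : ℕ} (hc : 0 < c) (n : ℕ) :
    ∑ v ∈ range (c * n), f (v / c) (v % c) = ∑ u ∈ range n, ∑ r ∈ range c, f u r := by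
  induction n with
  | zero => simp
  | succ n ih =>
    rw [Nat.mul_succ, sum_range_add, ih, sum_range_succ]
    congr 1
    refine sum_congr rfl fun r hr => ?_
    have hr' := mem_range.1 hr
    rw [Nat.mul_add_div hc, Nat.div_eq_of_lt hr', Nat.add_zero, Nat.mul_add_mod,
      Nat.mod_eq_of_lt hr']

/-- a sum over a longer range, with zero coefficients -/
theorem sum_extend {A : Type*} [Semiring A] {q q' : ℕ} (h : q ≤ q') (f g : ℕ → A) :
    ∑ u ∈ range q, f u * g u = ∑ u ∈ range q', (if u < q then f u else 0) * g u := by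
  obtain ⟨d, rfl⟩ := Nat.exists_eq_add_of_le h
  rw [sum_range_add]
  have h1 : ∑ u ∈ range d, (if q + u < q then f (q + u) else 0) * g (q + u) = 0 :=
    sum_eq_zero fun u _ => by rw [if_neg (by omega), zero_mul]
  rw [h1, add_zero]
  exact sum_congr rfl fun u hu => by rw [if_pos (mem_range.1 hu)]

/-! ### block diagonal matrices -/

variable {Ω : Type*} [Field Ω]

/-- block diagonal matrix -/
def bd (T : ℕ) (M M' : ℕ → ℕ → Ω) : ℕ → ℕ → Ω := fun i k =>
  if i < T then (if k < T then M i k else 0) else (if k < T then 0 else M' (i - T) (k - T))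

theorem bd_ll {T : ℕ} {M M' : ℕ → ℕ → Ω} {i k : ℕ} (hi : i < T) (hk : k < T) :
    bd T M M' i k = M i k := by simp [bd, hi, hk]
theorem bd_lr {T : ℕ} {M M' : ℕ → ℕ → Ω} {i k : ℕ} (hi : i < T) :
    bd T M M' i (T + k) = 0 := by simp [bd, hi]
theorem bd_rl {T : ℕ} {M M' : ℕ → ℕ → Ω} {i k : ℕ} (hk : k < T) :
    bd T M M' (T + i) k = 0 := by simp [bd, hk]
theorem bd_rr {T : ℕ} {M M' : ℕ → ℕ → Ω} {i k : ℕ} :
    bd T M M' (T + i) (T + k) = M' i k := by simp [bd]

theorem bd_sum_l {T T' : ℕ} {M M' : ℕ → ℕ → Ω} {i : ℕ} (hi : i < T) (y : ℕ → Ω) :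
    ∑ k ∈ range (T + T'), bd T M M' i k * y k = ∑ k ∈ range T, M i k * y k := by
  rw [sum_range_add]
  have h1 : ∑ k ∈ range T', bd T M M' i (T + k) * y (T + k) = 0 :=
    sum_eq_zero fun k _ => by rw [bd_lr hi, zero_mul]
  rw [h1, add_zero]
  exact sum_congr rfl fun k hk => by rw [bd_ll hi (mem_range.1 hk)]

theorem bd_sum_r {T T' : ℕ} {M M' : ℕ → ℕ → Ω} {i : ℕ} (y : ℕ → Ω) :
    ∑ k ∈ range (T + T'), bd T M M' (T + i) k * y k = ∑ k ∈ range T', M' i k * y (T + k) := by
  rw [sum_range_add]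
  have h1 : ∑ k ∈ range T, bd T M M' (T + i) k * y k = 0 :=
    sum_eq_zero fun k hk => by rw [bd_rl (mem_range.1 hk), zero_mul]
  rw [h1, zero_add]
  exact sum_congr rfl fun k _ => by rw [bd_rr]

theorem isInv_half {T T' : ℕ} {M M' W W' : ℕ → ℕ → Ω}
    (h : ∀ i < T, ∀ k < T, ∑ t ∈ range T, M i t * W t k = if i = k then 1 else 0)
    (h' : ∀ i < T', ∀ k < T', ∑ t ∈ range T', M' i t * W' t k = if i = k then 1 else 0) :
    ∀ i < T + T', ∀ k < T + T',
      ∑ t ∈ range (T + T'), bd T M M' i t * bd T W W' t k = if i = k then 1 else 0 := by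
  intro i hi k hk
  rcases lt_or_ge i T with hiT | hiT
  · rw [bd_sum_l hiT (fun t => bd T W W' t k)]
    rcases lt_or_ge k T with hkT | hkT
    · rw [← h i hiT k hkT]
      exact sum_congr rfl fun t ht => by rw [bd_ll (mem_range.1 ht) hkT]
    · obtain ⟨k', rfl⟩ := Nat.exists_eq_add_of_le hkT
      rw [if_neg (by omega)]
      exact sum_eq_zero fun t ht => by rw [bd_lr (mem_range.1 ht), mul_zero]
  · obtain ⟨i', rfl⟩ := Nat.exists_eq_add_of_le hiT
    rw [bd_sum_r (fun t => bd T W W' t k)]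
    rcases lt_or_ge k T with hkT | hkT
    · rw [if_neg (by omega)]
      exact sum_eq_zero fun t ht => by rw [bd_rl hkT, mul_zero]
    · obtain ⟨k', rfl⟩ := Nat.exists_eq_add_of_le hkT
      have h1 := h' i' (by omega) k' (by omega)
      have h2 : (if T + i' = T + k' then (1 : Ω) else 0) = if i' = k' then 1 else 0 := by
        by_cases h3 : i' = k'
        · simp [h3]
        · rw [if_neg (by omega), if_neg h3]
      rw [h2, ← h1]
      exact sum_congr rfl fun t _ => by rw [bd_rr]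

theorem isInv_bd {T T' : ℕ} {M M' W W' : ℕ → ℕ → Ω} (h : IsInv T M W) (h' : IsInv T' M' W') :
    IsInv (T + T') (bd T M M') (bd T W W') :=
  ⟨isInv_half h.1 h'.1, isInv_half h.2 h'.2⟩

theorem Qf_bd_l {T T' : ℕ} {M M' W W' : ℕ → ℕ → Ω} {j : ℕ} (hj : j < T) (y : ℕ → Ω) :
    Qf (T + T') (bd T M M') (bd T W W') y j = Qf T M W y j := by
  unfold Qf
  rw [bd_sum_l hj (fun t => (∑ k ∈ range (T + T'), bd T M M' t k * y k) ^ 2)]
  exact sum_congr rfl fun t ht => by rw [bd_sum_l (mem_range.1 ht)]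

theorem Qf_bd_r {T T' : ℕ} {M M' W W' : ℕ → ℕ → Ω} {j : ℕ} (y : ℕ → Ω) :
    Qf (T + T') (bd T M M') (bd T W W') y (T + j) = Qf T' M' W' (fun k => y (T + k)) j := by
  unfold Qf
  rw [bd_sum_r (fun t => (∑ k ∈ range (T + T'), bd T M M' t k * y k) ^ 2)]
  exact sum_congr rfl fun t _ => by rw [bd_sum_r]

/-- solving `M z = b` -/
theorem solve_inv {T : ℕ} {M W : ℕ → ℕ → Ω} (h : IsInv T M W) {z b : ℕ → Ω}
    (hz : ∀ t < T, ∑ k ∈ range T, M t k * z k = b t) {j : ℕ} (hj : j < T) :
    z j = ∑ t ∈ range T, W j t * b t := by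
  calc z j = ∑ k ∈ range T, (if j = k then (1 : Ω) else 0) * z k := by
        simp [hj]
    _ = ∑ k ∈ range T, (∑ t ∈ range T, W j t * M t k) * z k :=
        sum_congr rfl fun k hk => by rw [h.2 j hj k (mem_range.1 hk)]
    _ = ∑ k ∈ range T, ∑ t ∈ range T, W j t * (M t k * z k) :=
        sum_congr rfl fun k _ => by
          rw [sum_mul]; exact sum_congr rfl fun t _ => by ring
    _ = ∑ t ∈ range T, ∑ k ∈ range T, W j t * (M t k * z k) := sum_comm
    _ = ∑ t ∈ range T, W j t * b t :=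
        sum_congr rfl fun t ht => by rw [← mul_sum, hz t (mem_range.1 ht)]

end StructAux

open StructAux

section

variable {p : ℕ} [Fact p.Prime]

/-- structure of a single block -/
theorem StructAux.block_struct {C : ℕ} (hC : 2 ≤ C) (κ h d : ℕ) :
    ∃ M W : ℕ → ℕ → Om p, IsInv (C ^ d * cc C κ (h + d)) M W ∧
      ∀ θ : Par p, ∃ Λ : ℕ → ℕ → Om p, ∀ x z : ℕ → ZMod p, BlockRel C κ θ x z (h + d) →
        ∀ j < C ^ d * cc C κ (h + d),
          cell p C z h (C ^ d * (C * mm C κ (h + d + 1)) + j) =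
            θ.val none * Qf (C ^ d * cc C κ (h + d)) M W
              (fun k => cell p C x h (C ^ d * (C * mm C κ (h + d + 1)) + k)) j +
            ∑ u ∈ range (C ^ d * (C * mm C κ (h + d + 1))), Λ j u * cell p C x h u := by
  have hC0 : 0 < C := by omega
  have hd : 0 < C ^ d := pow_pos hC0 d
  set i := h + d with hi
  set m' := C * mm C κ (i + 1) with hm'
  set c := cc C κ i with hcc
  rcases Nat.eq_zero_or_pos c with hc | hc
  · rw [hc, Nat.mul_zero]
    refine ⟨0, 0, ⟨fun i hi => absurd hi (Nat.not_lt_zero _), fun i hi => absurd hi (Nat.not_lt_zero _)⟩,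
      fun θ => ⟨0, fun x z _ j hj => absurd hj (Nat.not_lt_zero _)⟩⟩
  obtain ⟨β, hβ, hcell⟩ := cell_comp (p := p) hC0 h d
  set e := eb p (C ^ i) c with he
  have heb : RelBasis p (C ^ h * C ^ d) c e := by
    have : C ^ h * C ^ d = C ^ i := by rw [hi, pow_add]
    rw [this]
    exact eb_spec (pow_pos hC0 i) hc
  set E : ℕ → Om p := fun j => e (j / C ^ d) * β (j % C ^ d) with hE
  have hEb : RelBasis p (C ^ h) (C ^ d * c) E := by
    rw [mul_comm (C ^ d) c]
    exact RelBasis.mul hd hβ heb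
  obtain ⟨W, hW⟩ := hEb.moore (pow_pos hC0 h)
  refine ⟨_, W, hW, fun θ => ?_⟩
  -- coefficients of the linear twist
  set ℓ : ℕ → Om p := fun v =>
    ∑ s ∈ range c, (if s < 2 then θ.val (some (i, s, v / C ^ d)) else 0) * β (v % C ^ d) * e s
    with hℓ
  set q := p ^ (C ^ h) with hq
  refine ⟨fun j u => ∑ t ∈ range (C ^ d * c), W j t * ℓ u ^ q ^ t, fun x z hrel j hj => ?_⟩
  -- expansions in level `h` cells
  have hexp : ∀ y : ℕ → ZMod p, ∑ s ∈ range c, cell p C y i (m' + s) * e s =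
      ∑ k ∈ range (C ^ d * c), E k * cell p C y h (C ^ d * m' + k) := by
    intro y
    have h1 := sum_divmod (fun s r => e s * β r * cell p C y h (C ^ d * m' + (C ^ d * s + r))) hd c
    have h2 : ∑ k ∈ range (C ^ d * c), E k * cell p C y h (C ^ d * m' + k) =
        ∑ v ∈ range (C ^ d * c), e (v / C ^ d) * β (v % C ^ d) *
          cell p C y h (C ^ d * m' + (C ^ d * (v / C ^ d) + v % C ^ d)) :=
      sum_congr rfl fun v _ => by rw [Nat.div_add_mod]
    rw [h2, h1]
    refine sum_congr rfl fun s _ => ?_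
    rw [hcell, sum_mul]
    refine sum_congr rfl fun r _ => ?_
    have h3 : C ^ d * (m' + s) + r = C ^ d * m' + (C ^ d * s + r) := by ring
    rw [h3]
    ring
  have htw : ∑ s ∈ range c, tw C κ θ x i s * e s =
      ∑ u ∈ range (C ^ d * m'), ℓ u * cell p C x h u := by
    have h1 := sum_divmod (fun u r => (∑ s ∈ range c,
      (if s < 2 then θ.val (some (i, s, u)) else 0) * β r * e s) * cell p C x h (C ^ d * u + r))
      hd m'
    have h2 : ∑ u ∈ range (C ^ d * m'), ℓ u * cell p C x h u =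
        ∑ v ∈ range (C ^ d * m'), (∑ s ∈ range c,
          (if s < 2 then θ.val (some (i, s, v / C ^ d)) else 0) * β (v % C ^ d) * e s) *
          cell p C x h (C ^ d * (v / C ^ d) + v % C ^ d) :=
      sum_congr rfl fun v _ => by rw [Nat.div_add_mod]
    rw [h2, h1]
    have h3 : ∀ s ∈ range c, tw C κ θ x i s * e s =
        ∑ u ∈ range m', ∑ r ∈ range (C ^ d),
          (if s < 2 then θ.val (some (i, s, u)) else 0) * β r * e s *
            cell p C x h (C ^ d * u + r) := by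
      intro s _
      unfold tw
      split_ifs with hs
      · rw [sum_mul]
        refine sum_congr rfl fun u _ => ?_
        rw [hcell, mul_sum, sum_mul]
        exact sum_congr rfl fun r _ => by ring
      · simp
    rw [sum_congr rfl h3, sum_comm]
    refine sum_congr rfl fun u _ => ?_
    rw [sum_comm]
    exact sum_congr rfl fun r _ => by rw [sum_mul]
  -- the block relation in level `h` cells
  have hmain : ∑ k ∈ range (C ^ d * c), E k * cell p C z h (C ^ d * m' + k) -
      ∑ u ∈ range (C ^ d * m'), ℓ u * cell p C x h u =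
      θ.val none * (∑ k ∈ range (C ^ d * c), E k * cell p C x h (C ^ d * m' + k)) ^ 2 := by
    rw [← hexp z, ← hexp x, ← htw, ← sum_sub_distrib]
    have h1 := hrel
    unfold BlockRel at h1
    rw [← h1]
    exact sum_congr rfl fun s _ => by ring
  -- Frobenius powers
  have hcellq : ∀ (y : ℕ → ZMod p) (u t : ℕ), cell p C y h u ^ q ^ t = cell p C y h u :=
    fun y u t => pow_pow_KK (cell_mem hC0 y h u) t
  have hlam : ∀ t, (θ.val none) ^ q ^ t = θ.val none :=
    fun t => pow_pow_KK (algebraMap_mem_KK _ _) t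
  have hφ : ∀ (t : ℕ) (y : Om p), iterateFrobenius (Om p) p (C ^ h * t) y = y ^ q ^ t := by
    intro t y
    rw [iterateFrobenius_def, hq, ← pow_mul]
  have hfrob : ∀ t < C ^ d * c,
      ∑ k ∈ range (C ^ d * c), E k ^ q ^ t * cell p C z h (C ^ d * m' + k) =
      θ.val none * (∑ k ∈ range (C ^ d * c), E k ^ q ^ t * cell p C x h (C ^ d * m' + k)) ^ 2 +
      ∑ u ∈ range (C ^ d * m'), ℓ u ^ q ^ t * cell p C x h u := by
    intro t _
    have h1 := congrArg (iterateFrobenius (Om p) p (C ^ h * t)) hmain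
    simp only [map_sub, map_sum, map_mul, map_pow] at h1
    simp only [hφ, hcellq, hlam] at h1
    rw [← h1]
    ring
  have hsol := solve_inv hW (z := fun k => cell p C z h (C ^ d * m' + k)) hfrob hj
  change cell p C z h (C ^ d * m' + j) = _ at hsol
  rw [hsol]
  simp only [mul_add, sum_add_distrib]
  congr 1
  · unfold Qf
    rw [mul_sum]
    exact sum_congr rfl fun t _ => by ring
  · simp only [mul_sum, sum_mul]
    rw [sum_comm]
    exact sum_congr rfl fun u _ => sum_congr rfl fun t _ => by ring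

theorem StructAux.region_ind {C : ℕ} (hC : 2 ≤ C) (κ h s : ℕ) (n : ℕ) :
    ∀ h' : ℕ, h ≤ h' → h' + n = s + 1 →
    C ^ (s + 1 - h) * mm C κ (s + 1) ≤ C ^ (h' - h) * mm C κ h' ∧
    ∃ M W : ℕ → ℕ → Om p,
      IsInv (C ^ (h' - h) * mm C κ h' - C ^ (s + 1 - h) * mm C κ (s + 1)) M W ∧
      ∀ θ : Par p, ∃ Λ : ℕ → ℕ → Om p, ∀ x z : ℕ → ZMod p,
        (∀ i, h' ≤ i → i ≤ s → BlockRel C κ θ x z i) →
        ∀ j < C ^ (h' - h) * mm C κ h' - C ^ (s + 1 - h) * mm C κ (s + 1),
          cell p C z h (C ^ (s + 1 - h) * mm C κ (s + 1) + j) =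
            θ.val none * Qf (C ^ (h' - h) * mm C κ h' - C ^ (s + 1 - h) * mm C κ (s + 1)) M W
              (fun k => cell p C x h (C ^ (s + 1 - h) * mm C κ (s + 1) + k)) j +
            ∑ u ∈ range (C ^ (h' - h) * mm C κ h'), Λ j u * cell p C x h u := by
  induction n with
  | zero =>
    intro h' _ hh'
    have e : h' = s + 1 := by omega
    subst e
    rw [Nat.sub_self]
    exact ⟨le_rfl, 0, 0, ⟨fun i hi => absurd hi (Nat.not_lt_zero _),
      fun i hi => absurd hi (Nat.not_lt_zero _)⟩,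
      fun θ => ⟨0, fun x z _ j hj => absurd hj (Nat.not_lt_zero _)⟩⟩
  | succ n ih =>
    intro h' hh hh'
    obtain ⟨hQ, M1, W1, hI1, H1⟩ := ih (h' + 1) (by omega) (by omega)
    obtain ⟨d, rfl⟩ := Nat.exists_eq_add_of_le hh
    obtain ⟨M2, W2, hI2, H2⟩ := block_struct (p := p) hC κ h d
    have ed : h + d - h = d := by omega
    have ed1 : h + d + 1 - h = d + 1 := by omega
    rw [ed1] at hQ hI1 H1
    rw [ed]
    set Q := C ^ (s + 1 - h) * mm C κ (s + 1) with hQdef
    have hq1 : C ^ (d + 1) * mm C κ (h + d + 1) = C ^ d * (C * mm C κ (h + d + 1)) := by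
      rw [pow_succ]; ring
    rw [hq1] at hQ hI1 H1
    set q1 := C ^ d * (C * mm C κ (h + d + 1)) with hq1def
    set q0 := C ^ d * mm C κ (h + d) with hq0def
    have hT2 : C ^ d * cc C κ (h + d) = q0 - q1 := by
      unfold cc
      rw [Nat.mul_sub]
    have hle : q1 ≤ q0 := Nat.mul_le_mul_left _ (mul_mm_le (by omega) κ (h + d))
    rw [hT2] at hI2 H2
    have hT : q0 - Q = (q1 - Q) + (q0 - q1) := by omega
    have hQ1 : Q + (q1 - Q) = q1 := by omega
    set T1 := q1 - Q with hT1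
    set T2 := q0 - q1 with hT2'
    rw [hT]
    refine ⟨hQ.trans hle, bd T1 M1 M2, bd T1 W1 W2, isInv_bd hI1 hI2, fun θ => ?_⟩
    obtain ⟨Λ1, HΛ1⟩ := H1 θ
    obtain ⟨Λ2, HΛ2⟩ := H2 θ
    refine ⟨fun j u => if j < T1 then (if u < q1 then Λ1 j u else 0)
      else (if u < q1 then Λ2 (j - T1) u else 0), fun x z hrel j hj => ?_⟩
    rcases lt_or_ge j T1 with hj1 | hj1
    · have h1 := HΛ1 x z (fun i hi his => hrel i (by omega) his) j hj1
      rw [h1, Qf_bd_l hj1, sum_extend hle]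
      simp only [if_pos hj1]
    · obtain ⟨j', rfl⟩ := Nat.exists_eq_add_of_le hj1
      have h1 := HΛ2 x z (hrel (h + d) le_rfl (by omega)) j' (by omega)
      have e1 : Q + (T1 + j') = q1 + j' := by omega
      have e2 : ∀ k, Q + (T1 + k) = q1 + k := fun k => by omega
      rw [e1, h1, Qf_bd_r, sum_extend hle]
      simp only [e2, if_neg (not_lt.2 hj1), Nat.add_sub_cancel_left]

/-- structure of the blocks `s, s-1, …, h'` in level-`h` cells.  `M, W` do not depend on `θ`. -/
theorem region_struct {C : ℕ} (hC : 2 ≤ C) (κ h h' s : ℕ) (hh : h ≤ h') (hs : h' ≤ s + 1) :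
    ∃ M W : ℕ → ℕ → Om p,
      IsInv (C ^ (h' - h) * mm C κ h' - C ^ (s + 1 - h) * mm C κ (s + 1)) M W ∧
      ∀ θ : Par p, ∃ Λ : ℕ → ℕ → Om p, ∀ x z : ℕ → ZMod p,
        (∀ i, h' ≤ i → i ≤ s → BlockRel C κ θ x z i) →
        ∀ j < C ^ (h' - h) * mm C κ h' - C ^ (s + 1 - h) * mm C κ (s + 1),
          cell p C z h (C ^ (s + 1 - h) * mm C κ (s + 1) + j) =
            θ.val none * Qf (C ^ (h' - h) * mm C κ h' - C ^ (s + 1 - h) * mm C κ (s + 1)) M W
              (fun k => cell p C x h (C ^ (s + 1 - h) * mm C κ (s + 1) + k)) j +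
            ∑ u ∈ range (C ^ (h' - h) * mm C κ h'), Λ j u * cell p C x h u :=
  (region_ind hC κ h s (s + 1 - h') h' hh (by omega)).2

end

end Pool.Agent.Helper48.ET
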