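import Pool.Agent.Helper48.ET.LsCore
import Pool.Agent.Helper48.ET.Struct
import Pool.Agent.Helper48.ET.Code

set_option autoImplicit false

namespace Pool.Agent.Helper48.ET

namespace K

open Finset

variable {p : ℕ} [Fact p.Prime]

/-- if `F` factors through `G` then its image is not larger -/
theorem image_card_le {α β γ : Type*} [DecidableEq β] [DecidableEq γ] (S : Finset α) (F : α → β)
    (G : α → γ) (h : ∀ a ∈ S, ∀ b ∈ S, G a = G b → F a = F b) :
    (S.image F).card ≤ (S.image G).card := by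
  classical
  rcases S.eq_empty_or_nonempty with rfl | ⟨a0, _⟩
  · simp
  have : Nonempty α := ⟨a0⟩
  have h1 : ∀ c ∈ S.image G, ∃ a ∈ S, G a = c := fun c hc => mem_image.mp hc
  choose! f hf using h1
  have : S.image F ⊆ (S.image G).image (fun c => F (f c)) := by
    intro b hb
    obtain ⟨a, ha, rfl⟩ := mem_image.mp hb
    refine mem_image.mpr ⟨G a, mem_image_of_mem _ ha, ?_⟩
    exact h _ (hf _ (mem_image_of_mem _ ha)).1 _ ha (hf _ (mem_image_of_mem _ ha)).2
  exact (card_le_card this).trans card_image_le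

/-- the renaming of the variables -/
def ren (g R0 : ℕ) : Option (ℕ × ℕ) → Option (ℕ × ℕ × ℕ)
  | none => none
  | some (r, k) => some (g, r, R0 + k)

theorem ren_inj (g R0 : ℕ) : Function.Injective (ren g R0) := by
  intro a b h
  rcases a with _ | ⟨r, k⟩ <;> rcases b with _ | ⟨r', k'⟩
  · rfl
  · simp [ren] at h
  · simp [ren] at h
  · simp only [ren, Option.some.injEq, Prod.mk.injEq, true_and] at h
    obtain ⟨rfl, h⟩ := h
    have : k = k' := by omega
    rw [this]

theorem pow_mono_aux {C T : ℕ} (h : T ≤ 2 * C ^ 4) :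
    (T + 1) ^ T ≤ N0 C ∧ (T + 2) ^ T ≤ Del C := by
  constructor
  · unfold N0
    calc (T + 1) ^ T ≤ (2 * C ^ 4 + 1) ^ T := Nat.pow_le_pow_left (by omega) _
      _ ≤ _ := Nat.pow_le_pow_right (by omega) h
  · unfold Del
    calc (T + 2) ^ T ≤ (2 * C ^ 4 + 2) ^ T := Nat.pow_le_pow_left (by omega) _
      _ ≤ _ := Nat.pow_le_pow_right (by omega) h

/-- common form of the three local steps -/
theorem ls_step {C : ℕ} (hC : 8 ≤ C) {b' N' b N : ℕ} (θ' : Par p) (h g R0 T'' T' T R q' : ℕ)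
    (h1 : T'' ≤ T') (h2 : T' ≤ T) (h3 : T' ≤ T'' + R) (hT : T ≤ 2 * C ^ 4)
    (hq' : q' ≤ C ^ h * (R0 + T')) (M W M' W' Λ' : ℕ → ℕ → Om p) (hMW : IsInv T M W)
    (ha : ∀ y z, IsCode C b' N' θ' y z → ∀ j < T'', cell p C z h (R0 + j) =
      θ'.val none * Qf T'' M' W' (fun k => cell p C y h (R0 + k)) j +
        ∑ u ∈ range (R0 + T''), Λ' j u * cell p C y h u)
    (hb : ∀ θ : Par p, ∃ Λ : ℕ → ℕ → Om p, ∀ y z, IsCode C b N θ y z → ∀ j < T,
      cell p C z h (R0 + j) = θ.val none * Qf T M W (fun k => cell p C y h (R0 + k)) j +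
        ∑ u ∈ range (R0 + T), Λ j u * cell p C y h u)
    (hc : ∀ y z, IsCode C b' N' θ' y z → ∀ k, T' ≤ k → k < T → cell p C y h (R0 + k) = 0 ∧
      cell p C z h (R0 + k) = 0)
    (hd : ∀ (θ : Par p) (t w : ℕ → ZMod p), ∀ x ∈ Sol C b' N' θ' b N θ t w,
      ∀ y ∈ Sol C b' N' θ' b N θ t w, trunc (C ^ h * R0) y = trunc (C ^ h * R0) x → ∀ r < R,
      ∑ k ∈ range T', θ.val (some (g, r, R0 + k)) * cell p C y h (R0 + k) =
        ∑ k ∈ range T', θ.val (some (g, r, R0 + k)) * cell p C x h (R0 + k)) :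
    ∃ P : MvPolynomial (Option (ℕ × ℕ × ℕ)) (Om p), P ≠ 0 ∧ P.totalDegree ≤ Del C ∧
      ∀ θ : Par p, MvPolynomial.eval θ.val P ≠ 0 → ∀ t w : ℕ → ZMod p,
        (Sol C b' N' θ' b N θ t w).Finite →
        FB (Sol C b' N' θ' b N θ t w) (C ^ h * R0) q' (N0 C) := by
  classical
  have hC0 : 0 < C := by omega
  obtain ⟨P, hP0, hPd, hP⟩ := ls_core T'' T' T R h1 h2 h3 M W hMW M' W' (θ'.val none)
  refine ⟨MvPolynomial.rename (ren g R0) P, ?_, ?_, ?_⟩
  · intro h0
    exact hP0 (MvPolynomial.rename_injective _ (ren_inj g R0) (by rw [h0, map_zero]))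
  · exact (MvPolynomial.totalDegree_rename_le _ _).trans (hPd.trans (pow_mono_aux hT).2)
  intro θ hθ t w hfin x hx
  rw [MvPolynomial.eval_rename] at hθ
  have hfin2 : {y | y ∈ Sol C b' N' θ' b N θ t w ∧
      trunc (C ^ h * R0) y = trunc (C ^ h * R0) x}.Finite := hfin.subset (fun y hy => hy.1)
  refine ⟨hfin2.image _, ?_⟩
  obtain ⟨Λ, hΛ⟩ := hb θ
  -- the cells
  let G : (ℕ → ZMod p) → (ℕ → Om p) := fun y u => if u < R0 + T' then cell p C y h u else 0
  have hmem : ∀ y ∈ hfin2.toFinset, y ∈ Sol C b' N' θ' b N θ t w ∧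
      trunc (C ^ h * R0) y = trunc (C ^ h * R0) x := fun y hy => hfin2.mem_toFinset.mp hy
  have hpre : ∀ y ∈ hfin2.toFinset, ∀ u < R0, cell p C y h u = cell p C x h u := by
    intro y hy u hu
    apply cell_congr hC0
    intro v _ hv
    have h5 := congrFun (hmem y hy).2 v
    have h6 : v < C ^ h * R0 := by
      calc v < (u + 1) * C ^ h := hv
        _ ≤ R0 * C ^ h := Nat.mul_le_mul_right _ hu
        _ = C ^ h * R0 := mul_comm _ _
    simpa [trunc, h6] using h5
  have hcard : (hfin2.toFinset.image (trunc q')).card ≤ (hfin2.toFinset.image G).card := by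
    apply image_card_le
    intro y hy y' hy' he
    funext v
    unfold trunc
    split_ifs with hv
    · have h5 : v / C ^ h < R0 + T' := by
        apply Nat.div_lt_of_lt_mul
        exact hv.trans_le hq'
      have h6 : cell p C y h (v / C ^ h) = cell p C y' h (v / C ^ h) := by
        have := congrFun he (v / C ^ h)
        simpa [G, h5] using this
      exact cell_inj hC0 h6 v (Nat.div_mul_le_self _ _) (by
        rw [mul_comm]; exact Nat.lt_mul_div_succ v (by positivity))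
    · rfl
  have e1 : (trunc q' '' {y | y ∈ Sol C b' N' θ' b N θ t w ∧
      trunc (C ^ h * R0) y = trunc (C ^ h * R0) x}).ncard =
      (hfin2.toFinset.image (trunc q')).card := by
    rw [← Set.ncard_coe_finset, coe_image, hfin2.coe_toFinset]
  rw [e1]
  refine hcard.trans (le_trans ?_ (pow_mono_aux hT).1)
  -- application of `ls_core`
  have hG : ∀ y, ∀ u < R0 + T', G y u = cell p C y h u := by
    intro y u hu
    simp [G, hu]
  have hG0 : ∀ y, ∀ k, T' ≤ k → G y (R0 + k) = 0 := by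
    intro y k hk
    simp only [G]
    rw [if_neg (by omega)]
  -- for `u < R0 + T` the truncated cells are the cells
  have hG1 : ∀ y z, IsCode C b' N' θ' y z → ∀ u < R0 + T, G y u = cell p C y h u := by
    intro y z hyz u hu
    rcases lt_or_ge u (R0 + T') with h5 | h5
    · exact hG y u h5
    · obtain ⟨k, rfl⟩ := Nat.exists_eq_add_of_le (le_trans (Nat.le_add_right R0 T') h5)
      rw [hG0 y k (by omega), (hc y z hyz k (by omega) (by omega)).1]
  have hsub : ∀ y z, IsCode C b' N' θ' y z → IsCode C b N θ (t - y) (w - z) → ∀ j < T,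
      cell p C w h (R0 + j) = cell p C z h (R0 + j) +
        (θ.val none * Qf T M W (fun k => cell p C t h (R0 + k) - G y (R0 + k)) j +
        ∑ u ∈ range (R0 + T), Λ j u * (cell p C t h u - G y u)) := by
    intro y z hyz hyz2 j hj
    have h5 := hΛ _ _ hyz2 j hj
    rw [cell_sub] at h5
    have h6 : Qf T M W (fun k => cell p C (t - y) h (R0 + k)) j =
        Qf T M W (fun k => cell p C t h (R0 + k) - G y (R0 + k)) j := by
      apply Qf_congr
      intro k hk
      rw [cell_sub, hG1 y z hyz _ (by omega)]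
    have h7 : ∑ u ∈ range (R0 + T), Λ j u * cell p C (t - y) h u =
        ∑ u ∈ range (R0 + T), Λ j u * (cell p C t h u - G y u) := by
      apply sum_congr rfl
      intro u hu
      rw [cell_sub, hG1 y z hyz _ (mem_range.mp hu)]
    rw [h6, h7] at h5
    linear_combination h5
  refine hP (θ.val ∘ ren g R0) hθ R0 Λ' Λ (fun u => cell p C t h u)
    (fun j => cell p C w h (R0 + j)) (fun u => cell p C x h u)
    (fun r => ∑ k ∈ range T', θ.val (some (g, r, R0 + k)) * cell p C x h (R0 + k))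
    (hfin2.toFinset.image G) ?_ ?_ ?_ ?_ ?_
  · intro z1 hz1 u hu
    obtain ⟨y, hy, rfl⟩ := mem_image.mp hz1
    rw [hG y u (by omega)]
    exact hpre y hy u hu
  · intro z1 hz1 k hk
    obtain ⟨y, hy, rfl⟩ := mem_image.mp hz1
    exact hG0 y k hk
  · intro z1 hz1 j hj
    obtain ⟨y, hy, rfl⟩ := mem_image.mp hz1
    obtain ⟨z, hyz, hyz2⟩ := (hmem y hy).1
    have h5 := hsub y z hyz hyz2 j (by omega)
    have h6 := ha y z hyz j hj
    have h7 : Qf T'' M' W' (fun k => cell p C y h (R0 + k)) j =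
        Qf T'' M' W' (fun k => G y (R0 + k)) j := by
      apply Qf_congr
      intro k hk
      rw [hG y _ (by omega)]
    have h8 : ∑ u ∈ range (R0 + T''), Λ' j u * cell p C y h u =
        ∑ u ∈ range (R0 + T''), Λ' j u * G y u := by
      apply sum_congr rfl
      intro u hu
      rw [hG y u (by have := mem_range.mp hu; omega)]
    rw [h7, h8] at h6
    rw [h6] at h5
    exact h5.symm
  · intro z1 hz1 j hj hjT
    obtain ⟨y, hy, rfl⟩ := mem_image.mp hz1
    obtain ⟨z, hyz, hyz2⟩ := (hmem y hy).1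
    have h5 := hsub y z hyz hyz2 j hjT
    rw [(hc y z hyz j hj hjT).2, zero_add] at h5
    exact h5.symm
  · intro z1 hz1 r hr
    obtain ⟨y, hy, rfl⟩ := mem_image.mp hz1
    have h5 := hd θ t w x hx y (hmem y hy).1 (hmem y hy).2 r hr
    rw [← h5]
    apply sum_congr rfl
    intro k hk
    rw [hG y _ (by have := mem_range.mp hk; omega)]
    rfl

theorem finite_supp (N : ℕ) : {x : ℕ → ZMod p | ∀ u, N ≤ u → x u = 0}.Finite := by
  have hinj : Set.InjOn (fun (x : ℕ → ZMod p) (u : Fin N) => x u)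
      {x : ℕ → ZMod p | ∀ u, N ≤ u → x u = 0} := by
    intro x hx y hy h
    funext u
    rcases lt_or_ge u N with hu | hu
    · exact congrFun h ⟨u, hu⟩
    · rw [hx u hu, hy u hu]
  exact Set.Finite.of_finite_image (Set.toFinite _) hinj

theorem sol_finite_aux {C b' N' b N : ℕ} {θ' θ : Par p} {t w : ℕ → ZMod p} :
    (Sol C b' N' θ' b N θ t w).Finite := by
  apply (finite_supp (p := p) N').subset
  rintro x ⟨z, hz, _⟩
  exact hz.xs

/-- cells beyond the support vanish -/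
theorem cell_zero {C : ℕ} (hC : 0 < C) {x : ℕ → ZMod p} {N h u : ℕ} (hx : ∀ v, N ≤ v → x v = 0)
    (hu : N ≤ C ^ h * u) : cell p C x h u = 0 := by
  have h1 : cell p C x h u = cell p C (fun _ => 0) h u := by
    apply cell_congr hC
    intro v hv _
    exact hx v (hu.trans (by rw [mul_comm]; exact hv))
  rw [h1]
  have h2 := cell_sub C x x h u
  rw [sub_self, sub_self] at h2
  exact h2

theorem two_pow_mm_le {C : ℕ} (hC : 0 < C) {b N i : ℕ} (h : b ≤ i) :
    C ^ i * mm C (2 * N + C ^ b) i ≤ N := by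
  have h1 := mm_le hC (2 * N + C ^ b) i
  have h2 : C ^ b ≤ C ^ i := Nat.pow_le_pow_right hC h
  have h3 : 2 * C ^ i * mm C (2 * N + C ^ b) i = 2 * (C ^ i * mm C (2 * N + C ^ b) i) := by ring
  omega

/-- size of a region -/
theorem region_size {C : ℕ} (hC : 8 ≤ C) {κ h h' s : ℕ} (hh : h ≤ h') (hs : h' ≤ s + 1)
    (hs3 : s ≤ h + 3) :
    C ^ (h' - h) * mm C κ h' - C ^ (s + 1 - h) * mm C κ (s + 1) ≤ 2 * C ^ 4 := by
  have hC0 : 0 < C := by omega
  have h1 := mm_le hC0 κ h'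
  have h2 := lt_mm hC0 κ (s + 1)
  have e1 : C ^ h' = C ^ h * C ^ (h' - h) := by rw [← pow_add]; congr 1; omega
  have e2 : C ^ (s + 1) = C ^ h * C ^ (s + 1 - h) := by rw [← pow_add]; congr 1; omega
  have e3 : C ^ (s + 1 - h) ≤ C ^ 4 := Nat.pow_le_pow_right hC0 (by omega)
  have h3 : C ^ h * (2 * (C ^ (h' - h) * mm C κ h')) <
      C ^ h * (2 * (C ^ (s + 1 - h) * mm C κ (s + 1)) + 3 * C ^ (s + 1 - h)) := by
    calc C ^ h * (2 * (C ^ (h' - h) * mm C κ h')) = 2 * C ^ h' * mm C κ h' := by rw [e1]; ring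
      _ ≤ κ - C ^ h' := h1
      _ ≤ κ := Nat.sub_le _ _
      _ < 2 * C ^ (s + 1) * mm C κ (s + 1) + 3 * C ^ (s + 1) := h2
      _ = _ := by rw [e2]; ring
  have h4 := Nat.lt_of_mul_lt_mul_left h3
  omega

theorem region_le {C : ℕ} (hC : 0 < C) (κ h i : ℕ) (d : ℕ) (hi : h ≤ i) :
    C ^ (i + d - h) * mm C κ (i + d) ≤ C ^ (i - h) * mm C κ i := by
  induction d with
  | zero => exact le_rfl
  | succ d ih =>
    refine le_trans ?_ ih
    have h1 := mul_mm_le hC κ (i + d)
    have e1 : C ^ (i + (d + 1) - h) = C ^ (i + d - h) * C := by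
      rw [← pow_succ]; congr 1; omega
    rw [e1, mul_assoc]
    exact Nat.mul_le_mul_left _ h1

/-- `region_struct` for code words -/
theorem region_code {C : ℕ} (hC : 8 ≤ C) {b N h h' s R0 E : ℕ} (hh : h ≤ h') (hs : h' ≤ s + 1)
    (hb : b ≤ h') (hR0 : R0 = C ^ (s + 1 - h) * mm C (2 * N + C ^ b) (s + 1))
    (hE : E = C ^ (h' - h) * mm C (2 * N + C ^ b) h') :
    R0 ≤ E ∧ ∃ M W : ℕ → ℕ → Om p, IsInv (E - R0) M W ∧ ∀ θ : Par p, ∃ Λ : ℕ → ℕ → Om p,
      ∀ y z : ℕ → ZMod p, IsCode C b N θ y z → ∀ j < E - R0,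
        cell p C z h (R0 + j) = θ.val none * Qf (E - R0) M W (fun k => cell p C y h (R0 + k)) j +
          ∑ u ∈ range (R0 + (E - R0)), Λ j u * cell p C y h u := by
  have hRE : R0 ≤ E := by
    obtain ⟨d, hd⟩ := Nat.exists_eq_add_of_le hs
    have := region_le (by omega : 0 < C) (2 * N + C ^ b) h h' d hh
    rw [← hd] at this
    rw [hR0, hE]
    exact this
  refine ⟨hRE, ?_⟩
  obtain ⟨M, W, hMW, H⟩ := region_struct (p := p) (by omega : 2 ≤ C) (2 * N + C ^ b) h h' s hh hs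
  rw [← hR0, ← hE] at hMW H
  refine ⟨M, W, hMW, ?_⟩
  intro θ
  obtain ⟨Λ, hΛ⟩ := H θ
  refine ⟨Λ, ?_⟩
  intro y z hyz j hj
  have := hΛ y z (fun i hi _ => hyz.rel i (hb.trans hi)) j hj
  rw [this, Nat.add_sub_cancel' hRE]

end K

open Finset K

variable {p : ℕ} [Fact p.Prime]

theorem step_merge {C : ℕ} (hC : 8 ≤ C) {b' N' b N j : ℕ} (θ' : Par p)
    (hb' : b' ≤ j) (hb : b ≤ j)
    (h1 : mm C (2 * N' + C ^ b') (j + 2) = mm C (2 * N + C ^ b) (j + 2))
    (h2 : mm C (2 * N' + C ^ b') j = mm C (2 * N + C ^ b) j) :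
    ∃ P : MvPolynomial (Option (ℕ × ℕ × ℕ)) (Om p), P ≠ 0 ∧ P.totalDegree ≤ Del C ∧
      ∀ θ : Par p, MvPolynomial.eval θ.val P ≠ 0 → ∀ t w : ℕ → ZMod p,
        FB (Sol C b' N' θ' b N θ t w) (C ^ (j + 2) * mm C (2 * N + C ^ b) (j + 2))
          (C ^ j * mm C (2 * N + C ^ b) j) (N0 C) := by
  obtain ⟨R0, hR0⟩ : ∃ R0, R0 = C ^ (j + 1 + 1 - j) * mm C (2 * N + C ^ b) (j + 1 + 1) := ⟨_, rfl⟩
  obtain ⟨E, hE⟩ : ∃ E, E = C ^ (j - j) * mm C (2 * N + C ^ b) j := ⟨_, rfl⟩
  obtain ⟨hRE, M, W, hMW, H⟩ := region_code (p := p) hC (le_refl j) (by omega : j ≤ j + 1 + 1)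
    hb hR0 hE
  obtain ⟨_, M', W', _, H'⟩ := region_code (p := p) (b := b') (N := N') (R0 := R0) (E := E) hC
    (le_refl j) (by omega : j ≤ j + 1 + 1) hb' (by rw [hR0, h1]) (by rw [hE, h2])
  obtain ⟨Λ', hΛ'⟩ := H' θ'
  have hsz : E - R0 ≤ 2 * C ^ 4 := by
    rw [hE, hR0]
    exact region_size hC (le_refl j) (by omega) (by omega)
  have e1 : C ^ (j + 2) * mm C (2 * N + C ^ b) (j + 2) = C ^ j * R0 := by
    rw [hR0, ← mul_assoc, ← pow_add]
    congr 2
    omega
  have e2 : C ^ j * mm C (2 * N + C ^ b) j = C ^ j * (R0 + (E - R0)) := by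
    rw [Nat.add_sub_cancel' hRE, hE, Nat.sub_self, pow_zero, one_mul]
  obtain ⟨P, hP0, hPd, hP⟩ := ls_step hC (b' := b') (N' := N') (b := b) (N := N) θ' j j R0 (E - R0)
    (E - R0) (E - R0) 0 (C ^ j * mm C (2 * N + C ^ b) j) le_rfl le_rfl (by omega) hsz (by rw [e2])
    M W M' W' Λ' hMW hΛ' H (fun y z _ k hk hk' => by omega) (fun θ t w x _ y _ _ r hr => by omega)
  refine ⟨P, hP0, hPd, ?_⟩
  intro θ hθ t w
  rw [e1]
  exact hP θ hθ t w sol_finite_aux

theorem step_bottom {C : ℕ} (hC : 8 ≤ C) {b' N' b N s : ℕ} (θ' : Par p)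
    (hbb : b' ≤ b) (hs : b ≤ s) (hs3 : s ≤ b' + 3) (hN : C ^ b ∣ N) (hN' : C ^ b' ∣ N')
    (hNN : N' ≤ N)
    (h1 : mm C (2 * N' + C ^ b') (s + 1) = mm C (2 * N + C ^ b) (s + 1)) :
    ∃ P : MvPolynomial (Option (ℕ × ℕ × ℕ)) (Om p), P ≠ 0 ∧ P.totalDegree ≤ Del C ∧
      ∀ θ : Par p, MvPolynomial.eval θ.val P ≠ 0 → ∀ t w : ℕ → ZMod p,
        FB (Sol C b' N' θ' b N θ t w) (C ^ (s + 1) * mm C (2 * N + C ^ b) (s + 1))
          N' (N0 C) := by
  have hC0 : 0 < C := by omega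
  have hCb : 0 < C ^ b' := by positivity
  obtain ⟨R0, hR0⟩ : ∃ R0, R0 = C ^ (s + 1 - b') * mm C (2 * N + C ^ b) (s + 1) := ⟨_, rfl⟩
  obtain ⟨E, hE⟩ : ∃ E, E = C ^ (b - b') * mm C (2 * N + C ^ b) b := ⟨_, rfl⟩
  obtain ⟨E', hE'⟩ : ∃ E', E' = C ^ (b' - b') * mm C (2 * N' + C ^ b') b' := ⟨_, rfl⟩
  obtain ⟨hRE, M, W, hMW, H⟩ := region_code (p := p) hC hbb (by omega : b ≤ s + 1)
    (le_refl b) hR0 hE
  obtain ⟨hRE', M', W', _, H'⟩ := region_code (p := p) (b := b') (N := N') (R0 := R0) (E := E') hC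
    (le_refl b') (by omega : b' ≤ s + 1) (le_refl b') (by rw [hR0, h1]) hE'
  obtain ⟨Λ', hΛ'⟩ := H' θ'
  have hsz : E - R0 ≤ 2 * C ^ 4 := by
    rw [hE, hR0]
    exact region_size hC hbb (by omega) hs3
  have e1 : C ^ (s + 1) * mm C (2 * N + C ^ b) (s + 1) = C ^ b' * R0 := by
    rw [hR0, ← mul_assoc, ← pow_add]
    congr 2
    omega
  have e2 : C ^ b' * E' = N' := by
    rw [hE', Nat.sub_self, pow_zero, one_mul, mul_comm]
    exact mm_base hC0 hN'
  have e3 : C ^ b' * E = N := by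
    rw [hE, ← mul_assoc, ← pow_add, Nat.add_sub_cancel' hbb, mul_comm]
    exact mm_base hC0 hN
  have hEE : E' ≤ E := by
    apply Nat.le_of_mul_le_mul_left _ hCb
    rw [e2, e3]
    exact hNN
  obtain ⟨P, hP0, hPd, hP⟩ := ls_step hC (b' := b') (N' := N') (b := b) (N := N) θ' b' b' R0
    (E' - R0) (E' - R0) (E - R0) 0 N' le_rfl (by omega) (by omega) hsz
    (by rw [Nat.add_sub_cancel' hRE', e2])
    M W M' W' Λ' hMW hΛ' H (fun y z hyz k hk hk' => by
      have h5 : N' ≤ C ^ b' * (R0 + k) := by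
        rw [← e2]
        exact Nat.mul_le_mul_left _ (by omega)
      exact ⟨cell_zero hC0 hyz.xs h5, cell_zero hC0 hyz.zs h5⟩)
    (fun θ t w x _ y _ _ r hr => by omega)
  refine ⟨P, hP0, hPd, ?_⟩
  intro θ hθ t w
  rw [e1]
  exact hP θ hθ t w sol_finite_aux

theorem K.tw_mem {C : ℕ} (hC : 0 < C) (κ : ℕ) (θ : Par p) (x : ℕ → ZMod p) (i s : ℕ) :
    tw C κ θ x i s ∈ KK p (C ^ i) := by
  unfold tw
  split_ifs
  · exact Subfield.sum_mem _ (fun u _ => Subfield.mul_mem _ (algebraMap_mem_KK _ _)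
      (cell_mem hC x i u))
  · exact Subfield.zero_mem _

theorem step_far {C : ℕ} (hC : 8 ≤ C) {b' N' b N g s : ℕ} (θ' : Par p)
    (hN' : 0 < N') (hb' : b' ≤ g) (hb : b ≤ g) (hs : g + 1 ≤ s) (hs3 : s ≤ g + 3)
    (h1 : mm C (2 * N' + C ^ b') (s + 1) = mm C (2 * N + C ^ b) (s + 1))
    (hD : 2 * N' + C ^ b' + 3 * C ^ (g + 1) ≤ 2 * N + C ^ b) :
    ∃ P : MvPolynomial (Option (ℕ × ℕ × ℕ)) (Om p), P ≠ 0 ∧ P.totalDegree ≤ Del C ∧
      ∀ θ : Par p, MvPolynomial.eval θ.val P ≠ 0 → ∀ t w : ℕ → ZMod p,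
        FB (Sol C b' N' θ' b N θ t w) (C ^ (s + 1) * mm C (2 * N + C ^ b) (s + 1))
          N' (N0 C) := by
  have hC0 : 0 < C := by omega
  have hCg : 0 < C ^ g := by positivity
  obtain ⟨R0, hR0⟩ : ∃ R0, R0 = C ^ (s + 1 - g) * mm C (2 * N + C ^ b) (s + 1) := ⟨_, rfl⟩
  obtain ⟨E, hE⟩ : ∃ E, E = C ^ (g + 1 - g) * mm C (2 * N + C ^ b) (g + 1) := ⟨_, rfl⟩
  obtain ⟨E', hE'⟩ : ∃ E', E' = C ^ (g - g) * mm C (2 * N' + C ^ b') g := ⟨_, rfl⟩
  obtain ⟨hRE, M, W, hMW, H⟩ := region_code (p := p) hC (by omega : g ≤ g + 1)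
    (by omega : g + 1 ≤ s + 1) (by omega : b ≤ g + 1) hR0 hE
  obtain ⟨hRE', M', W', _, H'⟩ := region_code (p := p) (b := b') (N := N') (R0 := R0) (E := E') hC
    (le_refl g) (by omega : g ≤ s + 1) hb' (by rw [hR0, h1]) hE'
  obtain ⟨Λ', hΛ'⟩ := H' θ'
  have hsz : E - R0 ≤ 2 * C ^ 4 := by
    rw [hE, hR0]
    exact region_size hC (by omega) (by omega) hs3
  have e1 : C ^ (s + 1) * mm C (2 * N + C ^ b) (s + 1) = C ^ g * R0 := by
    rw [hR0, ← mul_assoc, ← pow_add]
    congr 2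
    omega
  have e2 : E' = mm C (2 * N' + C ^ b') g := by rw [hE', Nat.sub_self, pow_zero, one_mul]
  have e3 : E = C * mm C (2 * N + C ^ b) (g + 1) := by
    rw [hE, Nat.add_sub_cancel_left, pow_one]
  -- `a` ends below the block `g` of `b`
  have f1 : N' ≤ C ^ g * E := by
    have h5 := lt_mm hC0 (2 * N + C ^ b) (g + 1)
    have e4 : 2 * C ^ (g + 1) * mm C (2 * N + C ^ b) (g + 1) = 2 * (C ^ g * E) := by
      rw [e3, pow_succ]; ring
    omega
  have f2 : C ^ g * E' ≤ N' := by rw [e2]; exact two_pow_mm_le hC0 hb'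
  have f3 : N' ≤ C ^ g * (E' + 2) := by
    have h5 := lt_mm hC0 (2 * N' + C ^ b') g
    have e4 : 2 * C ^ g * mm C (2 * N' + C ^ b') g = 2 * (C ^ g * E') := by
      rw [e2]; ring
    have e5 : C ^ g * (E' + 2) = C ^ g * E' + 2 * C ^ g := by ring
    omega
  have hEE : E' ≤ E := Nat.le_of_mul_le_mul_left (f2.trans f1) hCg
  have hmm1 : 1 ≤ mm C (2 * N + C ^ b) (g + 1) := by
    rcases Nat.eq_zero_or_pos (mm C (2 * N + C ^ b) (g + 1)) with h0 | h0
    · rw [e3, h0, mul_zero, mul_zero] at f1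
      omega
    · exact h0
  have hcc := two_le_cc hC hmm1
  have hq' : N' ≤ C ^ g * (R0 + min (E' - R0 + 2) (E - R0)) := by
    rcases le_total (E' - R0 + 2) (E - R0) with h5 | h5
    · rw [min_eq_left h5]
      refine f3.trans (Nat.mul_le_mul_left _ (by omega))
    · rw [min_eq_right h5]
      refine f1.trans (Nat.mul_le_mul_left _ (by omega))
  obtain ⟨P, hP0, hPd, hP⟩ := ls_step hC (b' := b') (N' := N') (b := b) (N := N) θ' g g R0
    (E' - R0) (min (E' - R0 + 2) (E - R0)) (E - R0) 2 N' (by omega) (min_le_right _ _)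
    (min_le_left _ _) hsz hq' M W M' W' Λ' hMW hΛ' H (fun y z hyz k hk hk' => by
      have h5 : N' ≤ C ^ g * (R0 + k) :=
        hq'.trans (Nat.mul_le_mul_left _ (by omega))
      exact ⟨cell_zero hC0 hyz.xs h5, cell_zero hC0 hyz.zs h5⟩)
    (by
      intro θ t w x hx y hy hxy r hr
      obtain ⟨zx, hx1, hx2⟩ := hx
      obtain ⟨zy, hy1, hy2⟩ := hy
      have rx := hx2.rel g hb
      have ry := hy2.rel g hb
      -- visible cells
      have hvis : ∀ v z' : ℕ → ZMod p, (∀ u, N' ≤ u → z' u = 0) → ∀ k,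
          cell p C (v - z') g (C * mm C (2 * N + C ^ b) (g + 1) + k) =
            cell p C v g (C * mm C (2 * N + C ^ b) (g + 1) + k) := by
        intro v z' hz' k
        rw [cell_sub, cell_zero hC0 hz', sub_zero]
        rw [← e3]
        exact f1.trans (Nat.mul_le_mul_left _ (by omega))
      unfold BlockRel at rx ry
      have htw : ∑ k ∈ range (cc C (2 * N + C ^ b) g),
          (tw C (2 * N + C ^ b) θ (t - x) g k - tw C (2 * N + C ^ b) θ (t - y) g k) *
            eb p (C ^ g) (cc C (2 * N + C ^ b) g) k = 0 := by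
        have q1 : ∀ v z' : ℕ → ZMod p, (∀ u, N' ≤ u → v u = 0) → (∀ u, N' ≤ u → z' u = 0) →
            ∑ k ∈ range (cc C (2 * N + C ^ b) g),
              (cell p C (w - z') g (C * mm C (2 * N + C ^ b) (g + 1) + k) -
                tw C (2 * N + C ^ b) θ (t - v) g k) * eb p (C ^ g) (cc C (2 * N + C ^ b) g) k =
            θ.val none * (∑ k ∈ range (cc C (2 * N + C ^ b) g),
              cell p C (t - v) g (C * mm C (2 * N + C ^ b) (g + 1) + k) *
                eb p (C ^ g) (cc C (2 * N + C ^ b) g) k) ^ 2 →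
            ∑ k ∈ range (cc C (2 * N + C ^ b) g),
              tw C (2 * N + C ^ b) θ (t - v) g k * eb p (C ^ g) (cc C (2 * N + C ^ b) g) k =
            ∑ k ∈ range (cc C (2 * N + C ^ b) g),
              cell p C w g (C * mm C (2 * N + C ^ b) (g + 1) + k) *
                eb p (C ^ g) (cc C (2 * N + C ^ b) g) k -
            θ.val none * (∑ k ∈ range (cc C (2 * N + C ^ b) g),
              cell p C t g (C * mm C (2 * N + C ^ b) (g + 1) + k) *
                eb p (C ^ g) (cc C (2 * N + C ^ b) g) k) ^ 2 := by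
          intro v z' hv hz' hrel
          have s1 : ∑ k ∈ range (cc C (2 * N + C ^ b) g),
              (cell p C (w - z') g (C * mm C (2 * N + C ^ b) (g + 1) + k) -
                tw C (2 * N + C ^ b) θ (t - v) g k) * eb p (C ^ g) (cc C (2 * N + C ^ b) g) k =
              ∑ k ∈ range (cc C (2 * N + C ^ b) g),
              cell p C w g (C * mm C (2 * N + C ^ b) (g + 1) + k) *
                eb p (C ^ g) (cc C (2 * N + C ^ b) g) k -
              ∑ k ∈ range (cc C (2 * N + C ^ b) g),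
              tw C (2 * N + C ^ b) θ (t - v) g k * eb p (C ^ g) (cc C (2 * N + C ^ b) g) k := by
            rw [← sum_sub_distrib]
            exact sum_congr rfl (fun k _ => by rw [hvis w z' hz' k, sub_mul])
          have s2 : ∑ k ∈ range (cc C (2 * N + C ^ b) g),
              cell p C (t - v) g (C * mm C (2 * N + C ^ b) (g + 1) + k) *
                eb p (C ^ g) (cc C (2 * N + C ^ b) g) k =
              ∑ k ∈ range (cc C (2 * N + C ^ b) g),
              cell p C t g (C * mm C (2 * N + C ^ b) (g + 1) + k) *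
                eb p (C ^ g) (cc C (2 * N + C ^ b) g) k :=
            sum_congr rfl (fun k _ => by rw [hvis t v hv k])
          rw [s1, s2] at hrel
          linear_combination -hrel
        have q2 := q1 x zx hx1.xs hx1.zs rx
        have q3 := q1 y zy hy1.xs hy1.zs ry
        rw [sum_congr rfl (fun k _ => sub_mul _ _ _), sum_sub_distrib, q2, q3, sub_self]
      have hind := (eb_spec (p := p) (m := C ^ g) (c := cc C (2 * N + C ^ b) g) hCg
        (by omega)).indep _ (fun k => Subfield.sub_mem _ (K.tw_mem hC0 _ θ (t - x) g k)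
          (K.tw_mem hC0 _ θ (t - y) g k)) htw r (by omega)
      unfold tw at hind
      rw [if_pos hr, if_pos hr, ← e3, ← sum_sub_distrib] at hind
      have h6 : ∑ u ∈ range E, θ.val (some (g, r, u)) * (cell p C y g u - cell p C x g u) = 0 := by
        rw [← hind]
        apply sum_congr rfl
        intro u _
        rw [cell_sub, cell_sub]
        ring
      have hE2 : E = R0 + (E - R0) := by omega
      rw [hE2, range_add_sum] at h6
      have h7 : ∑ u ∈ range R0, θ.val (some (g, r, u)) * (cell p C y g u - cell p C x g u) = 0 := by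
        apply sum_eq_zero
        intro u hu
        have : cell p C y g u = cell p C x g u := by
          apply cell_congr hC0
          intro v _ hv
          have h8 := congrFun hxy v
          have h9 : v < C ^ g * R0 := by
            calc v < (u + 1) * C ^ g := hv
              _ ≤ R0 * C ^ g := Nat.mul_le_mul_right _ (mem_range.mp hu)
              _ = C ^ g * R0 := mul_comm _ _
          simpa [trunc, h9] using h8
        rw [this, sub_self, mul_zero]
      have h8 : ∑ k ∈ range (E - R0), θ.val (some (g, r, R0 + k)) *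
          (cell p C y g (R0 + k) - cell p C x g (R0 + k)) =
          ∑ k ∈ range (min (E' - R0 + 2) (E - R0)), θ.val (some (g, r, R0 + k)) *
          (cell p C y g (R0 + k) - cell p C x g (R0 + k)) := by
        refine (sum_subset (range_subset_range.mpr (min_le_right _ _)) ?_).symm
        intro k _ hk
        have h9 : N' ≤ C ^ g * (R0 + k) := hq'.trans (Nat.mul_le_mul_left _ (by
          have : min (E' - R0 + 2) (E - R0) ≤ k := not_lt.mp (fun h => hk (mem_range.mpr h))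
          omega))
        rw [cell_zero hC0 hy1.xs h9, cell_zero hC0 hx1.xs h9, sub_self, mul_zero]
      rw [h7, zero_add, h8] at h6
      rw [← sub_eq_zero, ← sum_sub_distrib, ← h6]
      exact sum_congr rfl (fun k _ => by ring))
  refine ⟨P, hP0, hPd, ?_⟩
  intro θ hθ t w
  rw [e1]
  exact hP θ hθ t w sol_finite_aux

end Pool.Agent.Helper48.ET
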