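import Pool.Agent.Helper48.ET.Defs

/-! Piece I: integers, labels, bound for the number of representations (MP_12a1af_nt). -/

set_option autoImplicit false

namespace Pool.Agent.Helper48.ET

open Finset

/-- digits in base `Q` are unique -/
theorem digits_unique {Q : ℕ} (K : ℕ) : ∀ D E : ℕ → ℕ, (∀ u < K, D u < Q) → (∀ u < K, E u < Q) →
    ∑ u ∈ range K, D u * Q ^ u = ∑ u ∈ range K, E u * Q ^ u → ∀ u < K, D u = E u := by
  induction K with
  | zero => intro D E _ _ _ u hu; omega
  | succ K ih =>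
    intro D E hD hE h
    rw [sum_range_succ', sum_range_succ'] at h
    simp only [pow_zero, mul_one] at h
    have hQ : 0 < Q := lt_of_le_of_lt (Nat.zero_le _) (hD 0 (Nat.succ_pos _))
    have e1 : ∀ F : ℕ → ℕ, ∑ u ∈ range K, F (u + 1) * Q ^ (u + 1) =
        Q * ∑ u ∈ range K, F (u + 1) * Q ^ u := by
      intro F
      rw [mul_sum]
      refine sum_congr rfl fun u _ => ?_
      rw [pow_succ]; ring
    rw [e1 D, e1 E] at h
    have h0 : D 0 = E 0 := by
      have := congrArg (· % Q) h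
      simp only [Nat.mul_add_mod] at this
      rwa [Nat.mod_eq_of_lt (hD 0 (Nat.succ_pos _)), Nat.mod_eq_of_lt (hE 0 (Nat.succ_pos _))]
        at this
    have h1 : ∑ u ∈ range K, D (u + 1) * Q ^ u = ∑ u ∈ range K, E (u + 1) * Q ^ u := by
      rw [h0] at h
      exact Nat.eq_of_mul_eq_mul_left hQ (Nat.add_right_cancel h)
    have h2 := ih (fun u => D (u + 1)) (fun u => E (u + 1)) (fun u hu => hD _ (by omega))
      (fun u hu => hE _ (by omega)) h1
    intro u hu
    rcases u with _ | u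
    · exact h0
    · exact h2 u (by omega)

section

variable {p : ℕ} [Fact p.Prime]

theorem enc_extend {N K : ℕ} (hK : N ≤ K) {x z : ℕ → ZMod p} (hx : ∀ u, N ≤ u → x u = 0)
    (hz : ∀ u, N ≤ u → z u = 0) : enc N x z = enc K x z := by
  unfold enc
  refine sum_subset (range_subset_range.mpr hK) ?_
  intro u _ hu
  have hu' : N ≤ u := by simpa using hu
  rw [hx u hu', hz u hu']
  simp

/-- no carries -/
theorem enc_add {N N' M M' : ℕ} {x z x' z' y v y' v' : ℕ → ZMod p}
    (hx : ∀ u, N ≤ u → x u = 0) (hz : ∀ u, N ≤ u → z u = 0)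
    (hx' : ∀ u, N' ≤ u → x' u = 0) (hz' : ∀ u, N' ≤ u → z' u = 0)
    (hy : ∀ u, M ≤ u → y u = 0) (hv : ∀ u, M ≤ u → v u = 0)
    (hy' : ∀ u, M' ≤ u → y' u = 0) (hv' : ∀ u, M' ≤ u → v' u = 0)
    (h : enc N x z + enc N' x' z' = enc M y v + enc M' y' v') :
    ∀ u, (x u).val + (x' u).val = (y u).val + (y' u).val ∧
      (z u).val + (z' u).val = (v u).val + (v' u).val := by
  obtain ⟨K, hK⟩ : ∃ K, K = N + N' + M + M' := ⟨_, rfl⟩
  rw [enc_extend (show N ≤ K by omega) hx hz, enc_extend (show N' ≤ K by omega) hx' hz',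
    enc_extend (show M ≤ K by omega) hy hv, enc_extend (show M' ≤ K by omega) hy' hv'] at h
  have hp : 0 < p := (Fact.out : p.Prime).pos
  have hv0 : ∀ a : ZMod p, a.val < p := fun a => ZMod.val_lt a
  have e : ∀ a b a' b' : ℕ → ZMod p, enc K a b + enc K a' b' =
      ∑ u ∈ range K, (((a u).val + (a' u).val) + 2 * p * ((b u).val + (b' u).val)) *
        ((2 * p) ^ 2) ^ u := by
    intro a b a' b'
    unfold enc
    rw [← sum_add_distrib]
    refine sum_congr rfl fun u _ => ?_
    rw [← pow_mul]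
    ring
  rw [e, e] at h
  have bd : ∀ a b a' b' : ZMod p, (a.val + a'.val) + 2 * p * (b.val + b'.val) < (2 * p) ^ 2 := by
    intro a b a' b'
    have h1 := hv0 a
    have h2 := hv0 b
    have h3 := hv0 a'
    have h4 := hv0 b'
    have h5 : a.val + a'.val < 2 * p := by omega
    have h6 : b.val + b'.val + 1 ≤ 2 * p := by omega
    calc (a.val + a'.val) + 2 * p * (b.val + b'.val)
        < 2 * p + 2 * p * (b.val + b'.val) := by omega
      _ = 2 * p * (b.val + b'.val + 1) := by ring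
      _ ≤ 2 * p * (2 * p) := Nat.mul_le_mul_left _ h6
      _ = (2 * p) ^ 2 := by ring
  have hd := digits_unique K _ _ (fun u _ => bd (x u) (z u) (x' u) (z' u))
    (fun u _ => bd (y u) (v u) (y' u) (v' u)) h
  intro u
  by_cases hu : u < K
  · have h1 := hd u hu
    have h2 := hv0 (x u)
    have h3 := hv0 (x' u)
    have h4 := hv0 (y u)
    have h5 := hv0 (y' u)
    have h6 : (x u).val + (x' u).val = (y u).val + (y' u).val := by
      have := congrArg (· % (2 * p)) h1
      simp only [Nat.add_mul_mod_self_left] at this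
      rwa [Nat.mod_eq_of_lt (by omega), Nat.mod_eq_of_lt (by omega)] at this
    refine ⟨h6, ?_⟩
    rw [h6] at h1
    exact Nat.eq_of_mul_eq_mul_left (by omega : 0 < 2 * p) (Nat.add_left_cancel h1)
  · push Not at hu
    rw [hx u (by omega), hx' u (by omega), hy u (by omega), hy' u (by omega), hz u (by omega),
      hz' u (by omega), hv u (by omega), hv' u (by omega)]
    exact ⟨rfl, rfl⟩

/-- the words of length `N` used in the set -/
structure Wd (C L : ℕ) (θ : ℕ → Par p) (I N : ℕ) (x z : ℕ → ZMod p) : Prop where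
  len : IsLen C L I N
  code : IsCode C (I + 1 - L) N (θ N) x z
  low : ∀ u < C ^ (I + 1 - L), x u = 0
  mid : ∀ j, I + 1 - L < j → j < I → x (C ^ j - 2) = 0
  lab : x (C ^ I - 2) = ((N / C ^ (I + 1 - L) : ℕ) : ZMod p)
  top : x (N - 1) = 1

theorem mem_AA {C L : ℕ} {θ : ℕ → Par p} {n : ℕ} :
    n ∈ AA C L θ ↔ ∃ I N x z, Wd C L θ I N x z ∧ n = enc N x z := by
  constructor
  · rintro ⟨I, N, hl, x, z, h1, h2, h3, h4, h5, h6⟩
    exact ⟨I, N, x, z, ⟨hl, h1, h2, h3, h4, h5⟩, h6⟩
  · rintro ⟨I, N, x, z, h, h6⟩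
    exact ⟨I, N, h.len, x, z, h.code, h.low, h.mid, h.lab, h.top, h6⟩

theorem IsLen.epoch {C L I J N : ℕ} (hC : 8 ≤ C) (h : IsLen C L I N) (h' : IsLen C L J N) :
    I = J := by
  have h1 := (Nat.pow_lt_pow_iff_right (by omega : 1 < C)).mp (lt_of_le_of_lt h.lo h'.hi)
  have h2 := (Nat.pow_lt_pow_iff_right (by omega : 1 < C)).mp (lt_of_le_of_lt h'.lo h.hi)
  omega

theorem IsLen.epoch_le {C L I J N M : ℕ} (hC : 8 ≤ C) (h : IsLen C L I N) (h' : IsLen C L J M)
    (hNM : N ≤ M) : I ≤ J := by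
  have h1 := (Nat.pow_lt_pow_iff_right (by omega : 1 < C)).mp
    (lt_of_le_of_lt (h.lo.trans hNM) h'.hi)
  omega

theorem IsLen.label_lt {C L I N : ℕ} (h : IsLen C L I N) :
    N / C ^ (I + 1 - L) < C ^ L := by
  have hI := h.hI
  apply Nat.div_lt_of_lt_mul
  rw [← pow_add, show I + 1 - L + L = I + 1 by omega]
  exact h.hi

theorem IsLen.label_pos {C L I N : ℕ} (hC : 8 ≤ C) (hL : 4 ≤ L) (h : IsLen C L I N) :
    0 < N / C ^ (I + 1 - L) := by
  have hI := h.hI
  apply Nat.div_pos _ (pow_pos (by omega) _)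
  exact le_trans (Nat.pow_le_pow_right (by omega) (by omega)) h.lo

theorem IsLen.add_two_le {C L I N j : ℕ} (hC : 8 ≤ C) (hL : 4 ≤ L) (h : IsLen C L I N)
    (hj : I < j) : N ≤ C ^ j - 2 := by
  have hI := h.hI
  obtain ⟨q, hq⟩ := h.dvd
  obtain ⟨r, hr⟩ : C ^ (I + 1 - L) ∣ C ^ (I + 1) := pow_dvd_pow _ (by omega)
  have h1 := h.hi
  have hpos : 0 < C ^ (I + 1 - L) := pow_pos (by omega) _
  have h2 : q < r := by
    rw [hq, hr] at h1
    exact Nat.lt_of_mul_lt_mul_left h1
  have h3 : N + C ^ (I + 1 - L) ≤ C ^ (I + 1) := by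
    rw [hr]
    calc N + C ^ (I + 1 - L) = C ^ (I + 1 - L) * (q + 1) := by rw [mul_add, mul_one, ← hq]
      _ ≤ C ^ (I + 1 - L) * r := Nat.mul_le_mul_left _ h2
  have h4 : C ^ 1 ≤ C ^ (I + 1 - L) := Nat.pow_le_pow_right (by omega) (by omega)
  have h5 : C ^ (I + 1) ≤ C ^ j := Nat.pow_le_pow_right (by omega) hj
  rw [pow_one] at h4
  omega

/-- two representations of `n` have the same lengths and the same digit sums -/
theorem rep_unique {C L : ℕ} (hC : 8 ≤ C) (hL : 4 ≤ L) (hp : C ^ L < p) {θ : ℕ → Par p}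
    {I' N' I N J' M' J M : ℕ} {x' z' x z y' v' y v : ℕ → ZMod p}
    (h1 : Wd C L θ I' N' x' z') (h2 : Wd C L θ I N x z) (h12 : N' ≤ N)
    (h3 : Wd C L θ J' M' y' v') (h4 : Wd C L θ J M y v) (h34 : M' ≤ M)
    (h : enc N' x' z' + enc N x z = enc M' y' v' + enc M y v) :
    J' = I' ∧ M' = N' ∧ J = I ∧ M = N ∧ (∀ u, x' u + x u = y' u + y u) ∧
      (∀ u, z' u + z u = v' u + v u) := by
  have hp1 : 1 < p := (Fact.out : p.Prime).one_lt
  have : Fact (1 < p) := ⟨hp1⟩
  have hadd := enc_add h1.code.xs h1.code.zs h2.code.xs h2.code.zs h3.code.xs h3.code.zs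
    h4.code.xs h4.code.zs h
  have hx : ∀ u, x' u + x u = y' u + y u := by
    intro u
    have := congrArg (Nat.cast : ℕ → ZMod p) (hadd u).1
    simpa using this
  have hz : ∀ u, z' u + z u = v' u + v u := by
    intro u
    have := congrArg (Nat.cast : ℕ → ZMod p) (hadd u).2
    simpa using this
  have hNpos : 0 < N := lt_of_lt_of_le (pow_pos (by omega) _) h2.len.lo
  have hMpos : 0 < M := lt_of_lt_of_le (pow_pos (by omega) _) h4.len.lo
  have hMN : M = N := by
    rcases lt_trichotomy M N with hlt | heq | hgt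
    · exfalso
      have := (hadd (N - 1)).1
      rw [h2.top, h3.code.xs _ (by omega), h4.code.xs _ (by omega), ZMod.val_one, ZMod.val_zero]
        at this
      omega
    · exact heq
    · exfalso
      have := (hadd (M - 1)).1
      rw [h4.top, h1.code.xs _ (by omega), h2.code.xs _ (by omega), ZMod.val_one, ZMod.val_zero]
        at this
      omega
  subst hMN
  have hJI : J = I := IsLen.epoch hC h4.len h2.len
  subst hJI
  have hdig : ∀ j ≤ J, x (C ^ j - 2) = y (C ^ j - 2) := by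
    intro j hj
    rcases lt_or_eq_of_le hj with hj | rfl
    · by_cases hb : J + 1 - L < j
      · rw [h2.mid j hb hj, h4.mid j hb hj]
      · push Not at hb
        have hlt : C ^ j - 2 < C ^ (J + 1 - L) := by
          have e1 : C ^ j ≤ C ^ (J + 1 - L) := Nat.pow_le_pow_right (by omega) hb
          have e2 : 0 < C ^ (J + 1 - L) := pow_pos (by omega) _
          omega
        rw [h2.low _ hlt, h4.low _ hlt]
    · rw [h2.lab, h4.lab]
  have hdig' : ∀ j ≤ J, x' (C ^ j - 2) = y' (C ^ j - 2) := by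
    intro j hj
    have := hx (C ^ j - 2)
    rw [hdig j hj] at this
    exact add_right_cancel this
  have hI'J : I' ≤ J := IsLen.epoch_le hC h1.len h2.len h12
  have hJ'J : J' ≤ J := IsLen.epoch_le hC h3.len h4.len h34
  have key : ∀ {K Q : ℕ} {a b : ℕ → ZMod p}, Wd C L θ K Q a b → a (C ^ K - 2) ≠ 0 := by
    intro K Q a b hw h0
    rw [hw.lab] at h0
    have e1 := congrArg ZMod.val h0
    rw [ZMod.val_natCast_of_lt (lt_trans (IsLen.label_lt hw.len) hp), ZMod.val_zero] at e1
    have := IsLen.label_pos hC hL hw.len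
    omega
  have hIJ : J' = I' := by
    rcases lt_trichotomy J' I' with hlt | heq | hgt
    · exfalso
      apply key h1
      rw [hdig' I' hI'J]
      exact h3.code.xs _ (IsLen.add_two_le hC hL h3.len hlt)
    · exact heq
    · exfalso
      apply key h3
      rw [← hdig' J' hJ'J]
      exact h1.code.xs _ (IsLen.add_two_le hC hL h1.len hgt)
  subst hIJ
  refine ⟨rfl, ?_, rfl, rfl, hx, hz⟩
  have e1 := hdig' J' hJ'J
  rw [h1.lab, h3.lab] at e1
  have e2 := congrArg ZMod.val e1
  rw [ZMod.val_natCast_of_lt (lt_trans (IsLen.label_lt h1.len) hp),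
    ZMod.val_natCast_of_lt (lt_trans (IsLen.label_lt h3.len) hp)] at e2
  rw [← Nat.div_mul_cancel h1.len.dvd, ← Nat.div_mul_cancel h3.len.dvd, e2]

theorem sol_finite' {C b' N' b N : ℕ} {θ' θ : Par p} {t w : ℕ → ZMod p} :
    (Sol C b' N' θ' b N θ t w).Finite := by
  have hfin : (Set.range (fun (f : Fin N' → ZMod p) (u : ℕ) =>
      if h : u < N' then f ⟨u, h⟩ else (0 : ZMod p))).Finite := Set.finite_range _
  refine hfin.subset ?_
  rintro x ⟨z, hz, _⟩
  refine ⟨fun u => x u, ?_⟩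
  funext u
  by_cases hu : u < N'
  · simp [hu]
  · simp only [hu, dite_false]
    exact (hz.xs u (by omega)).symm

open Classical in
/-- bound for the number of representations (uniqueness of the `z`-part as a hypothesis) -/
theorem rep_bound_of {C L : ℕ}
    (hcu : ∀ {b N : ℕ}, C ^ b ∣ N → ∀ (θ : Par p) {x z z' : ℕ → ZMod p}, IsCode C b N θ x z →
      IsCode C b N θ x z' → z = z')
    (hC : 8 ≤ C) (hL : 4 ≤ L) (hp : C ^ L < p) (θ : ℕ → Par p) (B : ℕ)
    (hB : 1 ≤ B)
    (hθ : ∀ I N I' N', IsLen C L I N → IsLen C L I' N' → C ^ (I + 1 - L) < N' →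
      N' ≤ N → ∀ t w : ℕ → ZMod p,
        (Sol C (I' + 1 - L) N' (θ N') (I + 1 - L) N (θ N) t w).ncard ≤ B) (n : ℕ) :
    {q : ℕ × ℕ | q.1 ∈ AA C L θ ∧ q.2 ∈ AA C L θ ∧ q.1 + q.2 = n}.ncard ≤ 2 * B := by
  -- pairs with the shorter summand first
  set P1 : Set (ℕ × ℕ) := {q | ∃ I' N' x' z' I N x z, Wd C L θ I' N' x' z' ∧ Wd C L θ I N x z ∧
    N' ≤ N ∧ q.1 = enc N' x' z' ∧ q.2 = enc N x z ∧ q.1 + q.2 = n} with hP1
  have hsub : {q : ℕ × ℕ | q.1 ∈ AA C L θ ∧ q.2 ∈ AA C L θ ∧ q.1 + q.2 = n} ⊆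
      P1 ∪ Prod.swap '' P1 := by
    rintro ⟨a, b⟩ ⟨ha, hb, hab⟩
    simp only at ha hb hab
    obtain ⟨I1, N1, x1, z1, h1, e1⟩ := mem_AA.mp ha
    obtain ⟨I2, N2, x2, z2, h2, e2⟩ := mem_AA.mp hb
    rcases le_total N1 N2 with hle | hle
    · left
      exact ⟨I1, N1, x1, z1, I2, N2, x2, z2, h1, h2, hle, e1, e2, hab⟩
    · right
      refine ⟨(b, a), ⟨I2, N2, x2, z2, I1, N1, x1, z1, h2, h1, hle, e2, e1, ?_⟩, rfl⟩
      show b + a = n
      omega
  have hP1B : P1.Finite ∧ P1.ncard ≤ B := by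
    rcases P1.eq_empty_or_nonempty with he | ⟨q0, I', N', x0', z0', I, N, x0, z0, h1, h2, h12, e1, e2, e3⟩
    · rw [he]
      simp
    · -- the map
      let zof : (ℕ → ZMod p) → (ℕ → ZMod p) := fun x' =>
        if h : ∃ z, IsCode C (I' + 1 - L) N' (θ N') x' z then Classical.choose h else 0
      let g : (ℕ → ZMod p) → ℕ × ℕ := fun x' => (enc N' x' (zof x'), n - enc N' x' (zof x'))
      have hg : ∀ (x' z' : ℕ → ZMod p) (q : ℕ × ℕ), IsCode C (I' + 1 - L) N' (θ N') x' z' →
          q.1 = enc N' x' z' → q.1 + q.2 = n → g x' = q := by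
        intro x' z' q hc hq1 hq2
        have hex : ∃ z, IsCode C (I' + 1 - L) N' (θ N') x' z := ⟨z', hc⟩
        have hzof : zof x' = z' := by
          simp only [zof, dif_pos hex]
          exact hcu h1.len.dvd (θ N') (Classical.choose_spec hex) hc
        simp only [g, hzof]
        rw [← hq1]
        ext
        · rfl
        · show n - q.1 = q.2
          omega
      obtain ⟨T, hT1, hT2, hT3⟩ : ∃ T : Set (ℕ → ZMod p), T.Finite ∧ T.ncard ≤ B ∧
          P1 ⊆ g '' T := by
        by_cases hcase : C ^ (I + 1 - L) < N'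
        · refine ⟨Sol C (I' + 1 - L) N' (θ N') (I + 1 - L) N (θ N) (x0' + x0) (z0' + z0),
            sol_finite', hθ I N I' N' h2.len h1.len hcase h12 _ _, ?_⟩
          rintro q ⟨J', M', y', v', J, M, y, v, h3, h4, h34, f1, f2, f3⟩
          obtain ⟨r1, r2, r3, r4, hx, hz⟩ := rep_unique hC hL hp h1 h2 h12 h3 h4 h34
            (by rw [← e1, ← e2, ← f1, ← f2, e3, f3])
          subst r1 r2 r3 r4
          refine ⟨y', ⟨v', h3.code, ?_⟩, hg y' v' q h3.code f1 f3⟩
          have ey : x0' + x0 - y' = y := by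
            funext u
            simp only [Pi.add_apply, Pi.sub_apply]
            rw [hx u]; ring
          have ev : z0' + z0 - v' = v := by
            funext u
            simp only [Pi.add_apply, Pi.sub_apply]
            rw [hz u]; ring
          rw [ey, ev]
          exact h4.code
        · push Not at hcase
          refine ⟨{x0'}, Set.finite_singleton _, by rw [Set.ncard_singleton]; exact hB, ?_⟩
          rintro q ⟨J', M', y', v', J, M, y, v, h3, h4, h34, f1, f2, f3⟩
          obtain ⟨r1, r2, r3, r4, hx, hz⟩ := rep_unique hC hL hp h1 h2 h12 h3 h4 h34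
            (by rw [← e1, ← e2, ← f1, ← f2, e3, f3])
          subst r1 r2 r3 r4
          refine ⟨y', ?_, hg y' v' q h3.code f1 f3⟩
          rw [Set.mem_singleton_iff]
          funext u
          by_cases hu : u < M'
          · have := hx u
            rw [h2.low u (by omega), h4.low u (by omega), add_zero, add_zero] at this
            exact this.symm
          · push Not at hu
            rw [h1.code.xs u hu, h3.code.xs u hu]
      exact ⟨(hT1.image g).subset hT3, (Set.ncard_le_ncard hT3 (hT1.image g)).trans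
        ((Set.ncard_image_le hT1).trans hT2)⟩
  calc _ ≤ (P1 ∪ Prod.swap '' P1).ncard :=
        Set.ncard_le_ncard hsub (hP1B.1.union (hP1B.1.image _))
    _ ≤ P1.ncard + (Prod.swap '' P1).ncard := Set.ncard_union_le _ _
    _ ≤ B + B := Nat.add_le_add hP1B.2 ((Set.ncard_image_le hP1B.1).trans hP1B.2)
    _ = 2 * B := by ring

end

end Pool.Agent.Helper48.ET
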