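import Pool.Agent.Helper48.ET.Fields
import Pool.Agent.Helper48.ET.Cells
import Pool.Agent.Helper48.ET.Ticks

/-! Piece J: the shared step (at most two options for a block structured in the same way in both
codes). -/

set_option autoImplicit false

namespace Pool.Agent.Helper48.ET

open Finset

variable {p : ℕ} [Fact p.Prime]

namespace SharedAux

theorem trunc_eq_iff {q : ℕ} {x y : ℕ → ZMod p} :
    trunc q x = trunc q y ↔ ∀ u < q, x u = y u := by
  constructor
  · intro h u hu
    have := congrFun h u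
    simpa [trunc, hu] using this
  · intro h
    funext u
    by_cases hu : u < q
    · simp [trunc, hu, h u hu]
    · simp [trunc, hu]

/-- the value of a block -/
noncomputable def blk (C i m c : ℕ) (x : ℕ → ZMod p) : Om p :=
  ∑ s ∈ range c, cell p C x i (m + s) * eb p (C ^ i) c s

theorem blk_congr {C : ℕ} (hC : 0 < C) {i m c : ℕ} {x y : ℕ → ZMod p}
    (h : ∀ u < C ^ i * (m + c), x u = y u) : blk C i m c x = blk C i m c y := by
  unfold blk
  refine Finset.sum_congr rfl fun s hs => ?_
  rw [Finset.mem_range] at hs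
  rw [cell_congr hC (y := y)]
  intro v _ hv
  apply h v
  refine lt_of_lt_of_le hv ?_
  rw [mul_comm]
  exact Nat.mul_le_mul_left _ (by omega)

theorem blk_inj {C : ℕ} (hC : 0 < C) {i m c : ℕ} {x y : ℕ → ZMod p}
    (h : blk C i m c x = blk C i m c y) :
    ∀ u, C ^ i * m ≤ u → u < C ^ i * (m + c) → x u = y u := by
  intro u hu1 hu2
  have hCi : 0 < C ^ i := pow_pos hC i
  have hc : 0 < c := by
    rcases Nat.eq_zero_or_pos c with h0 | h0
    · subst h0
      simp only [add_zero] at hu2
      omega
    · exact h0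
  have hB := eb_spec (p := p) (m := C ^ i) (c := c) hCi hc
  have h0 : ∑ s ∈ range c, cell p C (x - y) i (m + s) * eb p (C ^ i) c s = 0 := by
    have : ∀ s ∈ range c, cell p C (x - y) i (m + s) * eb p (C ^ i) c s =
        cell p C x i (m + s) * eb p (C ^ i) c s - cell p C y i (m + s) * eb p (C ^ i) c s := by
      intro s _
      rw [cell_sub]; ring
    rw [Finset.sum_congr rfl this, Finset.sum_sub_distrib]
    exact sub_eq_zero.2 h
  have h1 := hB.indep (fun s => cell p C (x - y) i (m + s)) (fun s => cell_mem hC _ _ _) h0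
  -- the cell containing `u`
  have hdm := Nat.div_add_mod u (C ^ i)
  have hmod := Nat.mod_lt u hCi
  have hs1 : m ≤ u / C ^ i := by
    rw [Nat.le_div_iff_mul_le hCi, mul_comm]; exact hu1
  have hs2 : u / C ^ i < m + c := by
    rw [Nat.div_lt_iff_lt_mul hCi, mul_comm]; exact hu2
  have h2 := h1 (u / C ^ i - m) (by omega)
  rw [show m + (u / C ^ i - m) = u / C ^ i by omega, cell_sub, sub_eq_zero] at h2
  refine cell_inj hC h2 u ?_ ?_
  · exact Nat.div_mul_le_self u (C ^ i)
  · rw [add_mul, one_mul, mul_comm]; omega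

theorem tw_congr {C : ℕ} (hC : 0 < C) {κ i s : ℕ} {θ : Par p} {x y : ℕ → ZMod p}
    (h : ∀ u < C ^ (i + 1) * mm C κ (i + 1), x u = y u) :
    tw C κ θ x i s = tw C κ θ y i s := by
  unfold tw
  split_ifs with hs
  · refine Finset.sum_congr rfl fun u hu => ?_
    rw [Finset.mem_range] at hu
    rw [cell_congr hC (y := y)]
    intro v _ hv
    apply h v
    refine lt_of_lt_of_le hv ?_
    calc (u + 1) * C ^ i ≤ (C * mm C κ (i + 1)) * C ^ i := Nat.mul_le_mul_right _ hu
      _ = C ^ (i + 1) * mm C κ (i + 1) := by ring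
  · rfl

end SharedAux

open SharedAux Classical in
theorem step_shared {C : ℕ} (hC : 8 ≤ C) {b' N' b N i : ℕ} {θ' θ : Par p} {t w : ℕ → ZMod p}
    (hb' : b' ≤ i) (hb : b ≤ i)
    (h1 : mm C (2 * N' + C ^ b') (i + 1) = mm C (2 * N + C ^ b) (i + 1))
    (h2 : mm C (2 * N' + C ^ b') i = mm C (2 * N + C ^ b) i)
    (hlam : θ'.lam + θ.lam ≠ 0) :
    FB (Sol C b' N' θ' b N θ t w) (C ^ (i + 1) * mm C (2 * N + C ^ b) (i + 1))
      (C ^ i * mm C (2 * N + C ^ b) i) 2 := by
  have hC0 : 0 < C := by omega
  set κ := 2 * N + C ^ b with hκ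
  set κ' := 2 * N' + C ^ b' with hκ'
  set m := C * mm C κ (i + 1) with hm
  set c := cc C κ i with hc
  have hcc' : cc C κ' i = c := by rw [hc]; unfold cc; rw [h1, h2]
  have hmc : m + c = mm C κ i := by
    have := mul_mm_le hC0 κ i
    rw [hm, hc]; unfold cc; omega
  intro x hx
  set q := C ^ (i + 1) * mm C κ (i + 1) with hq
  have hq' : q = C ^ i * m := by rw [hq, hm]; ring
  set A := {y | y ∈ Sol C b' N' θ' b N θ t w ∧ trunc q y = trunc q x} with hA
  -- the polynomial
  set lam' := θ'.val none with hlam'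
  set lam := θ.val none with hlamd
  have hlam0 : lam' + lam ≠ 0 := by
    rw [hlam', hlamd]
    simp only [Par.val]
    rw [← map_add]
    intro h
    exact hlam ((map_eq_zero _).1 h)
  set T := blk C i m c t with hT
  set K := blk C i m c w - ∑ s ∈ range c, (tw C κ' θ' x i s + tw C κ θ (t - x) i s) *
    eb p (C ^ i) c s with hK
  set P : Polynomial (Om p) := Polynomial.C (lam' + lam) * Polynomial.X ^ 2 +
    Polynomial.C (-(2 * lam * T)) * Polynomial.X + Polynomial.C (lam * T ^ 2 - K) with hP
  have hP0 : P ≠ 0 := by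
    intro h
    have h3 : P.coeff 2 = lam' + lam := by
      rw [hP, Polynomial.coeff_add, Polynomial.coeff_add, Polynomial.coeff_C_mul,
        Polynomial.coeff_C_mul, Polynomial.coeff_X_pow, Polynomial.coeff_X, Polynomial.coeff_C]
      simp
    rw [h, Polynomial.coeff_zero] at h3
    exact hlam0 h3.symm
  have hdeg : P.natDegree ≤ 2 := by
    rw [hP]
    compute_degree
  have hmaps : ∀ v ∈ trunc (C ^ i * mm C κ i) '' A, blk C i m c v ∈ (P.roots.toFinset : Set (Om p)) := by
    rintro v ⟨y, ⟨hyS, hyt⟩, rfl⟩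
    have e1 : blk C i m c (trunc (C ^ i * mm C κ i) y) = blk C i m c y := by
      apply blk_congr hC0
      intro u hu
      rw [hmc] at hu
      simp [trunc, hu]
    rw [e1]
    rw [Finset.mem_coe, Multiset.mem_toFinset, Polynomial.mem_roots hP0]
    obtain ⟨z, hz1, hz2⟩ := hyS
    have r1 := hz1.rel i hb'
    have r2 := hz2.rel i hb
    unfold BlockRel at r1 r2
    rw [← hκ', hcc', h1, ← hm, ← hlam'] at r1
    rw [← hκ, ← hc, ← hm, ← hlamd] at r2
    have hyx := trunc_eq_iff.1 hyt
    have tw1 : ∀ s, tw C κ' θ' y i s = tw C κ' θ' x i s := by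
      intro s
      apply tw_congr hC0
      rw [h1]; exact hyx
    have tw2 : ∀ s, tw C κ θ (t - y) i s = tw C κ θ (t - x) i s := by
      intro s
      apply tw_congr hC0
      intro u hu
      simp [hyx u hu]
    have s1 : ∑ s ∈ range c, cell p C (t - y) i (m + s) * eb p (C ^ i) c s =
        T - blk C i m c y := by
      rw [hT]; unfold blk
      rw [← Finset.sum_sub_distrib]
      refine Finset.sum_congr rfl fun s _ => ?_
      rw [cell_sub]; ring
    have s2 : ∑ s ∈ range c, (cell p C z i (m + s) - tw C κ' θ' y i s) * eb p (C ^ i) c s +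
        ∑ s ∈ range c, (cell p C (w - z) i (m + s) - tw C κ θ (t - y) i s) * eb p (C ^ i) c s
        = K := by
      rw [hK]; unfold blk
      rw [← Finset.sum_add_distrib, ← Finset.sum_sub_distrib]
      refine Finset.sum_congr rfl fun s _ => ?_
      rw [cell_sub, tw1, tw2]; ring
    rw [s1] at r2
    rw [r1, r2] at s2
    have s3 : ∑ s ∈ range c, cell p C y i (m + s) * eb p (C ^ i) c s = blk C i m c y := rfl
    rw [s3] at s2
    rw [Polynomial.IsRoot, hP]
    simp only [Polynomial.eval_add, Polynomial.eval_mul, Polynomial.eval_C, Polynomial.eval_pow,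
      Polynomial.eval_X]
    linear_combination s2
  have hinj : Set.InjOn (blk C i m c) (trunc (C ^ i * mm C κ i) '' A) := by
    rintro v ⟨y, ⟨hyS, hyt⟩, rfl⟩ v' ⟨y', ⟨hyS', hyt'⟩, rfl⟩ h
    rw [trunc_eq_iff]
    intro u hu
    have hyx := trunc_eq_iff.1 hyt
    have hyx' := trunc_eq_iff.1 hyt'
    by_cases huq : u < q
    · rw [hyx u huq, hyx' u huq]
    · have e1 : ∀ y : ℕ → ZMod p, blk C i m c (trunc (C ^ i * mm C κ i) y) = blk C i m c y := by
        intro y
        apply blk_congr hC0
        intro u hu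
        rw [hmc] at hu
        simp [trunc, hu]
      rw [e1, e1] at h
      exact blk_inj hC0 h u (by omega) (by rw [hmc]; exact hu)
  have hfin : (P.roots.toFinset : Set (Om p)).Finite := Finset.finite_toSet _
  refine ⟨Set.Finite.of_injOn hmaps hinj hfin, ?_⟩
  refine (Set.ncard_le_ncard_of_injOn _ hmaps hinj hfin).trans ?_
  rw [Set.ncard_coe_finset]
  exact (Multiset.toFinset_card_le _).trans ((Polynomial.card_roots' P).trans hdeg)

end Pool.Agent.Helper48.ET
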