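import Pool.Agent.Helper48.ET.LocalSteps
import Pool.Agent.Helper48.ET.Shared

/-! Piece P: assembly over the levels. -/

set_option autoImplicit false

namespace Pool.Agent.Helper48.ET

open Finset

section

variable {p : ℕ} [Fact p.Prime]

theorem finite_supp (N : ℕ) : {x : ℕ → ZMod p | ∀ u, N ≤ u → x u = 0}.Finite := by
  have h : (Set.range (fun (f : Fin N → ZMod p) (u : ℕ) =>
      if h : u < N then f ⟨u, h⟩ else 0)).Finite := Set.finite_range _
  refine h.subset ?_
  intro x hx
  refine ⟨fun u => x u, ?_⟩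
  funext u
  by_cases h : u < N
  · simp [h]
  · simp [h, hx u (not_lt.1 h)]

theorem sol_finite {C b' N' b N : ℕ} {θ' θ : Par p} {t w : ℕ → ZMod p} :
    (Sol C b' N' θ' b N θ t w).Finite :=
  (finite_supp N').subset (fun _ hx => hx.choose_spec.1.xs)

theorem chain_card {S : Set (ℕ → ZMod p)} (hS : S.Finite) {q q' c : ℕ} (h : FB S q q' c) :
    (trunc q' '' S).ncard ≤ c * (trunc q '' S).ncard := by
  classical
  obtain ⟨F, rfl⟩ : ∃ F : Finset (ℕ → ZMod p), (F : Set (ℕ → ZMod p)) = S := ⟨hS.toFinset, by simp⟩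
  have h1 : F.image (trunc q') ⊆ (F.image (trunc q)).biUnion
      (fun v => (F.filter (fun y => trunc q y = v)).image (trunc q')) := by
    intro v hv
    obtain ⟨x, hx, rfl⟩ := Finset.mem_image.1 hv
    refine Finset.mem_biUnion.2 ⟨trunc q x, Finset.mem_image_of_mem _ hx, ?_⟩
    exact Finset.mem_image_of_mem _ (Finset.mem_filter.2 ⟨hx, rfl⟩)
  have h2 : (F.image (trunc q')).card ≤ (F.image (trunc q)).card * c := by
    refine (Finset.card_le_card h1).trans (Finset.card_biUnion_le_card_mul _ _ _ ?_)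
    intro v hv
    obtain ⟨x, hx, rfl⟩ := Finset.mem_image.1 hv
    have h3 := (h x hx).2
    have h4 : trunc q' '' {y | y ∈ (F : Set (ℕ → ZMod p)) ∧ trunc q y = trunc q x} =
        (((F.filter (fun y => trunc q y = trunc q x)).image (trunc q') : Finset _) :
          Set (ℕ → ZMod p)) := by
      rw [Finset.coe_image, Finset.coe_filter]
      rfl
    rw [h4, Set.ncard_coe_finset] at h3
    exact h3
  rw [← Finset.coe_image, ← Finset.coe_image, Set.ncard_coe_finset, Set.ncard_coe_finset]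
  rw [mul_comm]
  exact h2

theorem chain_two {S : Set (ℕ → ZMod p)} (hS : S.Finite) (q : ℕ → ℕ) {lo hi : ℕ} (h : lo ≤ hi)
    (hstep : ∀ i, lo ≤ i → i < hi → FB S (q (i + 1)) (q i) 2) :
    (trunc (q lo) '' S).ncard ≤ 2 ^ (hi - lo) * (trunc (q hi) '' S).ncard := by
  induction hi, h using Nat.le_induction with
  | base => simp
  | succ hi hlo ih =>
    have h1 := ih (fun i h1 h2 => hstep i h1 (by omega))
    have h2 := chain_card hS (hstep hi hlo (by omega))
    calc (trunc (q lo) '' S).ncard ≤ 2 ^ (hi - lo) * (trunc (q hi) '' S).ncard := h1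
      _ ≤ 2 ^ (hi - lo) * (2 * (trunc (q (hi + 1)) '' S).ncard) := Nat.mul_le_mul_left _ h2
      _ = 2 ^ (hi + 1 - lo) * (trunc (q (hi + 1)) '' S).ncard := by
          rw [show hi + 1 - lo = (hi - lo) + 1 by omega, pow_succ]
          ring

theorem trunc_zero_card (S : Set (ℕ → ZMod p)) : (trunc 0 '' S).ncard ≤ 1 := by
  have h : trunc 0 '' S ⊆ {0} := by
    rintro _ ⟨x, -, rfl⟩
    rw [Set.mem_singleton_iff]
    funext u
    simp [trunc]
  exact (Set.ncard_le_ncard h).trans (by simp)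

theorem card_le_trunc {C b' N' b N : ℕ} {θ' θ : Par p} {t w : ℕ → ZMod p} :
    (Sol C b' N' θ' b N θ t w).ncard ≤ (trunc N' '' Sol C b' N' θ' b N θ t w).ncard := by
  have h : Sol C b' N' θ' b N θ t w ⊆ trunc N' '' Sol C b' N' θ' b N θ t w := by
    intro x hx
    refine ⟨x, hx, ?_⟩
    funext u
    unfold trunc
    split_ifs with hu
    · rfl
    · obtain ⟨z, h1, -⟩ := hx
      exact (h1.xs u (not_lt.1 hu)).symm
  exact Set.ncard_le_ncard h (sol_finite.image _)

theorem one_le_N0 (C : ℕ) : 1 ≤ N0 C := by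
  unfold N0
  exact Nat.one_le_pow _ _ (by omega)

theorem pair_self {C L I N : ℕ} (hC : 8 ≤ C) (hL : 4 ≤ L) (hp : p ≠ 2)
    (hlen : IsLen C L I N) (θ : Par p) (hlam : θ.lam ≠ 0) (t w : ℕ → ZMod p) :
    (Sol C (I + 1 - L) N θ (I + 1 - L) N θ t w).ncard ≤ 2 ^ L := by
  have hI := hlen.hI
  have hlam2 : θ.lam + θ.lam ≠ 0 := by
    have h2 : (2 : ZMod p) ≠ 0 := by
      intro h
      have h3 : ((2 : ℕ) : ZMod p) = 0 := by exact_mod_cast h
      rw [ZMod.natCast_eq_zero_iff] at h3
      have h4 := (Nat.prime_dvd_prime_iff_eq (Fact.out : p.Prime) Nat.prime_two).1 h3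
      exact hp h4
    rw [← two_mul]
    exact mul_ne_zero h2 hlam
  set S := Sol C (I + 1 - L) N θ (I + 1 - L) N θ t w with hS
  let q : ℕ → ℕ := fun i => C ^ i * mm C (2 * N + C ^ (I + 1 - L)) i
  have hchain := chain_two (S := S) sol_finite q (lo := I + 1 - L) (hi := I + 1) (by omega)
    (fun i h1 _ => step_shared hC h1 h1 rfl rfl hlam2)
  have htop : q (I + 1) = 0 := by
    change C ^ (I + 1) * mm C (2 * N + C ^ (I + 1 - L)) (I + 1) = 0
    rw [mm_top (by omega) (by omega) hlen.hi (by omega), mul_zero]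
  have hbase : q (I + 1 - L) = N := by
    change C ^ (I + 1 - L) * mm C (2 * N + C ^ (I + 1 - L)) (I + 1 - L) = N
    rw [mul_comm]
    exact mm_base (by omega) hlen.dvd
  rw [htop, hbase] at hchain
  have hL' : I + 1 - (I + 1 - L) = L := by omega
  rw [hL'] at hchain
  calc S.ncard ≤ (trunc N '' S).ncard := card_le_trunc
    _ ≤ 2 ^ L * (trunc 0 '' S).ncard := hchain
    _ ≤ 2 ^ L * 1 := Nat.mul_le_mul_left _ (trunc_zero_card S)
    _ = 2 ^ L := mul_one _

/-- the polynomial that controls `lam' + lam` -/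
theorem lam_poly (θ' : Par p) : ∃ P : MvPolynomial (Option (ℕ × ℕ × ℕ)) (Om p), P ≠ 0 ∧
    P.totalDegree ≤ 1 ∧ ∀ θ : Par p, MvPolynomial.eval θ.val P ≠ 0 → θ'.lam + θ.lam ≠ 0 := by
  refine ⟨MvPolynomial.X none + MvPolynomial.C (algebraMap (ZMod p) (Om p) θ'.lam), ?_, ?_, ?_⟩
  · intro h
    have h1 := congrArg (MvPolynomial.eval
      (fun _ => 1 - algebraMap (ZMod p) (Om p) θ'.lam)) h
    simp at h1
  · refine (MvPolynomial.totalDegree_add _ _).trans ?_
    rw [MvPolynomial.totalDegree_X, MvPolynomial.totalDegree_C]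
    simp
  · intro θ hθ h
    apply hθ
    rw [map_add, MvPolynomial.eval_X, MvPolynomial.eval_C]
    change algebraMap (ZMod p) (Om p) θ.lam + _ = 0
    rw [← map_add, add_comm, h, map_zero]

theorem pair_lt {C L I' N' I N : ℕ} (hC : 8 ≤ C) (hev : Even C) (hL : 4 ≤ L)
    (hlen' : IsLen C L I' N') (hlen : IsLen C L I N) (hlt : N' < N) (θ' : Par p) :
    ∃ P : MvPolynomial (Option (ℕ × ℕ × ℕ)) (Om p), P ≠ 0 ∧ P.totalDegree ≤ 2 * Del C + 1 ∧
      ∀ θ : Par p, MvPolynomial.eval θ.val P ≠ 0 → ∀ t w : ℕ → ZMod p,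
        (Sol C (I' + 1 - L) N' θ' (I + 1 - L) N θ t w).ncard ≤ 2 ^ L * N0 C ^ 2 := by
  have hI := hlen.hI
  have hI' := hlen'.hI
  have hC0 : 0 < C := by omega
  have hC1 : 1 < C := by omega
  -- comparison of the epochs
  have hII : I' ≤ I := by
    by_contra hcon
    have h1 : C ^ (I + 1) ≤ C ^ I' := Nat.pow_le_pow_right hC0 (by omega)
    have h2 := hlen'.lo
    have h3 := hlen.hi
    omega
  obtain ⟨b', hb'⟩ : ∃ b', b' = I' + 1 - L := ⟨_, rfl⟩
  obtain ⟨b, hb⟩ : ∃ b, b = I + 1 - L := ⟨_, rfl⟩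
  have hbb : b' ≤ b := by omega
  have hbI : b + L = I + 1 := by omega
  have hbI' : b' + L = I' + 1 := by omega
  have hdvd' : C ^ b' ∣ N' := hb' ▸ hlen'.dvd
  have hdvd : C ^ b ∣ N := hb ▸ hlen.dvd
  have hN'0 : 0 < N' := lt_of_lt_of_le (Nat.pow_pos hC0) hlen'.lo
  have hpb' : 0 < C ^ b' := Nat.pow_pos hC0
  have hpb : 0 < C ^ b := Nat.pow_pos hC0
  have hbb2 : C ^ b' ≤ C ^ b := Nat.pow_le_pow_right hC0 hbb
  have hgap : N' + C ^ b' ≤ N := by
    have h1 : C ^ b' ∣ N - N' := Nat.dvd_sub ((pow_dvd_pow C hbb).trans hdvd) hdvd'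
    have h2 := Nat.le_of_dvd (by omega) h1
    omega
  obtain ⟨κ', hκ'⟩ : ∃ κ', κ' = 2 * N' + C ^ b' := ⟨_, rfl⟩
  obtain ⟨κ, hκ⟩ : ∃ κ, κ = 2 * N + C ^ b := ⟨_, rfl⟩
  have hD : κ' + C ^ b < κ := by omega
  -- the scale `e` of the difference
  have hex : ∃ e, κ ≤ κ' + C ^ e := ⟨κ, by
    have := (Nat.lt_pow_self hC1 : κ < C ^ κ)
    omega⟩
  classical
  obtain ⟨e, he⟩ : ∃ e, e = Nat.find hex := ⟨_, rfl⟩
  have he1 : κ ≤ κ' + C ^ e := he ▸ Nat.find_spec hex
  have hbe : b + 1 ≤ e := by
    by_contra hcon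
    have : C ^ e ≤ C ^ b := Nat.pow_le_pow_right hC0 (by omega)
    omega
  have he2 : κ' + C ^ (e - 1) < κ := by
    have := Nat.find_min hex (m := e - 1) (by omega)
    omega
  obtain ⟨j0, hj0⟩ := one_change (C := C) (κ' := κ') (κ := κ) (e := e) (by omega) hev (by omega) he1
  -- vanishing above the top
  have htop : ∀ i, I < i → mm C κ i = 0 := fun i hi => by
    rw [hκ]; exact mm_top (by omega) (by omega) hlen.hi hi
  have htop' : ∀ i, I < i → mm C κ' i = 0 := fun i hi => by
    rw [hκ']; exact mm_top (by omega) (by omega) hlen'.hi (by omega)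
  -- the final step
  have final : ∀ s, (s + 1 = e ∨ s = e) → mm C κ' (s + 1) = mm C κ (s + 1) →
      ∃ P : MvPolynomial (Option (ℕ × ℕ × ℕ)) (Om p), P ≠ 0 ∧ P.totalDegree ≤ Del C ∧
      ∀ θ : Par p, MvPolynomial.eval θ.val P ≠ 0 → ∀ t w : ℕ → ZMod p,
        FB (Sol C b' N' θ' b N θ t w) (C ^ (s + 1) * mm C κ (s + 1)) N' (N0 C) := by
    intro s hs hms
    rw [hκ, hκ'] at hms
    rw [hκ]
    by_cases hcase : b + 3 ≤ e
    · -- far
      have h1 : 2 * N' + C ^ b' + 3 * C ^ (e - 3 + 1) ≤ 2 * N + C ^ b := by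
        have h2 : e - 1 = (e - 3 + 1) + 1 := by omega
        have h3 : 8 * C ^ (e - 3 + 1) ≤ C ^ (e - 1) := by
          rw [h2, pow_succ C (e - 3 + 1), mul_comm (C ^ (e - 3 + 1)) C]
          exact Nat.mul_le_mul_right _ hC
        omega
      exact step_far (g := e - 3) hC θ' hN'0 (by omega) (by omega) (by omega) (by omega) hms h1
    · -- bottom
      have hb1 : b ≤ b' + 1 := by
        by_contra hcon
        -- then the difference is larger than `C ^ (b + 2)`
        have h1 : C ^ (I' + 1) ≤ C ^ (I - 1) := Nat.pow_le_pow_right hC0 (by omega)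
        have h2 := hlen'.hi
        have h3 := hlen.lo
        have h4 : 8 * C ^ (I - 1) ≤ C ^ I := by
          have h5 : I = (I - 1) + 1 := by omega
          rw [h5, pow_succ, mul_comm (C ^ (I - 1)) C, Nat.add_sub_cancel]
          exact Nat.mul_le_mul_right _ hC
        have h6 : C ^ e ≤ C ^ I := Nat.pow_le_pow_right hC0 (by omega)
        omega
      exact step_bottom hC θ' hbb (by omega) (by omega) hdvd hdvd' hlt.le hms
  -- the polynomial controlling `lam`
  obtain ⟨P0, hP0, hP0d, hP0e⟩ := lam_poly (p := p) θ'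
  rw [← hb, ← hb']
  -- shared steps
  have shared : ∀ θ : Par p, θ'.lam + θ.lam ≠ 0 → ∀ t w : ℕ → ZMod p, ∀ i, b ≤ i →
      mm C κ' (i + 1) = mm C κ (i + 1) → mm C κ' i = mm C κ i →
      FB (Sol C b' N' θ' b N θ t w) (C ^ (i + 1) * mm C κ (i + 1)) (C ^ i * mm C κ i) 2 := by
    intro θ hθ t w i hi h1 h2
    rw [hκ, hκ'] at h1 h2
    rw [hκ]
    exact step_shared hC (by omega) hi h1 h2 hθ
  have hNN := one_le_N0 C
  by_cases hgood : ∀ i, e ≤ i → mm C κ' i = mm C κ i
  · -- no change at the levels `≥ e`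
    obtain ⟨P1, hP1, hP1d, hP1e⟩ := final (e - 1) (Or.inl (by omega))
      (by rw [show e - 1 + 1 = e by omega]; exact hgood e le_rfl)
    refine ⟨P0 * P1, mul_ne_zero hP0 hP1, ?_, ?_⟩
    · refine (MvPolynomial.totalDegree_mul _ _).trans ?_
      omega
    · intro θ hθ t w
      rw [map_mul] at hθ
      have hl := hP0e θ (left_ne_zero_of_mul hθ)
      have hf := hP1e θ (right_ne_zero_of_mul hθ) t w
      rw [show e - 1 + 1 = e by omega] at hf
      set S := Sol C b' N' θ' b N θ t w with hS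
      have hSf : S.Finite := sol_finite
      let q : ℕ → ℕ := fun i => C ^ i * mm C κ i
      obtain ⟨T, hT⟩ : ∃ T, T = max e (I + 1) := ⟨_, rfl⟩
      have hTe : e ≤ T := by omega
      have hqT : q T = 0 := by
        change C ^ T * mm C κ T = 0
        rw [htop T (by omega), mul_zero]
      have hch := chain_two (S := S) hSf q hTe (fun i h1 _ =>
        shared θ hl t w i (by omega) (hgood _ (by omega)) (hgood _ h1))
      rw [hqT] at hch
      have hfin := chain_card hSf hf
      have h2 : 2 ^ (T - e) ≤ 2 ^ L := Nat.pow_le_pow_right (by norm_num) (by omega)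
      calc S.ncard ≤ (trunc N' '' S).ncard := card_le_trunc
        _ ≤ N0 C * (trunc (q e) '' S).ncard := hfin
        _ ≤ N0 C * (2 ^ (T - e) * (trunc 0 '' S).ncard) := Nat.mul_le_mul_left _ hch
        _ ≤ N0 C * (2 ^ L * 1) :=
            Nat.mul_le_mul_left _ (Nat.mul_le_mul h2 (trunc_zero_card S))
        _ ≤ 2 ^ L * N0 C ^ 2 := by
            rw [mul_one, mul_comm, pow_two]
            exact Nat.mul_le_mul_left _ (Nat.le_mul_of_pos_left _ hNN)
  · -- one change
    have hbad : e ≤ j0 ∧ mm C κ' j0 ≠ mm C κ j0 := by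
      by_contra hcon
      apply hgood
      intro i hi
      by_cases h : i = j0
      · subst h
        by_contra h2
        exact hcon ⟨hi, h2⟩
      · exact hj0 i hi h
    have hj0I : j0 ≤ I := by
      by_contra hcon
      exact hbad.2 ((htop' j0 (by omega)).trans (htop j0 (by omega)).symm)
    by_cases hje : j0 = e
    · -- the change is at level `e`
      subst hje
      obtain ⟨P1, hP1, hP1d, hP1e⟩ := final j0 (Or.inr rfl) (hj0 _ (by omega) (by omega))
      refine ⟨P0 * P1, mul_ne_zero hP0 hP1, ?_, ?_⟩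
      · refine (MvPolynomial.totalDegree_mul _ _).trans ?_
        omega
      · intro θ hθ t w
        rw [map_mul] at hθ
        have hl := hP0e θ (left_ne_zero_of_mul hθ)
        have hf := hP1e θ (right_ne_zero_of_mul hθ) t w
        set S := Sol C b' N' θ' b N θ t w with hS
        have hSf : S.Finite := sol_finite
        let q : ℕ → ℕ := fun i => C ^ i * mm C κ i
        have hqT : q (I + 1) = 0 := by
          change C ^ (I + 1) * mm C κ (I + 1) = 0
          rw [htop (I + 1) (by omega), mul_zero]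
        have hch := chain_two (S := S) hSf q (lo := j0 + 1) (hi := I + 1) (by omega) (fun i h1 _ =>
          shared θ hl t w i (by omega) (hj0 _ (by omega) (by omega)) (hj0 _ (by omega) (by omega)))
        rw [hqT] at hch
        have hfin := chain_card hSf hf
        have h2 : 2 ^ (I + 1 - (j0 + 1)) ≤ 2 ^ L := Nat.pow_le_pow_right (by norm_num) (by omega)
        calc S.ncard ≤ (trunc N' '' S).ncard := card_le_trunc
          _ ≤ N0 C * (trunc (q (j0 + 1)) '' S).ncard := hfin
          _ ≤ N0 C * (2 ^ (I + 1 - (j0 + 1)) * (trunc 0 '' S).ncard) := Nat.mul_le_mul_left _ hch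
          _ ≤ N0 C * (2 ^ L * 1) :=
              Nat.mul_le_mul_left _ (Nat.mul_le_mul h2 (trunc_zero_card S))
          _ ≤ 2 ^ L * N0 C ^ 2 := by
              rw [mul_one, mul_comm, pow_two]
              exact Nat.mul_le_mul_left _ (Nat.le_mul_of_pos_left _ hNN)
    · -- the change is above level `e`: merge step
      have hej : e + 1 ≤ j0 := by omega
      obtain ⟨P1, hP1, hP1d, hP1e⟩ := final (e - 1) (Or.inl (by omega))
        (by rw [show e - 1 + 1 = e by omega]; exact hj0 e le_rfl (by omega))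
      obtain ⟨P2, hP2, hP2d, hP2e⟩ := step_merge (p := p) (b' := b') (N' := N') (b := b) (N := N)
        (j := j0 - 1) hC θ' (by omega) (by omega)
        (by
          rw [← hκ, ← hκ', show j0 - 1 + 2 = j0 + 1 by omega]
          exact hj0 _ (by omega) (by omega))
        (by
          rw [← hκ, ← hκ']
          exact hj0 _ (by omega) (by omega))
      refine ⟨P0 * P1 * P2, mul_ne_zero (mul_ne_zero hP0 hP1) hP2, ?_, ?_⟩
      · refine (MvPolynomial.totalDegree_mul _ _).trans ?_
        have := MvPolynomial.totalDegree_mul P0 P1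
        omega
      · intro θ hθ t w
        rw [map_mul, map_mul] at hθ
        have hl := hP0e θ (left_ne_zero_of_mul (left_ne_zero_of_mul hθ))
        have hf := hP1e θ (right_ne_zero_of_mul (left_ne_zero_of_mul hθ)) t w
        have hm := hP2e θ (right_ne_zero_of_mul hθ) t w
        rw [show e - 1 + 1 = e by omega] at hf
        rw [← hκ, show j0 - 1 + 2 = j0 + 1 by omega] at hm
        set S := Sol C b' N' θ' b N θ t w with hS
        have hSf : S.Finite := sol_finite
        let q : ℕ → ℕ := fun i => C ^ i * mm C κ i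
        have hqT : q (I + 1) = 0 := by
          change C ^ (I + 1) * mm C κ (I + 1) = 0
          rw [htop (I + 1) (by omega), mul_zero]
        have hch1 := chain_two (S := S) hSf q (lo := j0 + 1) (hi := I + 1) (by omega)
          (fun i h1 _ => shared θ hl t w i (by omega) (hj0 _ (by omega) (by omega))
            (hj0 _ (by omega) (by omega)))
        rw [hqT] at hch1
        have hmer := chain_card hSf hm
        have hch2 := chain_two (S := S) hSf q (lo := e) (hi := j0 - 1) (by omega)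
          (fun i h1 h2 => shared θ hl t w i (by omega) (hj0 _ (by omega) (by omega))
            (hj0 _ (by omega) (by omega)))
        have hfin := chain_card hSf hf
        have h2 : 2 ^ (j0 - 1 - e) * 2 ^ (I + 1 - (j0 + 1)) ≤ 2 ^ L := by
          rw [← pow_add]
          exact Nat.pow_le_pow_right (by norm_num) (by omega)
        calc S.ncard ≤ (trunc N' '' S).ncard := card_le_trunc
          _ ≤ N0 C * (trunc (q e) '' S).ncard := hfin
          _ ≤ N0 C * (2 ^ (j0 - 1 - e) * (trunc (q (j0 - 1)) '' S).ncard) :=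
              Nat.mul_le_mul_left _ hch2
          _ ≤ N0 C * (2 ^ (j0 - 1 - e) * (N0 C * (trunc (q (j0 + 1)) '' S).ncard)) :=
              Nat.mul_le_mul_left _ (Nat.mul_le_mul_left _ hmer)
          _ ≤ N0 C * (2 ^ (j0 - 1 - e) * (N0 C * (2 ^ (I + 1 - (j0 + 1)) *
                (trunc 0 '' S).ncard))) :=
              Nat.mul_le_mul_left _ (Nat.mul_le_mul_left _ (Nat.mul_le_mul_left _ hch1))
          _ ≤ N0 C * (2 ^ (j0 - 1 - e) * (N0 C * (2 ^ (I + 1 - (j0 + 1)) * 1))) :=
              Nat.mul_le_mul_left _ (Nat.mul_le_mul_left _ (Nat.mul_le_mul_left _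
                (Nat.mul_le_mul_left _ (trunc_zero_card S))))
          _ = (2 ^ (j0 - 1 - e) * 2 ^ (I + 1 - (j0 + 1))) * N0 C ^ 2 := by ring
          _ ≤ 2 ^ L * N0 C ^ 2 := Nat.mul_le_mul_right _ h2

end

end Pool.Agent.Helper48.ET
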