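import Pool.Agent.Helper48.ET.Defs

/-! Piece W1: the elements of `AN` are `< (2p)^(2N)`, and there are at least
`p ^ (N - C ^ b - L)` of them (core, given the existence of the `z`-part). -/

set_option autoImplicit false

namespace Pool.Agent.Helper48.ET

open Finset

section

variable {p : ℕ} [Fact p.Prime]

omit [Fact p.Prime] in
theorem enc_succ (N : ℕ) (x z : ℕ → ZMod p) :
    enc (N + 1) x z = enc N x z + ((x N).val + 2 * p * (z N).val) * (2 * p) ^ (2 * N) := by
  unfold enc
  rw [Finset.sum_range_succ]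

theorem digit_lt (a b : ZMod p) : a.val + 2 * p * b.val + 1 ≤ (2 * p) ^ 2 := by
  have ha := ZMod.val_lt a
  have hb := ZMod.val_lt b
  nlinarith [Nat.zero_le a.val, Nat.zero_le b.val]

theorem enc_lt (N : ℕ) (x z : ℕ → ZMod p) : enc N x z < (2 * p) ^ (2 * N) := by
  induction N with
  | zero => simp [enc]
  | succ N ih =>
    rw [enc_succ]
    have h1 := digit_lt (x N) (z N)
    calc enc N x z + ((x N).val + 2 * p * (z N).val) * (2 * p) ^ (2 * N)
        < (2 * p) ^ (2 * N) + ((x N).val + 2 * p * (z N).val) * (2 * p) ^ (2 * N) := by omega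
      _ = ((x N).val + 2 * p * (z N).val + 1) * (2 * p) ^ (2 * N) := by ring
      _ ≤ (2 * p) ^ 2 * (2 * p) ^ (2 * N) := Nat.mul_le_mul_right _ h1
      _ = (2 * p) ^ (2 * (N + 1)) := by rw [← pow_add]; congr 1; ring

theorem enc_inj (N : ℕ) {x z x' z' : ℕ → ZMod p} (h : enc N x z = enc N x' z') :
    ∀ u < N, x u = x' u ∧ z u = z' u := by
  induction N with
  | zero => intro u hu; omega
  | succ N ih =>
    rw [enc_succ, enc_succ] at h
    have hlt := enc_lt N x z
    have hlt' := enc_lt N x' z'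
    have hpos : 0 < (2 * p) ^ (2 * N) := lt_of_le_of_lt (Nat.zero_le _) hlt
    have hd : (x N).val + 2 * p * (z N).val = (x' N).val + 2 * p * (z' N).val := by
      have h1 := congrArg (· / (2 * p) ^ (2 * N)) h
      simp only [Nat.add_mul_div_right _ _ hpos, Nat.div_eq_of_lt hlt, Nat.div_eq_of_lt hlt',
        zero_add] at h1
      exact h1
    have he : enc N x z = enc N x' z' := by
      rw [hd] at h
      omega
    have hp : 0 < p := Nat.Prime.pos Fact.out
    have hx : (x N).val = (x' N).val := by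
      have h1 := congrArg (· % (2 * p)) hd
      simp only [Nat.add_mul_mod_self_left] at h1
      rwa [Nat.mod_eq_of_lt (by have := ZMod.val_lt (x N); omega),
        Nat.mod_eq_of_lt (by have := ZMod.val_lt (x' N); omega)] at h1
    have hz : (z N).val = (z' N).val := by
      rw [hx] at hd
      have h2 : 2 * p * (z N).val = 2 * p * (z' N).val := by omega
      exact Nat.eq_of_mul_eq_mul_left (by omega) h2
    intro u hu
    rcases Nat.lt_succ_iff_lt_or_eq.1 hu with h1 | rfl
    · exact ih he u h1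
    · exact ⟨ZMod.val_injective p hx, ZMod.val_injective p hz⟩

theorem AN_lt {C L I N : ℕ} {θ : Par p} {n : ℕ} (h : n ∈ AN C L I N θ) : n < (2 * p) ^ (2 * N) := by
  obtain ⟨x, z, -, -, -, -, -, rfl⟩ := h
  exact enc_lt N x z

/-- the free positions -/
def freePos (C b I N : ℕ) : Finset ℕ :=
  ((range N \ range (C ^ b)) \ (Ioc b I).image (fun j => C ^ j - 2)) \ {N - 1}

theorem card_freePos (C b I N : ℕ) : N - C ^ b - (I - b) - 1 ≤ (freePos C b I N).card := by
  unfold freePos
  have h1 := Finset.le_card_sdiff {N - 1}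
    ((range N \ range (C ^ b)) \ (Ioc b I).image (fun j => C ^ j - 2))
  have h2 := Finset.le_card_sdiff ((Ioc b I).image (fun j => C ^ j - 2)) (range N \ range (C ^ b))
  have h3 := Finset.le_card_sdiff (range (C ^ b)) (range N)
  have h4 : ((Ioc b I).image (fun j => C ^ j - 2)).card ≤ I - b := by
    refine Finset.card_image_le.trans ?_
    rw [Nat.card_Ioc]
  rw [Finset.card_singleton] at h1
  rw [Finset.card_range, Finset.card_range] at h3
  omega

theorem AN_card_core {C L I N : ℕ} (hC : 8 ≤ C) (hL : 4 ≤ L) (hlen : IsLen C L I N) (θ : Par p)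
    (hcode : ∀ x : ℕ → ZMod p, (∀ u, N ≤ u → x u = 0) → ∃ z, IsCode C (I + 1 - L) N θ x z) :
    p ^ (N - C ^ (I + 1 - L) - L) ≤ (AN C L I N θ).ncard := by
  classical
  obtain ⟨hI, hlo, hhi, hdvd⟩ := hlen
  set b := I + 1 - L with hb
  have hbI : b < I := by omega
  have hCpos : 0 < C := by omega
  have hCb : 1 ≤ C ^ b := Nat.one_le_pow _ _ hCpos
  have hpow : ∀ j, b < j → 8 * C ^ b ≤ C ^ j := by
    intro j hj
    calc 8 * C ^ b ≤ C * C ^ b := Nat.mul_le_mul_right _ hC
      _ = C ^ (b + 1) := by ring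
      _ ≤ C ^ j := Nat.pow_le_pow_right hCpos hj
  have hCI := hpow I hbI
  let F := freePos C b I N
  have hF : ∀ u ∈ F, u < N ∧ C ^ b ≤ u ∧ (∀ j, b < j → j ≤ I → C ^ j - 2 ≠ u) ∧ u ≠ N - 1 := by
    intro u hu
    simp only [F, freePos, Finset.mem_sdiff, Finset.mem_range, Finset.mem_image, Finset.mem_Ioc,
      Finset.mem_singleton, not_lt, not_exists, not_and] at hu
    obtain ⟨⟨⟨h1, h2⟩, h3⟩, h4⟩ := hu
    exact ⟨h1, h2, fun j hj hjI => h3 j ⟨hj, hjI⟩, h4⟩
  let X : (F → ZMod p) → ℕ → ZMod p := fun ξ u =>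
    if h : u ∈ F then ξ ⟨u, h⟩ else if u = C ^ I - 2 then ((N / C ^ b : ℕ) : ZMod p)
      else if u = N - 1 then 1 else 0
  have hXF : ∀ ξ (u : F), X ξ u = ξ u := by
    intro ξ u
    simp only [X, u.2, dif_pos]
  have hX0 : ∀ ξ u, u ∉ F → u ≠ C ^ I - 2 → u ≠ N - 1 → X ξ u = 0 := by
    intro ξ u h1 h2 h3
    simp only [X, h1, h2, h3, dif_neg, if_false, not_false_eq_true]
  have hXN : ∀ ξ u, N ≤ u → X ξ u = 0 := by
    intro ξ u hu
    refine hX0 ξ u (fun h => ?_) (by omega) (by omega)
    have := (hF u h).1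
    omega
  choose Z hZ using fun ξ => hcode (X ξ) (hXN ξ)
  have hmem : ∀ ξ, enc N (X ξ) (Z ξ) ∈ AN C L I N θ := by
    intro ξ
    refine ⟨X ξ, Z ξ, hZ ξ, ?_, ?_, ?_, ?_, rfl⟩
    · intro u hu
      change u < C ^ b at hu
      refine hX0 ξ u (fun h => ?_) (by omega) (by omega)
      have := (hF u h).2.1
      omega
    · intro j hj hjI
      change b < j at hj
      have h1 := hpow j hj
      have h2 : C ^ j < C ^ I := Nat.pow_lt_pow_right (by omega) hjI
      refine hX0 ξ _ (fun h => ?_) (by omega) (by omega)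
      exact (hF _ h).2.2.1 j hj hjI.le rfl
    · have h1 : C ^ I - 2 ∉ F := fun h => (hF _ h).2.2.1 I hbI le_rfl rfl
      simp only [X, h1, dif_neg, if_true, not_false_eq_true]
      rfl
    · have h1 : N - 1 ∉ F := fun h => (hF _ h).2.2.2 rfl
      have h2 : N - 1 ≠ C ^ I - 2 := by omega
      simp only [X, h1, h2, dif_neg, if_true, if_false, not_false_eq_true]
  have hinj : Function.Injective (fun ξ => enc N (X ξ) (Z ξ)) := by
    intro ξ ξ' h
    funext u
    have h1 := (enc_inj N h u (hF u u.2).1).1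
    rwa [hXF, hXF] at h1
  have hfin : (AN C L I N θ).Finite := (Set.finite_Iio ((2 * p) ^ (2 * N))).subset fun n hn => AN_lt hn
  have hcard : (Set.range (fun ξ => enc N (X ξ) (Z ξ))).ncard = p ^ F.card := by
    rw [← Set.image_univ, Set.ncard_image_of_injective _ hinj, Set.ncard_univ,
      Nat.card_eq_fintype_card, Fintype.card_fun, ZMod.card, Fintype.card_coe]
  have hle : (Set.range (fun ξ => enc N (X ξ) (Z ξ))).ncard ≤ (AN C L I N θ).ncard := by
    apply Set.ncard_le_ncard _ hfin
    rintro _ ⟨ξ, rfl⟩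
    exact hmem ξ
  rw [hcard] at hle
  refine le_trans (Nat.pow_le_pow_right (Nat.Prime.pos Fact.out) ?_) hle
  have := card_freePos C b I N
  have hF' : F.card = (freePos C b I N).card := rfl
  omega

end

end Pool.Agent.Helper48.ET
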