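import Pool.Agent.Helper48.ET.Defs

/-! Piece S of MP_12a1af_nt: choice of the parameters. `select_of` takes the statements `pair_lt`
and `pair_self` (file Pair.lean) as hypotheses. -/

set_option autoImplicit false

namespace Pool.Agent.Helper48.ET.SelAux

open Finset

/-- choice by strong recursion -/
theorem strong_choice {α : Type*} [Inhabited α] (R : ℕ → ℕ → α → α → Prop) (S : ℕ → α → Prop)
    (h : ∀ N, ∀ f : ℕ → α, ∃ v, S N v ∧ ∀ N' < N, R N N' (f N') v) :
    ∃ f : ℕ → α, ∀ N, S N (f N) ∧ ∀ N' < N, R N N' (f N') (f N) := by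
  classical
  choose g hg using h
  let F : ℕ → α := WellFounded.fix (C := fun _ => α) Nat.lt_wfRel.wf
    (fun n ih => g n (fun m => if hm : m < n then ih m hm else default))
  have hF : ∀ N, F N = g N (fun m => if m < N then F m else default) := by
    intro N
    change WellFounded.fix _ _ N = _
    rw [WellFounded.fix_eq]
    rfl
  refine ⟨F, fun N => ?_⟩
  have := hg N (fun m => if m < N then F m else default)
  rw [← hF N] at this
  refine ⟨this.1, fun N' hN' => ?_⟩
  have h2 := this.2 N' hN'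
  rwa [if_pos hN'] at h2

end Pool.Agent.Helper48.ET.SelAux

namespace Pool.Agent.Helper48.ET

open Finset

section

variable {p : ℕ} [Fact p.Prime]

theorem exists_eval_ne_zero {V : Type*} (P : MvPolynomial V (Om p)) (h0 : P ≠ 0)
    (hdeg : P.totalDegree < p) :
    ∃ x : V → ZMod p, MvPolynomial.eval (fun v => algebraMap (ZMod p) (Om p) (x v)) P ≠ 0 := by
  classical
  obtain ⟨s, q, rfl⟩ := MvPolynomial.exists_finset_rename P
  have hq0 : q ≠ 0 := by
    rintro rfl
    exact h0 (map_zero _)
  have hinj : Function.Injective (fun x : {x // x ∈ s} => (x : V)) := Subtype.val_injective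
  by_contra hcon
  push Not at hcon
  apply hq0
  apply MvPolynomial.eq_zero_of_eval_zero_at_prod_finset q
    (fun _ => Finset.univ.image (algebraMap (ZMod p) (Om p)))
  · intro i
    rw [card_image_of_injective _ (algebraMap (ZMod p) (Om p)).injective, Finset.card_univ,
      ZMod.card]
    rw [← MvPolynomial.degreeOf_rename_of_injective hinj i]
    exact (MvPolynomial.degreeOf_le_totalDegree _ _).trans_lt hdeg
  · intro x hx
    have hx' : ∀ i, ∃ a : ZMod p, algebraMap (ZMod p) (Om p) a = x i := by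
      intro i
      obtain ⟨a, _, ha⟩ := mem_image.1 (hx i)
      exact ⟨a, ha⟩
    choose a ha using hx'
    have := hcon (fun v => if hv : v ∈ s then a ⟨v, hv⟩ else 0)
    rw [MvPolynomial.eval_rename] at this
    rw [← this]
    congr 2
    funext i
    simp only [Function.comp]
    rw [dif_pos i.2, ← ha]

theorem select_of {C L : ℕ} (hC : 8 ≤ C) (_hev : Even C) (_hL : 4 ≤ L)
    (hp : C ^ (2 * L) * (2 * Del C + 1) + 2 < p)
    (pair_lt : ∀ {I' N' I N : ℕ}, IsLen C L I' N' → IsLen C L I N → N' < N → ∀ θ' : Par p,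
      ∃ P : MvPolynomial (Option (ℕ × ℕ × ℕ)) (Om p), P ≠ 0 ∧ P.totalDegree ≤ 2 * Del C + 1 ∧
      ∀ θ : Par p, MvPolynomial.eval θ.val P ≠ 0 → ∀ t w : ℕ → ZMod p,
        (Sol C (I' + 1 - L) N' θ' (I + 1 - L) N θ t w).ncard ≤ 2 ^ L * N0 C ^ 2)
    (pair_self : p ≠ 2 → ∀ {I N : ℕ}, IsLen C L I N → ∀ θ : Par p, θ.lam ≠ 0 →
      ∀ t w : ℕ → ZMod p,
      (Sol C (I + 1 - L) N θ (I + 1 - L) N θ t w).ncard ≤ 2 ^ L) :
    ∃ θ : ℕ → Par p, ∀ I N I' N', IsLen C L I N → IsLen C L I' N' → C ^ (I + 1 - L) < N' →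
      N' ≤ N → ∀ t w : ℕ → ZMod p,
        (Sol C (I' + 1 - L) N' (θ N') (I + 1 - L) N (θ N) t w).ncard ≤ 2 ^ L * N0 C ^ 2 := by
  classical
  have hC1 : 1 < C := by omega
  -- the epoch is determined by the length
  have huniq : ∀ {I I2 N : ℕ}, IsLen C L I N → IsLen C L I2 N → I = I2 := by
    intro I I2 N h h2
    have h3 : C ^ I < C ^ (I2 + 1) := lt_of_le_of_lt h.lo h2.hi
    have h4 : C ^ I2 < C ^ (I + 1) := lt_of_le_of_lt h2.lo h.hi
    have h5 := (Nat.pow_lt_pow_iff_right hC1).1 h3
    have h6 := (Nat.pow_lt_pow_iff_right hC1).1 h4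
    omega
  have hN0 : 1 ≤ N0 C := Nat.one_le_pow _ _ (by positivity)
  have : Inhabited (Par p) := ⟨⟨0, fun _ _ _ => 0⟩⟩
  have hstep : ∀ N, ∀ f : ℕ → Par p, ∃ v : Par p, v.lam ≠ 0 ∧ ∀ N' < N,
      ∀ I I', IsLen C L I N → IsLen C L I' N' → C ^ (I + 1 - L) < N' →
      ∀ t w : ℕ → ZMod p,
        (Sol C (I' + 1 - L) N' (f N') (I + 1 - L) N v t w).ncard ≤ 2 ^ L * N0 C ^ 2 := by
    intro N f
    by_cases hN : ∃ I, IsLen C L I N
    · obtain ⟨I, hlen⟩ := hN
      -- the relevant shorter lengths
      set Sh : Finset ℕ := (range N).filter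
        (fun N' => C ^ (I + 1 - L) < N' ∧ ∃ I', IsLen C L I' N') with hSh
      have hcard : Sh.card ≤ C ^ (2 * L) := by
        have hsub : Sh ⊆ (range (C ^ (2 * L))).image (fun m => C ^ (I + 2 - 2 * L) * m) := by
          intro N' hN'
          rw [hSh, mem_filter, mem_range] at hN'
          obtain ⟨hlt, hgt, I', hlen'⟩ := hN'
          have h1 : C ^ (I + 1 - L) < C ^ (I' + 1) := hgt.trans hlen'.hi
          have h2 := (Nat.pow_lt_pow_iff_right hC1).1 h1
          have hI := hlen.hI
          have hI' := hlen'.hI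
          have h3 : C ^ (I + 2 - 2 * L) ∣ N' :=
            (pow_dvd_pow C (by omega)).trans hlen'.dvd
          obtain ⟨m, rfl⟩ := h3
          rw [mem_image]
          refine ⟨m, ?_, rfl⟩
          rw [mem_range]
          have h4 : C ^ (I + 2 - 2 * L) * m < C ^ (I + 2 - 2 * L) * C ^ (2 * L) := by
            refine (hlt.trans hlen.hi).trans_le ?_
            rw [← pow_add]
            exact Nat.pow_le_pow_right (by omega) (by omega)
          exact lt_of_mul_lt_mul_left h4 (Nat.zero_le _)
        calc Sh.card ≤ _ := card_le_card hsub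
          _ ≤ _ := card_image_le
          _ = _ := card_range _
      have hP : ∀ N' ∈ Sh, ∃ P : MvPolynomial (Option (ℕ × ℕ × ℕ)) (Om p), P ≠ 0 ∧
          P.totalDegree ≤ 2 * Del C + 1 ∧
          ∀ θ : Par p, MvPolynomial.eval θ.val P ≠ 0 → ∀ I', IsLen C L I' N' →
            ∀ t w : ℕ → ZMod p,
            (Sol C (I' + 1 - L) N' (f N') (I + 1 - L) N θ t w).ncard ≤ 2 ^ L * N0 C ^ 2 := by
        intro N' hN'
        rw [hSh, mem_filter, mem_range] at hN'
        obtain ⟨hlt, hgt, I', hlen'⟩ := hN'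
        obtain ⟨P, hP0, hPd, hP⟩ := pair_lt hlen' hlen hlt (f N')
        refine ⟨P, hP0, hPd, ?_⟩
        intro θ hθ I2 hlen2 t w
        have := huniq hlen' hlen2
        subst this
        exact hP θ hθ t w
      choose! P hP0 hPd hP using hP
      set Q : MvPolynomial (Option (ℕ × ℕ × ℕ)) (Om p) :=
        MvPolynomial.X none * ∏ N' ∈ Sh, P N' with hQ
      have hQ0 : Q ≠ 0 := by
        rw [hQ]
        refine mul_ne_zero (MvPolynomial.X_ne_zero _) ?_
        rw [prod_ne_zero_iff]
        exact hP0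
      have hQd : Q.totalDegree < p := by
        have h1 : Q.totalDegree ≤ 1 + Sh.card * (2 * Del C + 1) := by
          rw [hQ]
          refine (MvPolynomial.totalDegree_mul _ _).trans ?_
          rw [MvPolynomial.totalDegree_X]
          refine Nat.add_le_add_left ?_ 1
          refine (MvPolynomial.totalDegree_finsetProd _ _).trans ?_
          exact (sum_le_card_nsmul _ _ _ hPd).trans (by simp)
        have h2 : Sh.card * (2 * Del C + 1) ≤ C ^ (2 * L) * (2 * Del C + 1) :=
          Nat.mul_le_mul_right _ hcard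
        omega
      obtain ⟨x, hx⟩ := exists_eval_ne_zero Q hQ0 hQd
      rw [hQ, map_mul, MvPolynomial.eval_X, map_prod] at hx
      have hx1 := left_ne_zero_of_mul hx
      have hx2 := right_ne_zero_of_mul hx
      rw [prod_ne_zero_iff] at hx2
      have hval : (⟨x none, fun i s u => x (some (i, s, u))⟩ : Par p).val =
          fun v => algebraMap (ZMod p) (Om p) (x v) := by
        funext v
        rcases v with _ | ⟨i, s, u⟩ <;> rfl
      refine ⟨⟨x none, fun i s u => x (some (i, s, u))⟩, ?_, ?_⟩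
      · intro h
        apply hx1
        change x none = 0 at h
        rw [h, map_zero]
      · intro N' hN' I2 I' hlen2 hlen' hgt t w
        have := huniq hlen hlen2
        subst this
        have hmem : N' ∈ Sh := by
          rw [hSh, mem_filter, mem_range]
          exact ⟨hN', hgt, I', hlen'⟩
        refine hP N' hmem _ ?_ I' hlen' t w
        rw [hval]
        exact hx2 N' hmem
    · refine ⟨⟨1, fun _ _ _ => 0⟩, one_ne_zero, ?_⟩
      intro N' _ I I' hlen
      exact absurd ⟨I, hlen⟩ hN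

  obtain ⟨θ, hθ⟩ := SelAux.strong_choice
    (α := Par p)
    (fun N N' v' v => ∀ I I', IsLen C L I N → IsLen C L I' N' → C ^ (I + 1 - L) < N' →
      ∀ t w : ℕ → ZMod p,
        (Sol C (I' + 1 - L) N' v' (I + 1 - L) N v t w).ncard ≤ 2 ^ L * N0 C ^ 2)
    (fun _ v => v.lam ≠ 0) hstep
  refine ⟨θ, ?_⟩
  intro I N I' N' hlen hlen' hlt hle t w
  rcases hle.lt_or_eq with h | h
  · exact (hθ N).2 N' h I I' hlen hlen' hlt t w
  · subst h
    have := huniq hlen hlen'
    subst this
    refine (pair_self (by omega) hlen (θ N') (hθ N').1 t w).trans ?_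
    exact Nat.le_mul_of_pos_right _ (by positivity)

end

end Pool.Agent.Helper48.ET
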