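import Mathlib

/-! Definitions for the theorem on sets with bounded representation function and counting
function `x^(1/2 - tiny)` (MP_12a1af_nt, Q2). See note 506 / /team-store/ET_note.txt. -/

set_option autoImplicit false

namespace Pool.Agent.Helper48.ET

open Finset

section Alg

variable {Ω : Type*} [Field Ω]

/-- `M` and `W` are inverse `T × T` matrices (given by functions on `ℕ × ℕ`) -/
def IsInv (T : ℕ) (M W : ℕ → ℕ → Ω) : Prop :=
  (∀ i < T, ∀ k < T, ∑ t ∈ range T, M i t * W t k = if i = k then 1 else 0) ∧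
  (∀ i < T, ∀ k < T, ∑ t ∈ range T, W i t * M t k = if i = k then 1 else 0)

/-- the quadratic map `Q` with `M Q(y) = (M y)^2` coordinatewise (`W` inverse to `M`) -/
def Qf (T : ℕ) (M W : ℕ → ℕ → Ω) (y : ℕ → Ω) (j : ℕ) : Ω :=
  ∑ t ∈ range T, W j t * (∑ k ∈ range T, M t k * y k) ^ 2

/-- every homogeneous polynomial of degree `D` is a combination of the forms `F k` of degree `δ k`
with homogeneous coefficients -/
def Generates {σ ι : Type*} [Fintype ι] (D : ℕ) (δ : ι → ℕ)
    (F : ι → MvPolynomial σ Ω) : Prop :=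
  ∀ f : MvPolynomial σ Ω, f.IsHomogeneous D →
    ∃ h : ι → MvPolynomial σ Ω, (∀ k, (h k).IsHomogeneous (D - δ k)) ∧ f = ∑ k, h k * F k

end Alg

section Fields

variable (p : ℕ) [Fact p.Prime]

/-- algebraic closure of `F_p` -/
abbrev Om := AlgebraicClosure (ZMod p)

instance : CharP (Om p) p := charP_of_injective_algebraMap (algebraMap (ZMod p) (Om p)).injective p

instance : ExpChar (Om p) p := ExpChar.prime Fact.out

/-- the subfield of `p ^ n` elements (`n > 0`) -/
def KK (n : ℕ) : Subfield (Om p) where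
  carrier := {y | y ^ (p ^ n) = y}
  mul_mem' := by
    intro a b ha hb
    change (a * b) ^ (p ^ n) = a * b
    rw [mul_pow, ha, hb]
  one_mem' := one_pow _
  add_mem' := by
    intro a b ha hb
    change (a + b) ^ (p ^ n) = a + b
    rw [add_pow_expChar_pow, ha, hb]
  zero_mem' := zero_pow (pow_ne_zero _ (Nat.Prime.ne_zero Fact.out))
  neg_mem' := by
    intro a ha
    change (-a) ^ (p ^ n) = -a
    have h := sub_pow_expChar_pow (p := p) (n := n) (0 : Om p) a
    rw [zero_sub, zero_pow (pow_ne_zero _ (Nat.Prime.ne_zero Fact.out)), zero_sub] at h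
    rw [h]
    exact congrArg Neg.neg ha
  inv_mem' := by
    intro a ha
    change (a⁻¹) ^ (p ^ n) = a⁻¹
    rw [inv_pow]
    exact congrArg Inv.inv ha

variable {p}

theorem mem_KK {n : ℕ} {y : Om p} : y ∈ KK p n ↔ y ^ (p ^ n) = y := Iff.rfl

theorem pow_pow_KK {n : ℕ} {y : Om p} (h : y ∈ KK p n) (t : ℕ) : y ^ ((p ^ n) ^ t) = y := by
  induction t with
  | zero => simp
  | succ t ih => rw [pow_succ, pow_mul, ih]; exact h

theorem KK_mono {m n : ℕ} (h : m ∣ n) : KK p m ≤ KK p n := by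
  obtain ⟨t, rfl⟩ := h
  intro y hy
  have := pow_pow_KK hy t
  rw [← pow_mul] at this
  exact this

theorem algebraMap_mem_KK (n : ℕ) (a : ZMod p) : algebraMap (ZMod p) (Om p) a ∈ KK p n := by
  rw [mem_KK, ← map_pow, ZMod.pow_card_pow]

variable (p)

/-- `E 0, …, E (c-1)` is a basis of `KK p (m * c)` over `KK p m` -/
structure RelBasis (m c : ℕ) (E : ℕ → Om p) : Prop where
  mem : ∀ s < c, E s ∈ KK p (m * c)
  span : ∀ y ∈ KK p (m * c), ∃ k : ℕ → Om p, (∀ s, k s ∈ KK p m) ∧ y = ∑ s ∈ range c, k s * E s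
  indep : ∀ k : ℕ → Om p, (∀ s, k s ∈ KK p m) → ∑ s ∈ range c, k s * E s = 0 → ∀ s < c, k s = 0

open Classical in
/-- a chosen basis of `KK p (m * c)` over `KK p m` -/
noncomputable def eb (m c : ℕ) : ℕ → Om p :=
  if h : ∃ E, RelBasis p m c E then Classical.choose h else 0

variable (C : ℕ)

/-- level-`i` cell `u` of the digit sequence `x` (it encodes the digits in
`[u * C ^ i, (u + 1) * C ^ i)`) -/
noncomputable def cell (x : ℕ → ZMod p) : ℕ → ℕ → Om p
  | 0, u => algebraMap (ZMod p) (Om p) (x u)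
  | i + 1, u => ∑ s ∈ range C, cell x i (C * u + s) * eb p (C ^ i) C s

/-- number of level-`i` cells structured at level `≥ i` for the parameter `κ` -/
def mm (κ i : ℕ) : ℕ := (κ - C ^ i) / (2 * C ^ i)

/-- number of level-`i` cells of block `i` -/
def cc (κ i : ℕ) : ℕ := mm C κ i - C * mm C κ (i + 1)

/-- parameters of the code of one length -/
structure Par where
  lam : ZMod p
  tau : ℕ → ℕ → ℕ → ZMod p

variable {p}

/-- the parameters as a function into `Om p` -/
noncomputable def Par.val (θ : Par p) : Option (ℕ × ℕ × ℕ) → Om p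
  | none => algebraMap (ZMod p) (Om p) θ.lam
  | some (i, s, u) => algebraMap (ZMod p) (Om p) (θ.tau i s u)

/-- the linear twist at level `i` -/
noncomputable def tw (κ : ℕ) (θ : Par p) (x : ℕ → ZMod p) (i s : ℕ) : Om p :=
  if s < 2 then ∑ u ∈ range (C * mm C κ (i + 1)), θ.val (some (i, s, u)) * cell p C x i u else 0

/-- the relation between the `x`-digits and `z`-digits of block `i` -/
def BlockRel (κ : ℕ) (θ : Par p) (x z : ℕ → ZMod p) (i : ℕ) : Prop :=
  ∑ s ∈ range (cc C κ i), (cell p C z i (C * mm C κ (i + 1) + s) - tw C κ θ x i s) *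
      eb p (C ^ i) (cc C κ i) s =
    θ.val none * (∑ s ∈ range (cc C κ i), cell p C x i (C * mm C κ (i + 1) + s) *
      eb p (C ^ i) (cc C κ i) s) ^ 2

/-- code words of length `N` with finest level `b` -/
structure IsCode (b N : ℕ) (θ : Par p) (x z : ℕ → ZMod p) : Prop where
  xs : ∀ u, N ≤ u → x u = 0
  zs : ∀ u, N ≤ u → z u = 0
  rel : ∀ i, b ≤ i → BlockRel C (2 * N + C ^ b) θ x z i

/-- `x`-parts of the solutions of `(x, z) + (x', z') = (t, w)`, `(x, z)` a code word of length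
`N'`, `(x', z')` one of length `N` -/
def Sol (b' N' : ℕ) (θ' : Par p) (b N : ℕ) (θ : Par p) (t w : ℕ → ZMod p) :
    Set (ℕ → ZMod p) :=
  {x | ∃ z, IsCode C b' N' θ' x z ∧ IsCode C b N θ (t - x) (w - z)}

/-- truncation -/
def trunc (q : ℕ) (x : ℕ → ZMod p) : ℕ → ZMod p := fun u => if u < q then x u else 0

/-- given the digits below `q` there are at most `c` options for the digits below `q'` -/
def FB (S : Set (ℕ → ZMod p)) (q q' c : ℕ) : Prop :=
  ∀ x ∈ S, (trunc q' '' {y | y ∈ S ∧ trunc q y = trunc q x}).Finite ∧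
    (trunc q' '' {y | y ∈ S ∧ trunc q y = trunc q x}).ncard ≤ c

end Fields

/-- bound for the number of solutions of the local systems -/
def N0 (C : ℕ) : ℕ := (2 * C ^ 4 + 1) ^ (2 * C ^ 4)

/-- bound for the degree of the local conditions -/
def Del (C : ℕ) : ℕ := (2 * C ^ 4 + 2) ^ (2 * C ^ 4)

/-- `N` is a length of epoch `I` -/
structure IsLen (C L I N : ℕ) : Prop where
  hI : 2 * L ≤ I
  lo : C ^ I ≤ N
  hi : N < C ^ (I + 1)
  dvd : C ^ (I + 1 - L) ∣ N

/-- the integer with digits `x 0, z 0, x 1, z 1, …, x (N-1), z (N-1)` in base `2 p` -/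
def enc {p : ℕ} (N : ℕ) (x z : ℕ → ZMod p) : ℕ :=
  ∑ u ∈ range N, ((x u).val + 2 * p * (z u).val) * (2 * p) ^ (2 * u)

/-- the elements of length `N` (epoch `I`): the digits `x u`, `u < C ^ b`, vanish
(`b = I + 1 - L`), the digits `x (C ^ j - 2)` vanish for `b < j < I`, the digit `x (C ^ I - 2)`
is the label `N / C ^ b`, the top digit `x (N - 1)` is `1` -/
def AN {p : ℕ} [Fact p.Prime] (C L I N : ℕ) (θ : Par p) : Set ℕ :=
  {n | ∃ x z : ℕ → ZMod p, IsCode C (I + 1 - L) N θ x z ∧ (∀ u < C ^ (I + 1 - L), x u = 0) ∧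
    (∀ j, I + 1 - L < j → j < I → x (C ^ j - 2) = 0) ∧
    x (C ^ I - 2) = ((N / C ^ (I + 1 - L) : ℕ) : ZMod p) ∧ x (N - 1) = 1 ∧ n = enc N x z}

/-- the set -/
def AA {p : ℕ} [Fact p.Prime] (C L : ℕ) (θ : ℕ → Par p) : Set ℕ :=
  {n | ∃ I N, IsLen C L I N ∧ n ∈ AN C L I N (θ N)}

end Pool.Agent.Helper48.ET
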