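import Pool.Agent.Helper48.ET.GrowthCard

/-! Piece W2: growth of the counting function. -/

set_option autoImplicit false

namespace Pool.Agent.Helper48.ET

open Finset

/-- the real inequality behind `growth` -/
theorem growth_real {C L K I N y : ℕ} {lp : ℝ} (hC : 8 ≤ C) (hL : 4 ≤ L) (hlp : 0 < lp)
    (hp : Real.log 2 ≤ (C : ℝ) ^ (-(L : ℝ)) * lp) (hI : 2 * L ≤ I) (hN : C ^ I ≤ N)
    (hK : K < N + C ^ (I + 1 - L)) (hy0 : 0 < y)
    (hy : Real.log y ≤ 2 * (K + 1) * (Real.log 2 + lp)) :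
    ((1 : ℝ) / 2 - 2 * (C : ℝ) ^ (1 - (L : ℝ))) * Real.log y ≤
      ((N - C ^ (I + 1 - L) - L : ℕ) : ℝ) * lp := by
  have hCr : (8 : ℝ) ≤ C := by exact_mod_cast hC
  have hC0 : (0 : ℝ) < C := by linarith
  have hLr : (4 : ℝ) ≤ L := by exact_mod_cast hL
  set ε : ℝ := (C : ℝ) ^ (1 - (L : ℝ)) with hε
  have hε0 : 0 < ε := Real.rpow_pos_of_pos hC0 _
  -- `C ^ (-L) = ε / C ≤ ε / 8`
  have hδ : (C : ℝ) ^ (-(L : ℝ)) ≤ ε / 8 := by
    have h1 : (C : ℝ) ^ (-(L : ℝ)) = ε / C := by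
      rw [hε, eq_div_iff hC0.ne']
      conv_lhs => rw [← Real.rpow_one (C : ℝ)]
      rw [← Real.rpow_mul hC0.le, ← Real.rpow_add hC0]
      congr 1; ring
    rw [h1]
    exact div_le_div_of_nonneg_left hε0.le (by norm_num) hCr
  -- `a = C ^ I * ε`
  set a : ℝ := ((C ^ (I + 1 - L) : ℕ) : ℝ) with ha
  have haε : a = (C : ℝ) ^ I * ε := by
    rw [ha, hε, ← Real.rpow_natCast, ← Real.rpow_add hC0]
    push_cast
    rw [← Real.rpow_natCast]
    congr 1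
    rw [Nat.cast_sub (by omega)]
    push_cast; ring
  have hNr : (C : ℝ) ^ I ≤ N := by exact_mod_cast hN
  have haN : a ≤ N * ε := by rw [haε]; exact mul_le_mul_of_nonneg_right hNr hε0.le
  have hN0 : (0 : ℝ) < N := lt_of_lt_of_le (by positivity) hNr
  -- `L ≤ N * ε`
  have hLN : (L : ℝ) ≤ N * ε := by
    have h1 : (C : ℝ) ^ (2 * L) ≤ N :=
      le_trans (pow_le_pow_right₀ (by linarith) hI) hNr
    have h2 : (C : ℝ) ^ (2 * L) * ε = (C : ℝ) ^ (L + 1) := by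
      rw [hε, ← Real.rpow_natCast, ← Real.rpow_natCast, ← Real.rpow_add hC0]
      congr 1
      push_cast; ring
    have h3 : (L : ℝ) ≤ (C : ℝ) ^ (L + 1) := by
      have h4 : L < C ^ (L + 1) :=
        lt_of_lt_of_le (Nat.lt_pow_self (by omega : 1 < C))
          (Nat.pow_le_pow_right (by omega) (Nat.le_succ L))
      exact_mod_cast h4.le
    calc (L : ℝ) ≤ (C : ℝ) ^ (L + 1) := h3
      _ = (C : ℝ) ^ (2 * L) * ε := h2.symm
      _ ≤ N * ε := mul_le_mul_of_nonneg_right h1 hε0.le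
  have hε1 : ε ≤ 1 / 512 := by
    have h1 : ε ≤ (C : ℝ) ^ (-(3 : ℝ)) :=
      Real.rpow_le_rpow_of_exponent_le (by linarith) (by linarith)
    have h2 : (C : ℝ) ^ (-(3 : ℝ)) = ((C : ℝ) ^ 3)⁻¹ := by
      rw [Real.rpow_neg hC0.le]
      norm_num
    have h3 : ((C : ℝ) ^ 3)⁻¹ ≤ ((8 : ℝ) ^ 3)⁻¹ := by
      apply inv_anti₀ (by norm_num); gcongr
    calc ε ≤ ((C : ℝ) ^ 3)⁻¹ := by rw [← h2]; exact h1
      _ ≤ ((8 : ℝ) ^ 3)⁻¹ := h3
      _ = 1 / 512 := by norm_num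
  have hly : 0 ≤ Real.log y := Real.log_nonneg (by exact_mod_cast hy0)
  have hKr : (K : ℝ) + 1 ≤ N + a := by
    have h1 : K + 1 ≤ N + C ^ (I + 1 - L) := hK
    rw [ha]; exact_mod_cast h1
  have hlog2 : Real.log 2 ≤ ε / 8 * lp :=
    hp.trans (mul_le_mul_of_nonneg_right hδ hlp.le)
  have hlog2' : 0 < Real.log 2 := Real.log_pos (by norm_num)
  -- upper bound for `log y`
  have hy1 : Real.log y ≤ 2 * (N * (1 + ε)) * ((1 + ε / 8) * lp) := by
    refine hy.trans ?_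
    refine mul_le_mul ?_ ?_ (by positivity) (by positivity)
    · nlinarith
    · linarith
  have h5 : ((1 : ℝ) / 2 - 2 * ε) * Real.log y ≤
      (1 / 2 - 2 * ε) * (2 * (N * (1 + ε)) * ((1 + ε / 8) * lp)) :=
    mul_le_mul_of_nonneg_left hy1 (by linarith)
  have h6 : (N : ℝ) - a - L ≤ ((N - C ^ (I + 1 - L) - L : ℕ) : ℝ) := by
    rw [ha]
    have h7 : N ≤ (N - C ^ (I + 1 - L) - L) + C ^ (I + 1 - L) + L := by omega
    have h8 : (N : ℝ) ≤ ((N - C ^ (I + 1 - L) - L : ℕ) : ℝ) + ((C ^ (I + 1 - L) : ℕ) : ℝ) + L := by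
      exact_mod_cast h7
    linarith
  have h7 : ((N : ℝ) - a - L) * lp ≤ ((N - C ^ (I + 1 - L) - L : ℕ) : ℝ) * lp :=
    mul_le_mul_of_nonneg_right h6 hlp.le
  have h8 : (N : ℝ) * (1 - 2 * ε) * lp ≤ ((N : ℝ) - a - L) * lp :=
    mul_le_mul_of_nonneg_right (by linarith) hlp.le
  have h9 : (1 / 2 - 2 * ε) * (2 * (N * (1 + ε)) * ((1 + ε / 8) * lp)) ≤
      (N : ℝ) * (1 - 2 * ε) * lp := by
    have h10 : (1 / 2 - 2 * ε) * (2 * (N * (1 + ε)) * ((1 + ε / 8) * lp)) =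
        (N * lp) * ((1 - 4 * ε) * (1 + ε) * (1 + ε / 8)) := by ring
    have h11 : (N : ℝ) * (1 - 2 * ε) * lp = (N * lp) * (1 - 2 * ε) := by ring
    rw [h10, h11]
    refine mul_le_mul_of_nonneg_left ?_ (by positivity)
    nlinarith [sq_nonneg ε, mul_pos hε0 hε0, mul_pos (mul_pos hε0 hε0) hε0]
  linarith

section

variable {p : ℕ} [Fact p.Prime]

/-- growth of the counting function -/
theorem growth {C L : ℕ} (hC : 8 ≤ C) (hL : 4 ≤ L)
    (hp : Real.log 2 ≤ (C : ℝ) ^ (-(L : ℝ)) * Real.log p) (θ : ℕ → Par p) :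
    ∀ᶠ y : ℕ in Filter.atTop, (y : ℝ) ^ ((1 : ℝ) / 2 - 2 * (C : ℝ) ^ (1 - (L : ℝ))) ≤
      ((AA C L θ ∩ Set.Iio y).ncard : ℝ) := by
  have hp2 : 2 ≤ p := (Fact.out : p.Prime).two_le
  filter_upwards [Filter.eventually_ge_atTop (((2 * p) ^ 2) ^ (C ^ (2 * L)))] with y hy
  have hb1 : 1 < (2 * p) ^ 2 := by nlinarith
  have hy0 : y ≠ 0 := by
    have : 0 < ((2 * p) ^ 2) ^ (C ^ (2 * L)) := by positivity
    omega
  set K := Nat.log ((2 * p) ^ 2) y with hKdef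
  have hK1 : C ^ (2 * L) ≤ K := Nat.le_log_of_pow_le hb1 hy
  have hKle : ((2 * p) ^ 2) ^ K ≤ y := Nat.pow_log_le_self _ hy0
  have hKlt : y < ((2 * p) ^ 2) ^ (K + 1) := Nat.lt_pow_succ_log_self hb1 y
  have hK0 : K ≠ 0 := by
    have : 0 < C ^ (2 * L) := by positivity
    omega
  set I := Nat.log C K with hIdef
  have hI1 : 2 * L ≤ I := Nat.le_log_of_pow_le (by omega) hK1
  have hIle : C ^ I ≤ K := Nat.pow_log_le_self _ hK0
  have hIlt : K < C ^ (I + 1) := Nat.lt_pow_succ_log_self (by omega) K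
  set a := C ^ (I + 1 - L) with ha
  have ha0 : 0 < a := by positivity
  set N := K / a * a with hNdef
  have hNK : N ≤ K := Nat.div_mul_le_self K a
  have hKN : K < N + a := by
    have := Nat.lt_div_mul_add (a := K) ha0
    exact this
  have hdvd : a ∣ N := Dvd.intro_left _ rfl
  have hadvd : a ∣ C ^ I := pow_dvd_pow C (by omega)
  have hIN : C ^ I ≤ N := by
    obtain ⟨r, hr⟩ := hadvd
    have h1 : r ≤ K / a := by
      rw [Nat.le_div_iff_mul_le ha0, mul_comm, ← hr]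
      exact hIle
    rw [hr, hNdef, mul_comm a r]
    exact Nat.mul_le_mul_right a h1
  have hlen : IsLen C L I N := ⟨hI1, hIN, lt_of_le_of_lt hNK hIlt, hdvd⟩
  have hcard := AN_card hC hL hlen (θ N)
  have hsub : AN C L I N (θ N) ⊆ AA C L θ ∩ Set.Iio y := by
    intro n hn
    refine ⟨⟨I, N, hlen, hn⟩, ?_⟩
    have h1 := AN_lt hn
    have h2 : (2 * p) ^ (2 * N) ≤ y := by
      rw [pow_mul]
      exact le_trans (Nat.pow_le_pow_right (by omega) hNK) hKle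
    exact lt_of_lt_of_le h1 h2
  have hfin : (AA C L θ ∩ Set.Iio y).Finite := (Set.finite_Iio y).subset Set.inter_subset_right
  have hcard2 : p ^ (N - a - L) ≤ (AA C L θ ∩ Set.Iio y).ncard :=
    hcard.trans (Set.ncard_le_ncard hsub hfin)
  have hlp : 0 < Real.log p := Real.log_pos (by exact_mod_cast (by omega : 1 < p))
  have hyr : (0 : ℝ) < y := by exact_mod_cast Nat.pos_of_ne_zero hy0
  have hpr : (0 : ℝ) < p := by exact_mod_cast (by omega : 0 < p)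
  have hlogy : Real.log y ≤ 2 * (K + 1) * (Real.log 2 + Real.log p) := by
    have h1 : (y : ℝ) ≤ ((2 * p) ^ 2) ^ (K + 1) := by exact_mod_cast hKlt.le
    have h2 := Real.log_le_log hyr h1
    rw [Real.log_pow, Real.log_pow, Real.log_mul (by norm_num) hpr.ne'] at h2
    push_cast at h2
    linarith
  have hmain := growth_real (K := K) hC hL hlp hp hI1 hIN hKN (Nat.pos_of_ne_zero hy0) hlogy
  calc (y : ℝ) ^ ((1 : ℝ) / 2 - 2 * (C : ℝ) ^ (1 - (L : ℝ)))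
      = Real.exp (((1 : ℝ) / 2 - 2 * (C : ℝ) ^ (1 - (L : ℝ))) * Real.log y) := by
        rw [Real.rpow_def_of_pos hyr, mul_comm]
    _ ≤ Real.exp (((N - a - L : ℕ) : ℝ) * Real.log p) := Real.exp_le_exp.mpr hmain
    _ = (p : ℝ) ^ (N - a - L) := by
        rw [← Real.rpow_natCast, Real.rpow_def_of_pos hpr, mul_comm]
    _ ≤ ((AA C L θ ∩ Set.Iio y).ncard : ℝ) := by exact_mod_cast hcard2

end

end Pool.Agent.Helper48.ET
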