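import Pool.Agent.Helper48.ET.IntsCore
import Pool.Agent.Helper48.ET.Code

/-! Piece I: integers, labels, bound for the number of representations (MP_12a1af_nt);
`enc_add` is in `IntsCore`. -/

set_option autoImplicit false

namespace Pool.Agent.Helper48.ET

open Finset

section

variable {p : ℕ} [Fact p.Prime]

/-- bound for the number of representations -/
theorem rep_bound {C L : ℕ} (hC : 8 ≤ C) (hL : 4 ≤ L) (hp : C ^ L < p) (θ : ℕ → Par p) (B : ℕ)
    (hB : 1 ≤ B)
    (hθ : ∀ I N I' N', IsLen C L I N → IsLen C L I' N' → C ^ (I + 1 - L) < N' →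
      N' ≤ N → ∀ t w : ℕ → ZMod p,
        (Sol C (I' + 1 - L) N' (θ N') (I + 1 - L) N (θ N) t w).ncard ≤ B) (n : ℕ) :
    {q : ℕ × ℕ | q.1 ∈ AA C L θ ∧ q.2 ∈ AA C L θ ∧ q.1 + q.2 = n}.ncard ≤ 2 * B :=
  rep_bound_of (fun hN θ _ _ _ h h' => code_unique (by omega) hN θ h h') hC hL hp θ B hB hθ n

end

end Pool.Agent.Helper48.ET
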