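import Pool.Agent.Helper48.ET.SelectOf
import Pool.Agent.Helper48.ET.Pair

set_option autoImplicit false

namespace Pool.Agent.Helper48.ET

variable {p : ℕ} [Fact p.Prime]

theorem select {C L : ℕ} (hC : 8 ≤ C) (hev : Even C) (hL : 4 ≤ L)
    (hp : C ^ (2 * L) * (2 * Del C + 1) + 2 < p) :
    ∃ θ : ℕ → Par p, ∀ I N I' N', IsLen C L I N → IsLen C L I' N' → C ^ (I + 1 - L) < N' →
      N' ≤ N → ∀ t w : ℕ → ZMod p,
        (Sol C (I' + 1 - L) N' (θ N') (I + 1 - L) N (θ N) t w).ncard ≤ 2 ^ L * N0 C ^ 2 :=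
  select_of hC hev hL hp (fun h1 h2 h3 θ' => pair_lt hC hev hL h1 h2 h3 θ')
    (fun hp2 _ _ hlen θ hlam t w => pair_self hC hL hp2 hlen θ hlam t w)

end Pool.Agent.Helper48.ET
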