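import Pool.Agent.Helper48.ET.Params
import Pool.Agent.Helper48.ET.Select
import Pool.Agent.Helper48.ET.Ints
import Pool.Agent.Helper48.ET.Growth

set_option autoImplicit false

namespace Pool.Agent.Helper48.ET

open Finset

theorem infinite_of_growth {A : Set ℕ} {e : ℝ} (he : 0 < e)
    (h : ∀ᶠ y : ℕ in Filter.atTop, (y : ℝ) ^ e ≤ ((A ∩ Set.Iio y).ncard : ℝ)) : A.Infinite := by
  intro hfin
  have h1 : Filter.Tendsto (fun y : ℕ => (y : ℝ) ^ e) Filter.atTop Filter.atTop :=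
    (tendsto_rpow_atTop he).comp tendsto_natCast_atTop_atTop
  obtain ⟨y, hy1, hy2⟩ := ((h1.eventually_gt_atTop (A.ncard : ℝ)).and h).exists
  have h2 : (A ∩ Set.Iio y).ncard ≤ A.ncard := Set.ncard_le_ncard Set.inter_subset_left hfin
  have h3 : ((A ∩ Set.Iio y).ncard : ℝ) ≤ (A.ncard : ℝ) := by exact_mod_cast h2
  linarith

theorem exponent_pos {C L : ℕ} (hC : 8 ≤ C) (hL : 4 ≤ L) :
    0 < (1 : ℝ) / 2 - 2 * (C : ℝ) ^ (1 - (L : ℝ)) := by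
  have hC' : (8 : ℝ) ≤ C := by exact_mod_cast hC
  have hL' : (4 : ℝ) ≤ L := by exact_mod_cast hL
  have h1 : (C : ℝ) ^ (1 - (L : ℝ)) ≤ (C : ℝ) ^ (-(1 : ℝ)) :=
    Real.rpow_le_rpow_of_exponent_le (by linarith) (by linarith)
  have h2 : (C : ℝ) ^ (-(1 : ℝ)) ≤ (8 : ℝ) ^ (-(1 : ℝ)) :=
    Real.rpow_le_rpow_of_nonpos (by norm_num) hC' (by norm_num)
  have h3 : (8 : ℝ) ^ (-(1 : ℝ)) = 1 / 8 := by rw [Real.rpow_neg_one]; norm_num
  have h4 : (C : ℝ) ^ (1 - (L : ℝ)) ≤ 1 / 8 := h1.trans (h2.trans h3.le)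
  linarith

theorem main : ∃ c : ℝ, 0 < c ∧ ∃ g0 : ℕ, ∀ g : ℕ, g0 ≤ g → ∃ A : Set ℕ, A.Infinite ∧
    (∀ n : ℕ, {q : ℕ × ℕ | q.1 ∈ A ∧ q.2 ∈ A ∧ q.1 + q.2 = n}.ncard ≤ g) ∧
    ∀ᶠ x : ℕ in Filter.atTop,
      (x : ℝ) ^ ((1 : ℝ) / 2 - (g : ℝ) ^ (-(c * Real.log (Real.log g)))) ≤
        ((A ∩ Set.Iio x).ncard : ℝ) := by
  obtain ⟨c, hc, g0, h⟩ := params
  refine ⟨c, hc, g0, ?_⟩
  intro g hg
  obtain ⟨C, L, hC, hev, hL, h1, h2⟩ := h g hg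
  have hC0 : (0 : ℝ) < (C : ℝ) ^ (-(L : ℝ)) :=
    Real.rpow_pos_of_pos (by exact_mod_cast (by omega : 0 < C)) _
  -- choice of the prime
  have htend : Filter.Tendsto (fun n : ℕ => (C : ℝ) ^ (-(L : ℝ)) * Real.log n) Filter.atTop
      Filter.atTop :=
    Filter.Tendsto.const_mul_atTop hC0 (Real.tendsto_log_atTop.comp tendsto_natCast_atTop_atTop)
  obtain ⟨n1, hn1⟩ := Filter.eventually_atTop.mp (htend.eventually_ge_atTop (Real.log 2))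
  obtain ⟨p, hp, hpp⟩ := Nat.exists_infinite_primes
    (n1 + C ^ (2 * L) * (2 * Del C + 1) + 3 + C ^ L)
  have : Fact p.Prime := ⟨hpp⟩
  obtain ⟨θ, hθ⟩ := select (p := p) hC hev hL (by omega)
  have hgrow := growth (p := p) hC hL (hn1 p (by omega)) θ
  have hN0 : 1 ≤ 2 ^ L * N0 C ^ 2 := Nat.one_le_iff_ne_zero.mpr (by
    unfold N0; positivity)
  refine ⟨AA C L θ, infinite_of_growth (exponent_pos hC hL) hgrow, ?_, ?_⟩
  · intro n
    exact (rep_bound hC hL (by omega) θ _ hN0 hθ n).trans h1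
  · filter_upwards [hgrow, Filter.eventually_ge_atTop 1] with x hx hx1
    refine le_trans (Real.rpow_le_rpow_of_exponent_le (by exact_mod_cast hx1) ?_) hx
    linarith

end Pool.Agent.Helper48.ET
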