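import Pool.Agent.Helper48.ET.Defs

/-! Piece A: generic surjectivity (helper39). -/

set_option autoImplicit false

namespace Pool.Agent.Helper48.ET

open Finset

theorem gen_surj {Ω X Y V : Type*} [Field Ω] [Fintype V] [AddCommGroup X] [Module Ω X]
    [AddCommGroup Y] [Module Ω Y] [FiniteDimensional Ω Y] (Φ0 : X →ₗ[Ω] Y)
    (Φ : V → (X →ₗ[Ω] Y)) (θ0 : V → Ω) (h : Function.Surjective (Φ0 + ∑ v, θ0 v • Φ v)) :
    ∃ P : MvPolynomial V Ω, P ≠ 0 ∧ P.totalDegree ≤ Module.finrank Ω Y ∧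
      ∀ θ : V → Ω, MvPolynomial.eval θ P ≠ 0 → Function.Surjective (Φ0 + ∑ v, θ v • Φ v) := by
  classical
  obtain ⟨B, hB⟩ := LinearMap.exists_rightInverse_of_surjective _
    (LinearMap.range_eq_top.2 h)
  let b := Module.finBasis Ω Y
  let M0 := LinearMap.toMatrix b b (Φ0 ∘ₗ B)
  let Mv := fun v => LinearMap.toMatrix b b (Φ v ∘ₗ B)
  let 𝓜 : Matrix (Fin (Module.finrank Ω Y)) (Fin (Module.finrank Ω Y)) (MvPolynomial V Ω) :=
    fun i j => MvPolynomial.C (M0 i j) + ∑ v, MvPolynomial.X v * MvPolynomial.C (Mv v i j)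
  have heval : ∀ θ : V → Ω, MvPolynomial.eval θ 𝓜.det =
      LinearMap.det ((Φ0 + ∑ v, θ v • Φ v) ∘ₗ B) := by
    intro θ
    rw [RingHom.map_det, ← LinearMap.det_toMatrix b]
    congr 1
    ext i j
    have h1 : (Φ0 + ∑ v, θ v • Φ v) ∘ₗ B = Φ0 ∘ₗ B + ∑ v, θ v • (Φ v ∘ₗ B) := by
      ext y
      simp
    rw [h1, map_add, map_sum]
    change MvPolynomial.eval θ (𝓜 i j) = _
    simp only [map_smul, Matrix.add_apply,
      Matrix.sum_apply, Matrix.smul_apply, smul_eq_mul, 𝓜, map_add, map_sum, map_mul,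
      MvPolynomial.eval_C, MvPolynomial.eval_X]
    rfl
  refine ⟨𝓜.det, ?_, ?_, ?_⟩
  · intro h0
    have h1 := heval θ0
    rw [h0, hB, LinearMap.det_id, map_zero] at h1
    exact zero_ne_one h1
  · rw [Matrix.det_apply]
    apply MvPolynomial.totalDegree_finsetSum_le
    intro σ _
    have h2 : (Equiv.Perm.sign σ • ∏ i, 𝓜 (σ i) i).totalDegree ≤ (∏ i, 𝓜 (σ i) i).totalDegree := by
      rcases Int.units_eq_one_or (Equiv.Perm.sign σ) with hs | hs
      · rw [hs, one_smul]
      · rw [hs, Units.neg_smul, one_smul, MvPolynomial.totalDegree_neg]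
    refine h2.trans ((MvPolynomial.totalDegree_finsetProd _ _).trans ?_)
    have h3 : ∀ i ∈ (Finset.univ : Finset (Fin (Module.finrank Ω Y))),
        (𝓜 (σ i) i).totalDegree ≤ 1 := by
      intro i _
      refine (MvPolynomial.totalDegree_add _ _).trans (max_le ?_ ?_)
      · rw [MvPolynomial.totalDegree_C]
        exact Nat.zero_le _
      · apply MvPolynomial.totalDegree_finsetSum_le
        intro v _
        refine (MvPolynomial.totalDegree_mul _ _).trans ?_
        rw [MvPolynomial.totalDegree_C, MvPolynomial.totalDegree_X]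
    refine (Finset.sum_le_sum h3).trans ?_
    simp
  · intro θ hθ
    rw [heval] at hθ
    have h4 : Function.Surjective ((Φ0 + ∑ v, θ v • Φ v) ∘ₗ B) :=
      ((Module.End.isUnit_iff _).1 ((LinearMap.isUnit_iff_isUnit_det _).2
        (isUnit_iff_ne_zero.2 hθ))).2
    rw [LinearMap.coe_comp] at h4
    exact h4.of_comp

theorem finrank_homogeneous_le {Ω : Type*} [Field Ω] (n D : ℕ) :
    FiniteDimensional Ω (MvPolynomial.homogeneousSubmodule (Fin n) Ω D) ∧
    Module.finrank Ω (MvPolynomial.homogeneousSubmodule (Fin n) Ω D) ≤ (D + 1) ^ n := by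
  classical
  let G : (Fin n → Fin (D + 1)) → MvPolynomial (Fin n) Ω := fun a =>
    MvPolynomial.monomial (Finsupp.equivFunOnFinite.symm (fun i => (a i : ℕ))) 1
  have hle : MvPolynomial.homogeneousSubmodule (Fin n) Ω D ≤ Submodule.span Ω (Set.range G) := by
    intro p hp
    rw [MvPolynomial.mem_homogeneousSubmodule] at hp
    rw [p.as_sum]
    refine Submodule.sum_mem _ fun d hd => ?_
    rw [MvPolynomial.mem_support_iff] at hd
    have h1 : d.degree = D := by
      rw [Finsupp.degree_eq_weight_one]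
      exact hp hd
    have h2 : ∀ i, d i < D + 1 := fun i => by
      have := Finsupp.le_degree i d
      omega
    have h3 : MvPolynomial.monomial d (MvPolynomial.coeff d p) =
        MvPolynomial.coeff d p • G (fun i => ⟨d i, h2 i⟩) := by
      simp only [G, MvPolynomial.smul_monomial, smul_eq_mul, mul_one]
      congr 1
      ext i
      simp
    rw [h3]
    exact Submodule.smul_mem _ _ (Submodule.subset_span ⟨_, rfl⟩)
  have hfin : FiniteDimensional Ω (Submodule.span Ω (Set.range G)) :=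
    FiniteDimensional.span_of_finite Ω (Set.finite_range G)
  have hfd := Submodule.finiteDimensional_of_le hle
  refine ⟨hfd, (Submodule.finrank_mono hle).trans ((finrank_range_le_card G).trans ?_)⟩
  simp

/-- multiplication by a family of forms -/
noncomputable def genMap {Ω ι : Type*} [Field Ω] [Fintype ι] {n D : ℕ} (δ : ι → ℕ)
    (hδ : ∀ k, δ k ≤ D) (F : ι → MvPolynomial (Fin n) Ω) (hF : ∀ k, (F k).IsHomogeneous (δ k)) :
    (∀ k, MvPolynomial.homogeneousSubmodule (Fin n) Ω (D - δ k)) →ₗ[Ω]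
      MvPolynomial.homogeneousSubmodule (Fin n) Ω D where
  toFun h := ⟨∑ k, (h k : MvPolynomial (Fin n) Ω) * F k, by
    rw [MvPolynomial.mem_homogeneousSubmodule]
    refine MvPolynomial.IsHomogeneous.sum _ _ _ fun k _ => ?_
    have h1 := ((MvPolynomial.mem_homogeneousSubmodule _ _).1 (h k).2).mul (hF k)
    rwa [Nat.sub_add_cancel (hδ k)] at h1⟩
  map_add' a b := Subtype.ext (by
    simp only [Pi.add_apply, Submodule.coe_add, add_mul, Finset.sum_add_distrib])
  map_smul' c a := Subtype.ext (by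
    simp only [Pi.smul_apply, Submodule.coe_smul, smul_mul_assoc, RingHom.id_apply,
      Finset.smul_sum])

theorem generates_iff_surj {Ω ι : Type*} [Field Ω] [Fintype ι] {n D : ℕ} (δ : ι → ℕ)
    (hδ : ∀ k, δ k ≤ D) (F : ι → MvPolynomial (Fin n) Ω) (hF : ∀ k, (F k).IsHomogeneous (δ k)) :
    Generates D δ F ↔ Function.Surjective (genMap δ hδ F hF) := by
  constructor
  · rintro h ⟨f, hf⟩
    obtain ⟨g, hg, hfg⟩ := h f ((MvPolynomial.mem_homogeneousSubmodule _ _).1 hf)
    exact ⟨fun k => ⟨g k, (MvPolynomial.mem_homogeneousSubmodule _ _).2 (hg k)⟩,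
      Subtype.ext hfg.symm⟩
  · intro h f hf
    obtain ⟨g, hg⟩ := h ⟨f, (MvPolynomial.mem_homogeneousSubmodule _ _).2 hf⟩
    exact ⟨fun k => g k, fun k => (MvPolynomial.mem_homogeneousSubmodule _ _).1 (g k).2,
      (congrArg Subtype.val hg).symm⟩

/-- Apply `gen_surj` to `X = Π k, homogeneousSubmodule (D - δ k)`, `Y = homogeneousSubmodule D`
(`finrank Y ≤ (D+1)^n` = number of exponent vectors with entries `≤ D`). -/
theorem generates_open {Ω ι V : Type*} [Field Ω] [Fintype ι] [Fintype V] {n D : ℕ} (δ : ι → ℕ)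
    (hδ : ∀ k, δ k ≤ D) (F0 : ι → MvPolynomial (Fin n) Ω) (F : V → ι → MvPolynomial (Fin n) Ω)
    (h0 : ∀ k, (F0 k).IsHomogeneous (δ k)) (hF : ∀ v k, (F v k).IsHomogeneous (δ k)) (θ0 : V → Ω)
    (hg : Generates D δ (fun k => F0 k + ∑ v, MvPolynomial.C (θ0 v) * F v k)) :
    ∃ P : MvPolynomial V Ω, P ≠ 0 ∧ P.totalDegree ≤ (D + 1) ^ n ∧
      ∀ θ : V → Ω, MvPolynomial.eval θ P ≠ 0 →
        Generates D δ (fun k => F0 k + ∑ v, MvPolynomial.C (θ v) * F v k) := by
  obtain ⟨hfd, hrank⟩ := finrank_homogeneous_le (Ω := Ω) n D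
  have hhom : ∀ (θ : V → Ω) (k : ι),
      (F0 k + ∑ v, MvPolynomial.C (θ v) * F v k).IsHomogeneous (δ k) := by
    intro θ k
    refine (h0 k).add (MvPolynomial.IsHomogeneous.sum _ _ _ fun v _ => ?_)
    have := (MvPolynomial.isHomogeneous_C (Fin n) (θ v)).mul (hF v k)
    rwa [zero_add] at this
  have hmap : ∀ θ : V → Ω, genMap δ hδ _ (hhom θ) =
      genMap δ hδ F0 h0 + ∑ v, θ v • genMap δ hδ (F v) (hF v) := by
    intro θ
    ext h : 1
    apply Subtype.ext
    simp only [LinearMap.add_apply, LinearMap.sum_apply, LinearMap.smul_apply, Submodule.coe_add,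
      Submodule.coe_sum, Submodule.coe_smul]
    change ∑ k, (h k : MvPolynomial (Fin n) Ω) * (F0 k + ∑ v, MvPolynomial.C (θ v) * F v k) =
      ∑ k, (h k : MvPolynomial (Fin n) Ω) * F0 k +
        ∑ v, θ v • ∑ k, (h k : MvPolynomial (Fin n) Ω) * F v k
    simp only [mul_add, Finset.sum_add_distrib, Finset.mul_sum, Finset.smul_sum]
    congr 1
    rw [Finset.sum_comm]
    refine Finset.sum_congr rfl fun v _ => Finset.sum_congr rfl fun k _ => ?_
    rw [MvPolynomial.smul_eq_C_mul]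
    ring
  obtain ⟨P, hP0, hPd, hP⟩ := gen_surj (genMap δ hδ F0 h0) (fun v => genMap δ hδ (F v) (hF v)) θ0
    (by
      rw [← hmap θ0]
      exact (generates_iff_surj δ hδ _ (hhom θ0)).1 hg)
  refine ⟨P, hP0, hPd.trans hrank, fun θ hθ => ?_⟩
  rw [generates_iff_surj δ hδ _ (hhom θ), hmap θ]
  exact hP θ hθ

end Pool.Agent.Helper48.ET
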