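import Pool.Agent.Helper48.ET.Code
import Pool.Agent.Helper48.ET.GrowthCardCore

/-! Piece W1: the elements of `AN` are `< (2p)^(2N)` (`AN_lt`, in GrowthCardCore.lean), and there
are at least `p ^ (N - C ^ b - L)` of them. -/

set_option autoImplicit false

namespace Pool.Agent.Helper48.ET

open Finset

section

variable {p : ℕ} [Fact p.Prime]

/-- the free digits of `x` are all but those below `C ^ b`, the `C ^ j - 2` with `b < j ≤ I`, and
`N - 1`; use `code_exists` and the injectivity of `enc` -/
theorem AN_card {C L I N : ℕ} (hC : 8 ≤ C) (hL : 4 ≤ L) (hlen : IsLen C L I N) (θ : Par p) :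
    p ^ (N - C ^ (I + 1 - L) - L) ≤ (AN C L I N θ).ncard :=
  AN_card_core hC hL hlen θ fun x hx => code_exists (by omega) hlen.dvd θ x hx

end

end Pool.Agent.Helper48.ET
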