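import Pool.Agent.Helper48.ET.Defs

/-! Piece B: the number of common zeros of a system whose leading forms generate all forms of
degree `D`. -/

set_option autoImplicit false

namespace Pool.Agent.Helper48.ET

open Finset

/-- evaluation at the points of `Z` -/
noncomputable def evZ {Ω : Type*} [Field Ω] {n : ℕ} (Z : Finset (Fin n → Ω)) :
    MvPolynomial (Fin n) Ω →ₗ[Ω] (Z → Ω) where
  toFun g z := MvPolynomial.eval z.1 g
  map_add' a b := by
    funext z
    simp
  map_smul' c a := by
    funext z
    simp [MvPolynomial.smul_eval]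

theorem evZ_apply {Ω : Type*} [Field Ω] {n : ℕ} (Z : Finset (Fin n → Ω))
    (g : MvPolynomial (Fin n) Ω) (z : Z) : evZ Z g z = MvPolynomial.eval z.1 g := rfl

theorem evZ_surj {Ω : Type*} [Field Ω] {n : ℕ} (Z : Finset (Fin n → Ω)) :
    Function.Surjective (evZ Z) := by
  classical
  -- separating factors
  have h1 : ∀ z z' : Fin n → Ω, z ≠ z' → ∃ q : MvPolynomial (Fin n) Ω,
      MvPolynomial.eval z q = 1 ∧ MvPolynomial.eval z' q = 0 := by
    intro z z' h
    obtain ⟨i, hi⟩ := Function.ne_iff.mp h
    refine ⟨MvPolynomial.C (z i - z' i)⁻¹ * (MvPolynomial.X i - MvPolynomial.C (z' i)), ?_, ?_⟩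
    · simp only [map_mul, map_sub, MvPolynomial.eval_C, MvPolynomial.eval_X]
      exact inv_mul_cancel₀ (sub_ne_zero.mpr hi)
    · simp
  choose! q hq1 hq0 using h1
  intro v
  refine ⟨∑ z : Z, MvPolynomial.C (v z) * ∏ z' ∈ Z.erase z.1, q z.1 z', ?_⟩
  funext w
  rw [evZ_apply, map_sum, Finset.sum_eq_single w]
  · rw [map_mul, MvPolynomial.eval_C, map_prod, Finset.prod_eq_one, mul_one]
    intro z' hz'
    exact hq1 _ _ (Finset.ne_of_mem_erase hz').symm
  · intro z _ hz
    rw [map_mul, map_prod, Finset.prod_eq_zero (i := w.1), mul_zero]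
    · exact Finset.mem_erase.mpr ⟨fun h => hz (Subtype.ext h.symm), w.2⟩
    · exact hq0 _ _ (fun h => hz (Subtype.ext h))
  · intro h
    exact absurd (Finset.mem_univ _) h

theorem zeros_card {Ω ι : Type*} [Field Ω] [Fintype ι] {n D : ℕ} (δ : ι → ℕ)
    (hδ : ∀ k, 1 ≤ δ k ∧ δ k ≤ D) (F f : ι → MvPolynomial (Fin n) Ω)
    (hF : ∀ k, (F k).IsHomogeneous (δ k)) (hf : ∀ k, (f k - F k).totalDegree < δ k)
    (hgen : Generates D δ F) (Z : Finset (Fin n → Ω))
    (hZ : ∀ z ∈ Z, ∀ k, MvPolynomial.eval z (f k) = 0) : Z.card ≤ D ^ n := by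
  classical
  set b : (Fin n → Fin D) → (Z → Ω) :=
    fun m => evZ Z (MvPolynomial.monomial (Finsupp.equivFunOnFinite.symm fun i => (m i : ℕ)) 1)
    with hb
  set S : Submodule Ω (Z → Ω) := Submodule.span Ω (Set.range b) with hS
  -- polynomials all of whose monomials are fine
  have hpoly : ∀ (d : ℕ), (∀ s : Fin n →₀ ℕ, s.degree < d →
      evZ Z (MvPolynomial.monomial s 1) ∈ S) →
      ∀ g : MvPolynomial (Fin n) Ω, (∀ s ∈ g.support, s.degree < d) → evZ Z g ∈ S := by
    intro d hd g hg
    rw [g.as_sum, map_sum]
    refine Submodule.sum_mem _ fun s hs => ?_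
    have : (MvPolynomial.monomial s (g.coeff s) : MvPolynomial (Fin n) Ω) =
        (g.coeff s) • MvPolynomial.monomial s 1 := by
      rw [MvPolynomial.smul_monomial, smul_eq_mul, mul_one]
    rw [this, map_smul]
    exact Submodule.smul_mem _ _ (hd s (hg s hs))
  have hmon : ∀ (d : ℕ) (s : Fin n →₀ ℕ), s.degree = d →
      evZ Z (MvPolynomial.monomial s 1) ∈ S := by
    intro d
    induction d using Nat.strong_induction_on with
    | _ d ih =>
      intro s hs
      by_cases hdD : d < D
      · have hlt : ∀ i, s i < D := fun i => lt_of_le_of_lt (Finsupp.le_degree i s) (hs ▸ hdD)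
        have he : b (fun i => ⟨s i, hlt i⟩) = evZ Z (MvPolynomial.monomial s 1) := by
          have hs' : (Finsupp.equivFunOnFinite.symm fun i => (((⟨s i, hlt i⟩ : Fin D) : ℕ))) = s := by
            ext i
            rfl
          change evZ Z (MvPolynomial.monomial (Finsupp.equivFunOnFinite.symm
            fun i => (((⟨s i, hlt i⟩ : Fin D) : ℕ))) 1) = _
          rw [hs']
        rw [← he]
        exact Submodule.subset_span ⟨_, rfl⟩
      · push Not at hdD
        obtain ⟨t, hts, ht⟩ := Finsupp.exists_le_degree_eq s D (by rw [hs]; exact hdD)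
        obtain ⟨h, hh, hsum⟩ := hgen (MvPolynomial.monomial t 1)
          (MvPolynomial.isHomogeneous_monomial 1 ht)
        have hu : (s - t).degree = d - D := by
          have := congrArg Finsupp.degree (tsub_add_cancel_of_le hts)
          rw [map_add, ht, hs] at this
          omega
        have hms : (MvPolynomial.monomial s (1 : Ω)) =
            MvPolynomial.monomial (s - t) 1 * MvPolynomial.monomial t 1 := by
          rw [MvPolynomial.monomial_mul, one_mul, tsub_add_cancel_of_le hts]
        have heq : evZ Z (MvPolynomial.monomial s (1 : Ω)) =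
            evZ Z (- ∑ k, MvPolynomial.monomial (s - t) 1 * (h k * (f k - F k))) := by
          funext z
          rw [evZ_apply, evZ_apply, hms, hsum, map_mul, map_sum, map_neg, map_sum, Finset.mul_sum,
            ← Finset.sum_neg_distrib]
          refine Finset.sum_congr rfl fun k _ => ?_
          simp only [map_mul, map_sub]
          rw [hZ z.1 z.2 k]
          ring
        rw [heq]
        refine hpoly d (fun s' hs' => ih _ hs' s' rfl) _ ?_
        intro s' hs'
        have h1 : s'.degree ≤ (- ∑ k, MvPolynomial.monomial (s - t) (1 : Ω) *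
            (h k * (f k - F k))).totalDegree := MvPolynomial.le_totalDegree hs'
        refine lt_of_le_of_lt h1 ?_
        rw [MvPolynomial.totalDegree_neg]
        refine lt_of_le_of_lt (MvPolynomial.totalDegree_finsetSum _ _) ?_
        have hD : 0 < D := by
          by_contra h0
          have hD0 : D = 0 := by omega
          have hemp : IsEmpty ι := ⟨fun k => by have := hδ k; omega⟩
          have h2 : (MvPolynomial.monomial t (1 : Ω)) = 0 := by
            rw [hsum]
            exact Finset.sum_of_isEmpty _
          rw [MvPolynomial.monomial_eq_zero] at h2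
          exact one_ne_zero h2
        rw [Finset.sup_lt_iff (by simpa using lt_of_lt_of_le hD hdD)]
        intro k _
        have hk := hδ k
        have e1 := MvPolynomial.totalDegree_mul (MvPolynomial.monomial (s - t) (1 : Ω))
          (h k * (f k - F k))
        have e2 := MvPolynomial.totalDegree_mul (h k) (f k - F k)
        have e3 : (MvPolynomial.monomial (s - t) (1 : Ω)).totalDegree ≤ (s - t).degree :=
          MvPolynomial.totalDegree_monomial_le (s - t) (1 : Ω)
        have e4 := (hh k).totalDegree_le
        have e5 := hf k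
        omega
  have htop : S = ⊤ := by
    rw [eq_top_iff]
    intro v _
    obtain ⟨g, rfl⟩ := evZ_surj Z v
    refine hpoly (g.totalDegree + 1) (fun s _ => hmon _ s rfl) g ?_
    intro s hs
    exact Nat.lt_succ_of_le (MvPolynomial.le_totalDegree hs)
  have hcard := finrank_range_le_card (R := Ω) b
  have h1 : Module.finrank Ω (Submodule.span Ω (Set.range b)) = Z.card := by
    rw [← hS, htop, finrank_top, Module.finrank_fintype_fun_eq_card, Fintype.card_coe]
  rw [Set.finrank, h1] at hcard
  simpa using hcard

end Pool.Agent.Helper48.ET
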