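import Pool.Agent.Helper48.ET.Gen
import Pool.Agent.Helper48.ET.Zeros

/-! Piece C: the local lemma. -/

set_option autoImplicit false

namespace Pool.Agent.Helper48.ET

open Finset MvPolynomial

namespace LocalC

variable {Ω : Type*} [Field Ω]

/-! ### Homogeneous combinations from ideal membership -/

lemma hc_mul {σ : Type*} {g F : MvPolynomial σ Ω} {D δ : ℕ} (hF : F.IsHomogeneous δ) (h : δ ≤ D) :
    homogeneousComponent D (g * F) = homogeneousComponent (D - δ) g * F := by
  conv_lhs => rw [← sum_homogeneousComponent g, Finset.sum_mul, map_sum]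
  have e : ∀ i, homogeneousComponent D (homogeneousComponent i g * F)
      = if D - δ = i then homogeneousComponent i g * F else 0 := by
    intro i
    have h1 : (homogeneousComponent i g * F).IsHomogeneous (i + δ) :=
      (homogeneousComponent_isHomogeneous i g).mul hF
    rw [homogeneousComponent_of_mem h1]
    by_cases hi : D - δ = i
    · rw [if_pos hi, if_pos (by omega)]
    · rw [if_neg hi, if_neg (by omega)]
  rw [Finset.sum_congr rfl fun i _ => e i, Finset.sum_ite_eq]
  split_ifs with hm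
  · rfl
  · rw [homogeneousComponent_eq_zero, zero_mul]
    rw [Finset.mem_range] at hm
    omega

lemma generates_of_ideal {σ ι : Type*} [Fintype ι] {D : ℕ} {δ : ι → ℕ} (hδ : ∀ k, δ k ≤ D)
    {F : ι → MvPolynomial σ Ω} (hF : ∀ k, (F k).IsHomogeneous (δ k))
    (h : ∀ f : MvPolynomial σ Ω, f.IsHomogeneous D → f ∈ Ideal.span (Set.range F)) :
    Generates D δ F := by
  intro f hf
  obtain ⟨g, hg⟩ := Ideal.mem_span_range_iff_exists_fun.mp (h f hf)
  refine ⟨fun k => homogeneousComponent (D - δ k) (g k),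
    fun k => homogeneousComponent_isHomogeneous _ _, ?_⟩
  rw [← homogeneousComponent_eq_self hf, ← hg, map_sum]
  exact Finset.sum_congr rfl fun k _ => hc_mul (hF k) (hδ k)

/-! ### The forms -/

section forms

variable (T' T : ℕ) (M W : ℕ → ℕ → Ω)

/-- The variables, extended by `0`. -/
noncomputable def yv (k : ℕ) : MvPolynomial (Fin T') Ω := if h : k < T' then X ⟨k, h⟩ else 0

/-- The forms `w = M y`. -/
noncomputable def wv (t : ℕ) : MvPolynomial (Fin T') Ω := ∑ k ∈ range T, C (M t k) * yv T' k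

/-- The quadratic forms `Q = W w²`. -/
noncomputable def Qp (j : ℕ) : MvPolynomial (Fin T') Ω := ∑ t ∈ range T, C (W j t) * wv T' T M t ^ 2

/-- The quadratic forms `A`. -/
noncomputable def Ap (A : ℕ → ℕ → ℕ → Ω) (j : ℕ) : MvPolynomial (Fin T') Ω :=
  ∑ k ∈ range T', ∑ l ∈ range T', C (A j k l) * yv T' k * yv T' l

lemma yv_hom (k : ℕ) : (yv (Ω := Ω) T' k).IsHomogeneous 1 := by
  unfold yv
  split_ifs with h
  · exact isHomogeneous_X _ _
  · exact isHomogeneous_zero _ _ _

lemma C_mul_hom {σ : Type*} {f : MvPolynomial σ Ω} {n : ℕ} (a : Ω) (h : f.IsHomogeneous n) :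
    (C a * f).IsHomogeneous n := by
  have := (isHomogeneous_C σ a).mul h
  rwa [zero_add] at this

lemma wv_hom (t : ℕ) : (wv T' T M t).IsHomogeneous 1 :=
  IsHomogeneous.sum _ _ _ fun k _ => C_mul_hom _ (yv_hom T' k)

lemma Qp_hom (j : ℕ) : (Qp T' T M W j).IsHomogeneous 2 :=
  IsHomogeneous.sum _ _ _ fun t _ => C_mul_hom _ (by simpa using (wv_hom T' T M t).pow 2)

lemma Ap_hom (A : ℕ → ℕ → ℕ → Ω) (j : ℕ) : (Ap T' A j).IsHomogeneous 2 := by
  refine IsHomogeneous.sum _ _ _ fun k _ => IsHomogeneous.sum _ _ _ fun l _ => ?_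
  exact (C_mul_hom _ (yv_hom T' k)).mul (yv_hom T' l)

/-- Evaluation at a point extended by zero. -/
lemma eval_yv {z : ℕ → Ω} (hz : ∀ k, T' ≤ k → z k = 0) (k : ℕ) :
    eval (fun i : Fin T' => z i) (yv T' k) = z k := by
  unfold yv
  split_ifs with h
  · rw [eval_X]
  · rw [map_zero, hz k (by omega)]

lemma eval_wv {z : ℕ → Ω} (hz : ∀ k, T' ≤ k → z k = 0) (t : ℕ) :
    eval (fun i : Fin T' => z i) (wv T' T M t) = ∑ k ∈ range T, M t k * z k := by
  unfold wv
  rw [map_sum]
  refine Finset.sum_congr rfl fun k _ => ?_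
  rw [map_mul, eval_C, eval_yv T' hz]

lemma eval_Qp {z : ℕ → Ω} (hz : ∀ k, T' ≤ k → z k = 0) (j : ℕ) :
    eval (fun i : Fin T' => z i) (Qp T' T M W j) = Qf T M W z j := by
  unfold Qp Qf
  rw [map_sum]
  refine Finset.sum_congr rfl fun t _ => ?_
  rw [map_mul, eval_C, map_pow, eval_wv T' T M hz]

lemma eval_Ap {z : ℕ → Ω} (hz : ∀ k, T' ≤ k → z k = 0) (A : ℕ → ℕ → ℕ → Ω) (j : ℕ) :
    eval (fun i : Fin T' => z i) (Ap T' A j)
      = ∑ k ∈ range T', ∑ l ∈ range T', A j k l * z k * z l := by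
  unfold Ap
  rw [map_sum]
  refine Finset.sum_congr rfl fun k _ => ?_
  rw [map_sum]
  refine Finset.sum_congr rfl fun l _ => ?_
  rw [map_mul, map_mul, eval_C, eval_yv T' hz, eval_yv T' hz]

variable {T' T M W}

/-- `y = W w`. -/
lemma yv_eq (hMW : IsInv T M W) {k : ℕ} (hk : k < T) :
    yv T' k = ∑ t ∈ range T, C (W k t) * wv T' T M t := by
  unfold wv
  simp_rw [Finset.mul_sum]
  rw [Finset.sum_comm]
  have e : ∀ l ∈ range T, ∑ t ∈ range T, C (W k t) * (C (M t l) * yv T' l)
      = if k = l then yv (Ω := Ω) T' l else 0 := by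
    intro l hl
    have h := hMW.2 k hk l (Finset.mem_range.mp hl)
    have h2 := congrArg (fun a : Ω => (C a : MvPolynomial (Fin T') Ω) * yv T' l) h
    simp only [map_sum, map_mul, Finset.sum_mul] at h2
    rw [Finset.sum_congr rfl fun t _ => by rw [← mul_assoc], h2]
    split_ifs <;> simp
  rw [Finset.sum_congr rfl e, Finset.sum_ite_eq, if_pos (Finset.mem_range.mpr hk)]

/-- `w² = M Q`. -/
lemma wv_sq (hMW : IsInv T M W) {t : ℕ} (ht : t < T) :
    wv T' T M t ^ 2 = ∑ j ∈ range T, C (M t j) * Qp T' T M W j := by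
  unfold Qp
  simp_rw [Finset.mul_sum]
  rw [Finset.sum_comm]
  have e : ∀ l ∈ range T, ∑ j ∈ range T, C (M t j) * (C (W j l) * wv T' T M l ^ 2)
      = if t = l then wv T' T M l ^ 2 else 0 := by
    intro l hl
    have h := hMW.1 t ht l (Finset.mem_range.mp hl)
    have h2 := congrArg (fun a : Ω => (C a : MvPolynomial (Fin T') Ω) * wv T' T M l ^ 2) h
    simp only [map_sum, map_mul, Finset.sum_mul] at h2
    rw [Finset.sum_congr rfl fun t _ => by rw [← mul_assoc], h2]
    split_ifs <;> simp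
  rw [Finset.sum_congr rfl e, Finset.sum_ite_eq, if_pos (Finset.mem_range.mpr ht)]

end forms

/-! ### Pigeonhole -/

open scoped Pointwise in
lemma pigeon {R : Type*} [CommRing R] {T : ℕ} (w : Fin T → R) (I : Ideal R)
    (h : ∀ t, w t ^ 2 ∈ I) : Ideal.span (Set.range w) ^ (T + 1) ≤ I := by
  have h1 : Ideal.span (Set.range w) ^ (T + 1) = Ideal.span (Set.range w ^ (T + 1)) :=
    Submodule.span_pow _ _
  rw [h1, Ideal.span_le]
  intro a ha
  rw [Set.mem_pow] at ha
  obtain ⟨f, rfl⟩ := ha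
  have hf : ∀ i, ∃ t, w t = f i := fun i => (f i).2
  choose τ hτ using hf
  obtain ⟨i, j, hij, hτij⟩ := Fintype.exists_ne_map_eq_of_card_lt τ (by simp)
  rw [List.prod_ofFn]
  have h2 : (∏ k, (f k : R)) = (f i : R) * ((f j : R) * ∏ k ∈ (Finset.univ.erase i).erase j, (f k : R)) := by
    rw [← Finset.mul_prod_erase Finset.univ _ (Finset.mem_univ i),
      ← Finset.mul_prod_erase (Finset.univ.erase i) _ (Finset.mem_erase.mpr ⟨hij.symm, Finset.mem_univ j⟩)]
  change (∏ k, (f k : R)) ∈ I
  rw [h2, ← mul_assoc]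
  refine Ideal.mul_mem_right _ _ ?_
  rw [← hτ i, ← hτ j, hτij, ← sq]
  exact h _

lemma mem_of_hom {n : ℕ} {f : MvPolynomial (Fin n) Ω} {D : ℕ} (hf : f.IsHomogeneous D)
    {J : Ideal (MvPolynomial (Fin n) Ω)} (hJ : ∀ k, (X k : MvPolynomial (Fin n) Ω) ∈ J) :
    f ∈ J ^ D := by
  rw [f.as_sum]
  refine Submodule.sum_mem _ fun m hm => ?_
  have hdeg : ∑ k, m k = D := by
    have := hf (mem_support_iff.mp hm)
    rw [← this, Finsupp.weight_apply, Finsupp.sum_fintype _ _ (by simp)]
    simp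
  rw [monomial_eq, Finsupp.prod_fintype _ _ (by simp)]
  refine Ideal.mul_mem_left _ _ ?_
  rw [← hdeg, ← Finset.prod_pow_eq_pow_sum]
  exact Ideal.prod_mem_prod fun k _ => Ideal.pow_mem_pow (hJ k) _

/-! ### Choice of the rows -/

lemma rows {T'' T' T : ℕ} (h1 : T'' ≤ T') (h2 : T' ≤ T) {M W : ℕ → ℕ → Ω} (hMW : IsInv T M W) :
    ∃ t : Fin (T' - T'') → ℕ, (∀ r, t r < T) ∧ ∀ j, T'' ≤ j → j < T' →
      ∃ c : Fin (T' - T'') → Ω, ∀ l, T'' ≤ l → l < T' →
        ∑ r, c r * M (t r) l = if j = l then 1 else 0 := by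
  set m := T' - T'' with hm
  let v : Fin T → (Fin m → Ω) := fun t l => M t (T'' + l)
  have hspan : Submodule.span Ω (Set.range v) = ⊤ := by
    rw [eq_top_iff, ← (Pi.basisFun Ω (Fin m)).span_eq, Submodule.span_le]
    rintro _ ⟨j, rfl⟩
    rw [Pi.basisFun_apply]
    rw [SetLike.mem_coe, Submodule.mem_span_range_iff_exists_fun]
    refine ⟨fun t => W (T'' + j) t, ?_⟩
    funext l
    rw [Finset.sum_apply]
    simp only [Pi.smul_apply, smul_eq_mul, v]
    have hj : T'' + (j : ℕ) < T := by have := j.2; omega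
    have hl : T'' + (l : ℕ) < T := by have := l.2; omega
    have h3 := hMW.2 _ hj _ hl
    rw [← Fin.sum_univ_eq_sum_range (fun t => W (T'' + j) t * M t (T'' + l)) T] at h3
    rw [h3, Pi.single_apply]
    by_cases h : l = j
    · rw [if_pos h, if_pos (by rw [h])]
    · rw [if_neg h, if_neg]
      intro h'
      exact h (Fin.ext (by omega))
  have key := Submodule.exists_fun_fin_finrank_span_eq Ω (Set.range v)
  have hf : Module.finrank Ω (Submodule.span Ω (Set.range v)) = m := by
    rw [hspan, finrank_top, Module.finrank_fin_fun]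
  rw [hf] at key
  obtain ⟨f, hf1, hf2, -⟩ := key
  choose t ht using hf1
  refine ⟨fun r => t r, fun r => (t r).2, fun j hj1 hj2 => ?_⟩
  have hj : j - T'' < m := by omega
  have hmem : (Pi.single (⟨j - T'', hj⟩ : Fin m) (1 : Ω)) ∈ Submodule.span Ω (Set.range f) := by
    rw [hf2, hspan]
    exact Submodule.mem_top
  obtain ⟨c, hc⟩ := Submodule.mem_span_range_iff_exists_fun Ω |>.mp hmem
  refine ⟨c, fun l hl1 hl2 => ?_⟩
  have hl : l - T'' < m := by omega
  have h3 := congrFun hc ⟨l - T'', hl⟩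
  rw [Finset.sum_apply] at h3
  simp only [Pi.smul_apply, smul_eq_mul, Pi.single_apply, Fin.mk.injEq] at h3
  have e : ∀ r, f r ⟨l - T'', hl⟩ = M (t r) l := by
    intro r
    rw [← ht r]
    simp only [v]
    congr 1
    omega
  rw [Finset.sum_congr rfl fun r _ => by rw [← e r], h3]
  by_cases h : j = l
  · rw [if_pos (by omega), if_pos h]
  · rw [if_neg (by omega), if_neg h]

/-! ### The special point -/

lemma special {T'' T' T : ℕ} (h2 : T' ≤ T) {M W : ℕ → ℕ → Ω} (hMW : IsInv T M W)
    {t : Fin (T' - T'') → ℕ} (ht : ∀ r, t r < T)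
    (hc : ∀ j, T'' ≤ j → j < T' → ∃ c : Fin (T' - T'') → Ω, ∀ l, T'' ≤ l → l < T' →
        ∑ r, c r * M (t r) l = if j = l then 1 else 0)
    (I : Ideal (MvPolynomial (Fin T') Ω))
    (hQ : ∀ j < T, (j < T'' ∨ T' ≤ j) → Qp T' T M W j ∈ I)
    (hw : ∀ r, wv T' T M (t r) ∈ I) {f : MvPolynomial (Fin T') Ω} (hf : f.IsHomogeneous (T + 1)) :
    f ∈ I := by
  have hrow : ∀ r, ∑ l ∈ (range T).filter (fun l => T'' ≤ l ∧ l < T'),
      C (M (t r) l) * Qp T' T M W l ∈ I := by
    intro r
    have h3 : wv T' T M (t r) ^ 2 ∈ I := by rw [sq]; exact I.mul_mem_left _ (hw r)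
    rw [wv_sq hMW (ht r), ← Finset.sum_filter_add_sum_filter_not _ (fun l => T'' ≤ l ∧ l < T')] at h3
    refine (Submodule.add_mem_iff_left I ?_).mp h3
    refine Submodule.sum_mem _ fun l hl => I.mul_mem_left _ ?_
    rw [Finset.mem_filter, Finset.mem_range] at hl
    exact hQ l hl.1 (by omega)
  have hQ2 : ∀ j < T, Qp T' T M W j ∈ I := by
    intro j hj
    by_cases h : T'' ≤ j ∧ j < T'
    · obtain ⟨c, hc'⟩ := hc j h.1 h.2
      have h3 : Qp T' T M W j = ∑ r, C (c r) * ∑ l ∈ (range T).filter (fun l => T'' ≤ l ∧ l < T'),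
          C (M (t r) l) * Qp T' T M W l := by
        simp_rw [Finset.mul_sum]
        rw [Finset.sum_comm]
        have e : ∀ l ∈ (range T).filter (fun l => T'' ≤ l ∧ l < T'),
            ∑ r, C (c r) * (C (M (t r) l) * Qp T' T M W l)
              = if j = l then Qp T' T M W l else 0 := by
          intro l hl
          rw [Finset.mem_filter, Finset.mem_range] at hl
          have h4 := hc' l hl.2.1 hl.2.2
          have h5 := congrArg (fun a : Ω => (C a : MvPolynomial (Fin T') Ω) * Qp T' T M W l) h4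
          simp only [map_sum, map_mul, Finset.sum_mul] at h5
          rw [Finset.sum_congr rfl fun r _ => by rw [← mul_assoc], h5]
          split_ifs <;> simp
        rw [Finset.sum_congr rfl e, Finset.sum_ite_eq, if_pos]
        rw [Finset.mem_filter, Finset.mem_range]
        exact ⟨hj, h⟩
      rw [h3]
      exact Submodule.sum_mem _ fun r _ => I.mul_mem_left _ (hrow r)
    · exact hQ j hj (by omega)
  have hw2 : ∀ t : Fin T, (fun t : Fin T => wv T' T M t) t ^ 2 ∈ I := by
    intro t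
    change wv T' T M t ^ 2 ∈ I
    rw [wv_sq hMW t.2]
    exact Submodule.sum_mem _ fun j hj => I.mul_mem_left _ (hQ2 j (Finset.mem_range.mp hj))
  refine pigeon _ I hw2 (mem_of_hom hf fun k => ?_)
  have hk : (k : ℕ) < T := k.2.trans_le h2
  have e : (X k : MvPolynomial (Fin T') Ω) = yv T' k := by
    unfold yv
    rw [dif_pos k.2]
  rw [e, yv_eq hMW hk]
  refine Submodule.sum_mem _ fun t ht => Ideal.mul_mem_left _ _ (Ideal.subset_span ?_)
  exact ⟨⟨t, Finset.mem_range.mp ht⟩, rfl⟩

/-! ### The families of forms -/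

section family

variable (T'' T' T R : ℕ) (M W : ℕ → ℕ → Ω) (A : ℕ → ℕ → ℕ → Ω)

/-- The degrees. -/
def dl : Fin T ⊕ Fin R → ℕ
  | Sum.inl _ => 2
  | Sum.inr _ => 1

/-- The constant part. -/
noncomputable def FA : Fin T ⊕ Fin R → MvPolynomial (Fin T') Ω
  | Sum.inl j => if (j : ℕ) < T'' then Ap T' A j else 0
  | Sum.inr _ => 0

/-- The coefficients of the parameters. -/
noncomputable def FV : Option (Fin R × Fin T') → Fin T ⊕ Fin R → MvPolynomial (Fin T') Ω
  | none, Sum.inl j => if (j : ℕ) < T'' ∨ T' ≤ (j : ℕ) then Qp T' T M W j else 0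
  | none, Sum.inr _ => 0
  | some _, Sum.inl _ => 0
  | some q, Sum.inr r => if q.1 = r then X q.2 else 0

/-- The family with the additional parameter `κ`. -/
noncomputable def FK : Option (Option (Fin R × Fin T')) → Fin T ⊕ Fin R → MvPolynomial (Fin T') Ω
  | none => FA T'' T' T R A
  | some v => FV T'' T' T R M W v

lemma FA_hom (k : Fin T ⊕ Fin R) : (FA T'' T' T R A k).IsHomogeneous (dl T R k) := by
  rcases k with j | r
  · unfold FA dl
    simp only
    split_ifs
    · exact Ap_hom T' A j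
    · exact isHomogeneous_zero _ _ _
  · exact isHomogeneous_zero _ _ _

lemma FV_hom (v : Option (Fin R × Fin T')) (k : Fin T ⊕ Fin R) :
    (FV T'' T' T R M W v k).IsHomogeneous (dl T R k) := by
  rcases v with _ | q <;> rcases k with j | r
  · unfold FV dl
    simp only
    split_ifs
    · exact Qp_hom T' T M W j
    · exact isHomogeneous_zero _ _ _
  · exact isHomogeneous_zero _ _ _
  · exact isHomogeneous_zero _ _ _
  · unfold FV dl
    simp only
    split_ifs
    · exact isHomogeneous_X _ _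
    · exact isHomogeneous_zero _ _ _

lemma FK_hom (v : Option (Option (Fin R × Fin T'))) (k : Fin T ⊕ Fin R) :
    (FK T'' T' T R M W A v k).IsHomogeneous (dl T R k) := by
  rcases v with _ | v
  · exact FA_hom T'' T' T R A k
  · exact FV_hom T'' T' T R M W v k

lemma sumV_inl (θ : Option (Fin R × Fin T') → Ω) (j : Fin T) :
    ∑ v, C (θ v) * FV T'' T' T R M W v (Sum.inl j)
      = if (j : ℕ) < T'' ∨ T' ≤ (j : ℕ) then C (θ none) * Qp T' T M W j else 0 := by
  rw [Fintype.sum_option]
  have e : ∑ q : Fin R × Fin T', C (θ (some q)) * FV T'' T' T R M W (some q) (Sum.inl j) = 0 :=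
    Finset.sum_eq_zero fun q _ => mul_zero _
  rw [e, add_zero]
  unfold FV
  simp only
  split_ifs <;> simp

lemma sumV_inr (θ : Option (Fin R × Fin T') → Ω) (r : Fin R) :
    ∑ v, C (θ v) * FV T'' T' T R M W v (Sum.inr r)
      = ∑ k : Fin T', C (θ (some (r, k))) * X k := by
  rw [Fintype.sum_option]
  have e0 : C (θ none) * FV T'' T' T R M W none (Sum.inr r) = 0 := mul_zero _
  rw [e0, zero_add, Fintype.sum_prod_type]
  rw [Finset.sum_eq_single r]
  · refine Finset.sum_congr rfl fun k _ => ?_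
    unfold FV
    simp
  · intro r' _ hr
    refine Finset.sum_eq_zero fun k _ => ?_
    unfold FV
    simp [hr]
  · intro h
    exact absurd (Finset.mem_univ r) h

end family

/-- The forms generate everything of degree `T + 1` at some point of the family with `κ`. -/
lemma gen_K {T'' T' T R : ℕ} (h1 : T'' ≤ T') (h2 : T' ≤ T) (h3 : T' ≤ T'' + R) (hT : 1 ≤ T)
    {M W : ℕ → ℕ → Ω} (hMW : IsInv T M W) (A : ℕ → ℕ → ℕ → Ω) :
    ∃ θ : Option (Option (Fin R × Fin T')) → Ω, Generates (T + 1) (dl T R)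
      (fun k => (0 : MvPolynomial (Fin T') Ω) + ∑ v, C (θ v) * FK T'' T' T R M W A v k) := by
  obtain ⟨t, ht, hc⟩ := rows h1 h2 hMW
  let θ : Option (Option (Fin R × Fin T')) → Ω := fun v => match v with
    | none => 0
    | some none => 1
    | some (some q) => if h : (q.1 : ℕ) < T' - T'' then M (t ⟨q.1, h⟩) q.2 else 0
  refine ⟨θ, ?_⟩
  have hsum : ∀ k, (0 : MvPolynomial (Fin T') Ω) + ∑ v, C (θ v) * FK T'' T' T R M W A v k
      = ∑ v, C (θ (some v)) * FV T'' T' T R M W v k := by
    intro k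
    rw [Fintype.sum_option, zero_add]
    have e : C (θ none) * FK T'' T' T R M W A none k = 0 := by
      change C (0 : Ω) * _ = 0
      rw [C_0, zero_mul]
    rw [e, zero_add]
    rfl
  rw [funext hsum]
  refine generates_of_ideal (fun k => ?_) (fun k => ?_) fun f hf => ?_
  · rcases k with j | r <;> unfold dl <;> simp only <;> omega
  · exact IsHomogeneous.sum _ _ _ fun v _ => C_mul_hom _ (FV_hom T'' T' T R M W v k)
  · refine special h2 hMW ht hc _ (fun j hj hj2 => ?_) (fun r => ?_) hf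
    · refine Ideal.subset_span ⟨Sum.inl ⟨j, hj⟩, ?_⟩
      simp only
      rw [sumV_inl, if_pos hj2]
      change C (1 : Ω) * _ = _
      rw [C_1, one_mul]
    · have hr : (r : ℕ) < R := by have := r.2; omega
      refine Ideal.subset_span ⟨Sum.inr ⟨r, hr⟩, ?_⟩
      simp only
      rw [sumV_inr]
      unfold wv
      have e1 : ∀ k ∈ range T, C (M (t r) k) * yv (Ω := Ω) T' k
          = if h : k < T' then C (M (t r) k) * X ⟨k, h⟩ else 0 := by
        intro k _
        unfold yv
        split_ifs <;> simp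
      rw [Finset.sum_congr rfl e1]
      have e2 : ∑ k ∈ range T, (if h : k < T' then C (M (t r) k) * (X ⟨k, h⟩ : MvPolynomial (Fin T') Ω) else 0)
          = ∑ k ∈ range T', (if h : k < T' then C (M (t r) k) * (X ⟨k, h⟩ : MvPolynomial (Fin T') Ω) else 0) := by
        symm
        refine Finset.sum_subset (Finset.range_subset_range.mpr h2) fun k _ hk => ?_
        rw [Finset.mem_range] at hk
        rw [dif_neg hk]
      rw [e2, ← Fin.sum_univ_eq_sum_range
        (fun k => if h : k < T' then C (M (t r) k) * (X ⟨k, h⟩ : MvPolynomial (Fin T') Ω) else 0) T']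
      refine Finset.sum_congr rfl fun k _ => ?_
      rw [dif_pos k.2]
      have e3 : θ (some (some (⟨r, hr⟩, k))) = M (t r) k := by
        change (if h : (r : ℕ) < T' - T'' then M (t ⟨r, h⟩) k else 0) = _
        rw [dif_pos r.2]
      rw [e3]

/-- A nonzero polynomial does not vanish somewhere. -/
lemma exists_ne {σ : Type*} [Infinite Ω] {P : MvPolynomial σ Ω} (h : P ≠ 0) :
    ∃ x : σ → Ω, eval x P ≠ 0 := by
  by_contra hcon
  push Not at hcon
  exact h (MvPolynomial.funext fun x => by rw [hcon x, map_zero])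

/-- The forms generate everything of degree `T + 1` at some point of the family. -/
lemma gen_V {T'' T' T R : ℕ} [Infinite Ω] (h1 : T'' ≤ T') (h2 : T' ≤ T) (h3 : T' ≤ T'' + R)
    (hT : 1 ≤ T) {M W : ℕ → ℕ → Ω} (hMW : IsInv T M W) (A : ℕ → ℕ → ℕ → Ω) :
    ∃ θ : Option (Fin R × Fin T') → Ω, Generates (T + 1) (dl T R)
      (fun k => FA T'' T' T R A k + ∑ v, C (θ v) * FV T'' T' T R M W v k) := by
  have hδ : ∀ k, dl T R k ≤ T + 1 := by
    intro k
    rcases k with j | r <;> unfold dl <;> simp only <;> omega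
  obtain ⟨θ1, hθ1⟩ := gen_K h1 h2 h3 hT hMW A
  obtain ⟨P, hP0, -, hP⟩ := generates_open (dl T R) hδ (fun _ => (0 : MvPolynomial (Fin T') Ω))
    (FK T'' T' T R M W A) (fun k => isHomogeneous_zero _ _ _) (FK_hom T'' T' T R M W A) θ1 hθ1
  obtain ⟨x, hx⟩ := exists_ne (mul_ne_zero hP0 (X_ne_zero (R := Ω) (none : Option (Option (Fin R × Fin T')))))
  rw [map_mul, eval_X] at hx
  have hκ : x none ≠ 0 := right_ne_zero_of_mul hx
  have hg := hP x (left_ne_zero_of_mul hx)
  refine ⟨fun v => match v with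
    | none => x (some none) / x none
    | some q => x (some (some q)), ?_⟩
  intro f hf
  obtain ⟨h, hh, hfe⟩ := hg f hf
  refine ⟨fun k => match k with
    | Sum.inl j => C (x none) * h (Sum.inl j)
    | Sum.inr r => h (Sum.inr r), fun k => ?_, ?_⟩
  · rcases k with j | r
    · exact C_mul_hom _ (hh _)
    · exact hh _
  · rw [hfe]
    rw [Fintype.sum_sum_type, Fintype.sum_sum_type]
    congr 1
    · refine Finset.sum_congr rfl fun j _ => ?_
      simp only
      rw [Fintype.sum_option, zero_add]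
      change h (Sum.inl j) * (C (x none) * FA T'' T' T R A (Sum.inl j) +
        ∑ v, C (x (some v)) * FV T'' T' T R M W v (Sum.inl j)) = _
      rw [sumV_inl, sumV_inl]
      simp only
      split_ifs
      · have e : (C (x none) : MvPolynomial (Fin T') Ω) * C (x (some none) / x none)
            = C (x (some none)) := by
          rw [← C_mul, mul_div_cancel₀ _ hκ]
        rw [← e]
        ring
      · ring
    · refine Finset.sum_congr rfl fun r _ => ?_
      simp only
      rw [Fintype.sum_option, zero_add]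
      change h (Sum.inr r) * (C (x none) * FA T'' T' T R A (Sum.inr r) +
        ∑ v, C (x (some v)) * FV T'' T' T R M W v (Sum.inr r)) = _
      rw [sumV_inr, sumV_inr]
      have e0 : FA T'' T' T R A (Sum.inr r) = 0 := rfl
      rw [e0, mul_zero]

end LocalC

open LocalC

/-- LOCAL LEMMA. -/
theorem local_alg {Ω : Type*} [Field Ω] [Infinite Ω] (T'' T' T R : ℕ) (h1 : T'' ≤ T')
    (h2 : T' ≤ T) (h3 : T' ≤ T'' + R) (M W : ℕ → ℕ → Ω) (hMW : IsInv T M W)
    (A : ℕ → ℕ → ℕ → Ω) :
    ∃ P : MvPolynomial (Option (ℕ × ℕ)) Ω, P ≠ 0 ∧ P.totalDegree ≤ (T + 2) ^ T ∧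
      ∀ v : Option (ℕ × ℕ) → Ω, MvPolynomial.eval v P ≠ 0 →
        ∀ (c : ℕ → ℕ → Ω) (d d' : ℕ → Ω) (Z : Finset (ℕ → Ω)),
          (∀ z ∈ Z, ∀ k, T' ≤ k → z k = 0) →
          (∀ z ∈ Z, ∀ j < T'', ∑ k ∈ range T', ∑ l ∈ range T', A j k l * z k * z l +
            v none * Qf T M W z j + ∑ k ∈ range T', c j k * z k = d j) →
          (∀ z ∈ Z, ∀ j, T' ≤ j → j < T →
            v none * Qf T M W z j + ∑ k ∈ range T', c j k * z k = d j) →
          (∀ z ∈ Z, ∀ r < R, ∑ k ∈ range T', v (some (r, k)) * z k = d' r) →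
          Z.card ≤ (T + 1) ^ T := by
  rcases Nat.eq_zero_or_pos T with hT0 | hT
  · -- trivial case
    refine ⟨1, one_ne_zero, by simp, ?_⟩
    intro v _ c d d' Z hZ _ _ _
    subst hT0
    have hT' : T' = 0 := by omega
    rw [pow_zero]
    refine Finset.card_le_one.mpr fun z hz z' hz' => ?_
    funext k
    rw [hZ z hz k (by omega), hZ z' hz' k (by omega)]
  have hδ : ∀ k, 1 ≤ dl T R k ∧ dl T R k ≤ T + 1 := by
    intro k
    rcases k with j | r <;> unfold dl <;> simp only <;> omega
  obtain ⟨θ1, hθ1⟩ := gen_V h1 h2 h3 hT hMW A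
  obtain ⟨P, hP0, hPd, hP⟩ := generates_open (dl T R) (fun k => (hδ k).2) (FA T'' T' T R A)
    (FV T'' T' T R M W) (FA_hom T'' T' T R A) (FV_hom T'' T' T R M W) θ1 hθ1
  let e : Option (Fin R × Fin T') → Option (ℕ × ℕ) := fun v => match v with
    | none => none
    | some q => some (q.1, q.2)
  have he : Function.Injective e := by
    rintro (_ | ⟨a, b⟩) (_ | ⟨a', b'⟩) h
    · rfl
    · simp [e] at h
    · simp [e] at h
    · simp only [e, Option.some.injEq, Prod.mk.injEq] at h
      rw [Fin.ext h.1, Fin.ext h.2]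
  refine ⟨rename e P, fun h => hP0 (rename_injective e he (by rw [h, map_zero])), ?_, ?_⟩
  · refine (totalDegree_rename_le e P).trans (hPd.trans ?_)
    rw [show T + 1 + 1 = T + 2 by ring]
    exact Nat.pow_le_pow_right (by omega) h2
  intro v hv c d d' Z hZ0 hZ1 hZ2 hZ3
  rw [eval_rename] at hv
  have hgen := hP (v ∘ e) hv
  set F : Fin T ⊕ Fin R → MvPolynomial (Fin T') Ω :=
    fun k => FA T'' T' T R A k + ∑ w, C ((v ∘ e) w) * FV T'' T' T R M W w k with hF
  have hFh : ∀ k, (F k).IsHomogeneous (dl T R k) := fun k =>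
    (FA_hom T'' T' T R A k).add
      (IsHomogeneous.sum _ _ _ fun w _ => C_mul_hom _ (FV_hom T'' T' T R M W w k))
  let aff : ℕ → MvPolynomial (Fin T') Ω := fun j =>
    ∑ k ∈ range T', C (c j k) * yv T' k - C (d j)
  let f : Fin T ⊕ Fin R → MvPolynomial (Fin T') Ω := fun k => match k with
    | Sum.inl j => if (j : ℕ) < T'' ∨ T' ≤ (j : ℕ) then F (Sum.inl j) + aff j else F (Sum.inl j)
    | Sum.inr r => F (Sum.inr r) - C (d' r)
  have haff : ∀ j, (aff j).totalDegree < 2 := by
    intro j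
    have h4 : (∑ k ∈ range T', C (c j k) * yv (Ω := Ω) T' k).totalDegree ≤ 1 :=
      (IsHomogeneous.sum _ _ _ fun k _ => C_mul_hom _ (yv_hom T' k)).totalDegree_le
    have h5 : (C (d j) : MvPolynomial (Fin T') Ω).totalDegree ≤ 1 := by simp
    exact lt_of_le_of_lt ((totalDegree_sub _ _).trans (max_le h4 h5)) (by norm_num)
  have hf : ∀ k, (f k - F k).totalDegree < dl T R k := by
    rintro (j | r)
    · change (f (Sum.inl j) - F (Sum.inl j)).totalDegree < 2
      simp only [f]
      split_ifs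
      · rw [add_sub_cancel_left]
        exact haff j
      · rw [sub_self, totalDegree_zero]
        norm_num
    · change (f (Sum.inr r) - F (Sum.inr r)).totalDegree < 1
      simp only [f]
      rw [sub_sub_cancel_left, totalDegree_neg, totalDegree_C]
      norm_num
  have hFl : ∀ j : Fin T, F (Sum.inl j) = (if (j : ℕ) < T'' then Ap T' A j else 0)
      + if (j : ℕ) < T'' ∨ T' ≤ (j : ℕ) then C (v none) * Qp T' T M W j else 0 := by
    intro j
    rw [hF]
    simp only
    rw [sumV_inl]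
    rfl
  have hFr : ∀ r : Fin R, F (Sum.inr r) = ∑ k : Fin T', C (v (some (r, k))) * X k := by
    intro r
    rw [hF]
    simp only
    rw [sumV_inr]
    change (0 : MvPolynomial (Fin T') Ω) + _ = _
    rw [zero_add]
    rfl
  classical
  set Z' : Finset (Fin T' → Ω) := Z.image fun z i => z i with hZ'
  have hcard : Z'.card = Z.card := by
    refine Finset.card_image_of_injOn fun z hz z' hz' h => ?_
    funext k
    by_cases hk : k < T'
    · exact congrFun h ⟨k, hk⟩
    · rw [hZ0 z hz k (by omega), hZ0 z' hz' k (by omega)]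
  have hroot : ∀ z ∈ Z', ∀ k, eval z (f k) = 0 := by
    intro z' hz' k
    rw [hZ', Finset.mem_image] at hz'
    obtain ⟨z, hz, rfl⟩ := hz'
    have hz0 := hZ0 z hz
    have hev : ∀ j, eval (fun i : Fin T' => z i) (aff j) = ∑ k ∈ range T', c j k * z k - d j := by
      intro j
      simp only [aff]
      rw [map_sub, map_sum, eval_C]
      congr 1
      refine Finset.sum_congr rfl fun k _ => ?_
      rw [map_mul, eval_C, eval_yv T' hz0]
    rcases k with j | r
    · simp only [f]
      by_cases hj1 : (j : ℕ) < T''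
      · rw [if_pos (Or.inl hj1), map_add, hFl, if_pos hj1, if_pos (Or.inl hj1), map_add, map_mul,
          eval_C, eval_Ap T' hz0, eval_Qp T' T M W hz0, hev]
        have h4 := hZ1 z hz j hj1
        linear_combination h4
      · by_cases hj2 : T' ≤ (j : ℕ)
        · rw [if_pos (Or.inr hj2), map_add, hFl, if_neg hj1, if_pos (Or.inr hj2), zero_add, map_mul,
            eval_C, eval_Qp T' T M W hz0, hev]
          have h4 := hZ2 z hz j hj2 j.2
          linear_combination h4
        · have hneg : ¬ ((j : ℕ) < T'' ∨ T' ≤ (j : ℕ)) := by omega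
          rw [if_neg hneg, hFl, if_neg hj1, if_neg hneg]
          simp
    · simp only [f]
      rw [map_sub, eval_C, hFr, map_sum]
      have h4 := hZ3 z hz r r.2
      rw [← Fin.sum_univ_eq_sum_range (fun k => v (some ((r : ℕ), k)) * z k) T'] at h4
      rw [← h4, sub_eq_zero]
      refine Finset.sum_congr rfl fun k _ => ?_
      rw [map_mul, eval_C, eval_X]
  have := zeros_card (dl T R) hδ F f hFh hf hgen Z' hroot
  rw [hcard] at this
  exact this.trans (Nat.pow_le_pow_right (by omega) h2)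

end Pool.Agent.Helper48.ET
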