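import Pool.Agent.Helper48.ET.Local

set_option autoImplicit false

namespace Pool.Agent.Helper48.ET.K

open Finset

theorem Qf_congr {Ω : Type*} [Field Ω] {T : ℕ} {M W : ℕ → ℕ → Ω} {y y' : ℕ → Ω}
    (h : ∀ k < T, y k = y' k) (j : ℕ) : Qf T M W y j = Qf T M W y' j := by
  unfold Qf
  apply sum_congr rfl
  intro t _
  rw [sum_congr rfl (fun k hk => by rw [h k (mem_range.mp hk)])]

/-- expansion of `Q(τ - y)` -/
theorem Qf_sub {Ω : Type*} [Field Ω] (T T' : ℕ) (hT : T' ≤ T) (M W : ℕ → ℕ → Ω) (τ y : ℕ → Ω)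
    (hy : ∀ k, T' ≤ k → y k = 0) (j : ℕ) :
    Qf T M W (fun k => τ k - y k) j = Qf T M W y j +
      ∑ k ∈ range T', (∑ t ∈ range T, W j t * (-2 * (∑ l ∈ range T, M t l * τ l) * M t k)) * y k +
      Qf T M W τ j := by
  have e1 : ∀ t, (∑ k ∈ range T, M t k * (τ k - y k)) =
      (∑ l ∈ range T, M t l * τ l) - ∑ k ∈ range T, M t k * y k := by
    intro t
    rw [← sum_sub_distrib]
    exact sum_congr rfl (fun k _ => by ring)
  have e2 : ∀ t, (∑ k ∈ range T, M t k * y k) = ∑ k ∈ range T', M t k * y k := by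
    intro t
    refine (sum_subset (range_subset_range.mpr hT) ?_).symm
    intro k _ hk
    rw [hy k (by simpa using hk), mul_zero]
  have e3 : ∑ k ∈ range T', (∑ t ∈ range T, W j t * (-2 * (∑ l ∈ range T, M t l * τ l) * M t k)) *
      y k = ∑ t ∈ range T, W j t * (-2 * (∑ l ∈ range T, M t l * τ l) *
        (∑ k ∈ range T, M t k * y k)) := by
    have e4 : ∀ t, W j t * (-2 * (∑ l ∈ range T, M t l * τ l) * (∑ k ∈ range T, M t k * y k)) =
        ∑ k ∈ range T', W j t * (-2 * (∑ l ∈ range T, M t l * τ l) * M t k) * y k := by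
      intro t
      rw [e2 t, mul_sum, mul_sum]
      exact sum_congr rfl (fun k _ => by ring)
    rw [sum_congr rfl (fun t _ => e4 t), sum_comm]
    exact sum_congr rfl (fun k _ => by rw [sum_mul])
  rw [e3]
  unfold Qf
  rw [← sum_add_distrib, ← sum_add_distrib]
  apply sum_congr rfl
  intro t _
  rw [e1 t]
  ring

theorem range_add_sum {Ω : Type*} [Field Ω] (R0 T : ℕ) (f : ℕ → Ω) :
    ∑ u ∈ range (R0 + T), f u = ∑ u ∈ range R0, f u + ∑ k ∈ range T, f (R0 + k) := by
  rw [sum_range_add]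

/-- the local lemma in the form in which it is used -/
theorem ls_core {Ω : Type*} [Field Ω] [Infinite Ω] (T'' T' T R : ℕ) (h1 : T'' ≤ T')
    (h2 : T' ≤ T) (h3 : T' ≤ T'' + R) (M W : ℕ → ℕ → Ω) (hMW : IsInv T M W)
    (M' W' : ℕ → ℕ → Ω) (a : Ω) :
    ∃ P : MvPolynomial (Option (ℕ × ℕ)) Ω, P ≠ 0 ∧ P.totalDegree ≤ (T + 2) ^ T ∧
      ∀ v : Option (ℕ × ℕ) → Ω, MvPolynomial.eval v P ≠ 0 →
        ∀ (R0 : ℕ) (Λ' Λ : ℕ → ℕ → Ω) (τ ω pre d' : ℕ → Ω) (Z : Finset (ℕ → Ω)),
          (∀ z ∈ Z, ∀ u < R0, z u = pre u) →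
          (∀ z ∈ Z, ∀ k, T' ≤ k → z (R0 + k) = 0) →
          (∀ z ∈ Z, ∀ j < T'', a * Qf T'' M' W' (fun k => z (R0 + k)) j +
            ∑ u ∈ range (R0 + T''), Λ' j u * z u +
            (v none * Qf T M W (fun k => τ (R0 + k) - z (R0 + k)) j +
            ∑ u ∈ range (R0 + T), Λ j u * (τ u - z u)) = ω j) →
          (∀ z ∈ Z, ∀ j, T' ≤ j → j < T →
            v none * Qf T M W (fun k => τ (R0 + k) - z (R0 + k)) j +
            ∑ u ∈ range (R0 + T), Λ j u * (τ u - z u) = ω j) →
          (∀ z ∈ Z, ∀ r < R, ∑ k ∈ range T', v (some (r, k)) * z (R0 + k) = d' r) →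
          Z.card ≤ (T + 1) ^ T := by
  classical
  obtain ⟨P, hP0, hPd, hP⟩ := local_alg T'' T' T R h1 h2 h3 M W hMW
    (fun j k l => if k < T'' ∧ l < T'' then a * ∑ t ∈ range T'', W' j t * (M' t k * M' t l) else 0)
  refine ⟨P, hP0, hPd, ?_⟩
  intro v hv R0 Λ' Λ τ ω pre d' Z hpre hsup ha hb hr
  -- shift
  let sh : (ℕ → Ω) → (ℕ → Ω) := fun z k => z (R0 + k)
  have hinj : Set.InjOn sh (Z : Set (ℕ → Ω)) := by
    intro z hz z' hz' he
    funext u
    rcases lt_or_ge u R0 with hu | hu
    · rw [hpre z hz u hu, hpre z' hz' u hu]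
    · obtain ⟨k, rfl⟩ := Nat.exists_eq_add_of_le hu
      exact congrFun he k
  rw [← card_image_of_injOn hinj]
  -- expansion
  have hq : ∀ z ∈ Z, ∀ j, v none * Qf T M W (fun k => τ (R0 + k) - z (R0 + k)) j +
      ∑ u ∈ range (R0 + T), Λ j u * (τ u - z u) =
      v none * Qf T M W (sh z) j + ∑ k ∈ range T', (v none * (∑ t ∈ range T, W j t *
        (-2 * (∑ l ∈ range T, M t l * τ (R0 + l)) * M t k)) - Λ j (R0 + k)) * sh z k +
      (v none * Qf T M W (fun k => τ (R0 + k)) j + ∑ u ∈ range (R0 + T), Λ j u * τ u -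
        ∑ u ∈ range R0, Λ j u * pre u) := by
    intro z hz j
    rw [Qf_sub T T' h2 M W (fun k => τ (R0 + k)) (fun k => z (R0 + k)) (hsup z hz) j]
    have e1 : ∑ u ∈ range (R0 + T), Λ j u * (τ u - z u) =
        ∑ u ∈ range (R0 + T), Λ j u * τ u - ∑ u ∈ range (R0 + T), Λ j u * z u := by
      rw [← sum_sub_distrib]; exact sum_congr rfl (fun u _ => by ring)
    have e2 : ∑ u ∈ range (R0 + T), Λ j u * z u = ∑ u ∈ range R0, Λ j u * pre u +
        ∑ k ∈ range T', Λ j (R0 + k) * z (R0 + k) := by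
      rw [range_add_sum]
      congr 1
      · exact sum_congr rfl (fun u hu => by rw [hpre z hz u (mem_range.mp hu)])
      · refine (sum_subset (range_subset_range.mpr h2) ?_).symm
        intro k _ hk
        rw [hsup z hz k (by simpa using hk), mul_zero]
    have e3 : ∑ k ∈ range T', (v none * (∑ t ∈ range T, W j t *
        (-2 * (∑ l ∈ range T, M t l * τ (R0 + l)) * M t k)) - Λ j (R0 + k)) * sh z k =
        v none * (∑ k ∈ range T', (∑ t ∈ range T, W j t *
          (-2 * (∑ l ∈ range T, M t l * τ (R0 + l)) * M t k)) * z (R0 + k)) -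
        ∑ k ∈ range T', Λ j (R0 + k) * z (R0 + k) := by
      rw [mul_sum, ← sum_sub_distrib]
      exact sum_congr rfl (fun k _ => by ring)
    rw [e1, e2, e3]
    ring
  have haq : ∀ z ∈ Z, ∀ j < T'', a * Qf T'' M' W' (fun k => z (R0 + k)) j =
      ∑ k ∈ range T', ∑ l ∈ range T', (if k < T'' ∧ l < T'' then
        a * ∑ t ∈ range T'', W' j t * (M' t k * M' t l) else 0) * sh z k * sh z l := by
    intro z hz j _
    have e1 : ∑ k ∈ range T', ∑ l ∈ range T', (if k < T'' ∧ l < T'' then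
        a * ∑ t ∈ range T'', W' j t * (M' t k * M' t l) else 0) * sh z k * sh z l =
        ∑ k ∈ range T'', ∑ l ∈ range T'', (a * ∑ t ∈ range T'', W' j t * (M' t k * M' t l)) *
          sh z k * sh z l := by
      symm
      calc _ = ∑ k ∈ range T'', ∑ l ∈ range T', (if k < T'' ∧ l < T'' then
            a * ∑ t ∈ range T'', W' j t * (M' t k * M' t l) else 0) * sh z k * sh z l := by
            apply sum_congr rfl
            intro k hk
            rw [← sum_subset (range_subset_range.mpr h1)]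
            · apply sum_congr rfl
              intro l hl
              rw [if_pos ⟨mem_range.mp hk, mem_range.mp hl⟩]
            · intro l _ hl
              rw [if_neg (fun h => hl (mem_range.mpr h.2))]
              ring
        _ = _ := by
            apply sum_subset (range_subset_range.mpr h1)
            intro k _ hk
            apply sum_eq_zero
            intro l _
            rw [if_neg (fun h => hk (mem_range.mpr h.1))]
            ring
    rw [e1]
    unfold Qf
    have e2 : ∀ t, (∑ k ∈ range T'', M' t k * z (R0 + k)) ^ 2 =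
        ∑ k ∈ range T'', ∑ l ∈ range T'', (M' t k * M' t l) * z (R0 + k) * z (R0 + l) := by
      intro t
      rw [sq, sum_mul_sum]
      exact sum_congr rfl (fun k _ => sum_congr rfl (fun l _ => by ring))
    simp_rw [e2, mul_sum, sum_mul]
    rw [sum_comm]
    apply sum_congr rfl
    intro k _
    rw [sum_comm]
    apply sum_congr rfl
    intro l _
    apply sum_congr rfl
    intro t _
    ring
  refine hP v hv
    (fun j k => v none * (∑ t ∈ range T, W j t *
        (-2 * (∑ l ∈ range T, M t l * τ (R0 + l)) * M t k)) - Λ j (R0 + k) +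
        (if j < T'' ∧ k < T'' then Λ' j (R0 + k) else 0))
    (fun j => ω j - (v none * Qf T M W (fun k => τ (R0 + k)) j +
      ∑ u ∈ range (R0 + T), Λ j u * τ u - ∑ u ∈ range R0, Λ j u * pre u) -
      (if j < T'' then ∑ u ∈ range R0, Λ' j u * pre u else 0)) d' (Z.image sh) ?_ ?_ ?_ ?_
  · intro z1 hz1 k hk
    obtain ⟨z, hz, rfl⟩ := mem_image.mp hz1
    exact hsup z hz k hk
  · intro z1 hz1 j hj
    obtain ⟨z, hz, rfl⟩ := mem_image.mp hz1
    have := ha z hz j hj
    rw [hq z hz j, haq z hz j hj, range_add_sum] at this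
    rw [if_pos hj]
    have e4 : ∑ k ∈ range T', (v none * (∑ t ∈ range T, W j t *
        (-2 * (∑ l ∈ range T, M t l * τ (R0 + l)) * M t k)) - Λ j (R0 + k) +
        (if j < T'' ∧ k < T'' then Λ' j (R0 + k) else 0)) * sh z k =
        ∑ k ∈ range T', (v none * (∑ t ∈ range T, W j t *
        (-2 * (∑ l ∈ range T, M t l * τ (R0 + l)) * M t k)) - Λ j (R0 + k)) * sh z k +
        ∑ k ∈ range T'', Λ' j (R0 + k) * z (R0 + k) := by
      have e5 : ∑ k ∈ range T'', Λ' j (R0 + k) * z (R0 + k) =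
          ∑ k ∈ range T', (if j < T'' ∧ k < T'' then Λ' j (R0 + k) else 0) * sh z k := by
        rw [← sum_subset (range_subset_range.mpr h1)]
        · apply sum_congr rfl
          intro k hk
          rw [if_pos ⟨hj, mem_range.mp hk⟩]
        · intro k _ hk
          rw [if_neg (fun h => hk (mem_range.mpr h.2)), zero_mul]
      rw [e5, ← sum_add_distrib]
      exact sum_congr rfl (fun k _ => by ring)
    rw [e4]
    have e6 : ∑ u ∈ range R0, Λ' j u * z u = ∑ u ∈ range R0, Λ' j u * pre u :=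
      sum_congr rfl (fun u hu => by rw [hpre z hz u (mem_range.mp hu)])
    rw [e6] at this
    linear_combination this
  · intro z1 hz1 j hj hjT
    obtain ⟨z, hz, rfl⟩ := mem_image.mp hz1
    have := hb z hz j hj hjT
    rw [hq z hz j] at this
    rw [if_neg (by omega)]
    have e4 : ∑ k ∈ range T', (v none * (∑ t ∈ range T, W j t *
        (-2 * (∑ l ∈ range T, M t l * τ (R0 + l)) * M t k)) - Λ j (R0 + k) +
        (if j < T'' ∧ k < T'' then Λ' j (R0 + k) else 0)) * sh z k =
        ∑ k ∈ range T', (v none * (∑ t ∈ range T, W j t *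
        (-2 * (∑ l ∈ range T, M t l * τ (R0 + l)) * M t k)) - Λ j (R0 + k)) * sh z k := by
      apply sum_congr rfl
      intro k _
      rw [if_neg (by omega), add_zero]
    rw [e4]
    linear_combination this
  · intro z1 hz1 r hr'
    obtain ⟨z, hz, rfl⟩ := mem_image.mp hz1
    exact hr z hz r hr'

end Pool.Agent.Helper48.ET.K
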