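import Pool.Agent.Helper48.ET.Defs

/-! Piece P, core (helper66): finiteness of `Sol`, chains of local steps. -/

set_option autoImplicit false

namespace Pool.Agent.Helper48.ET

open Finset

section

variable {p : ℕ} [Fact p.Prime]

theorem finite_supp (N : ℕ) : {x : ℕ → ZMod p | ∀ u, N ≤ u → x u = 0}.Finite := by
  have h : (Set.range (fun (f : Fin N → ZMod p) (u : ℕ) =>
      if h : u < N then f ⟨u, h⟩ else 0)).Finite := Set.finite_range _
  refine h.subset ?_
  intro x hx
  refine ⟨fun u => x u, ?_⟩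
  funext u
  by_cases h : u < N
  · simp [h]
  · simp [h, hx u (not_lt.1 h)]

theorem sol_finite {C b' N' b N : ℕ} {θ' θ : Par p} {t w : ℕ → ZMod p} :
    (Sol C b' N' θ' b N θ t w).Finite :=
  (finite_supp N').subset (fun _ hx => hx.choose_spec.1.xs)

theorem chain_card {S : Set (ℕ → ZMod p)} (hS : S.Finite) {q q' c : ℕ} (h : FB S q q' c) :
    (trunc q' '' S).ncard ≤ c * (trunc q '' S).ncard := by
  classical
  obtain ⟨F, rfl⟩ : ∃ F : Finset (ℕ → ZMod p), (F : Set (ℕ → ZMod p)) = S := ⟨hS.toFinset, by simp⟩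
  have h1 : F.image (trunc q') ⊆ (F.image (trunc q)).biUnion
      (fun v => (F.filter (fun y => trunc q y = v)).image (trunc q')) := by
    intro v hv
    obtain ⟨x, hx, rfl⟩ := Finset.mem_image.1 hv
    refine Finset.mem_biUnion.2 ⟨trunc q x, Finset.mem_image_of_mem _ hx, ?_⟩
    exact Finset.mem_image_of_mem _ (Finset.mem_filter.2 ⟨hx, rfl⟩)
  have h2 : (F.image (trunc q')).card ≤ (F.image (trunc q)).card * c := by
    refine (Finset.card_le_card h1).trans (Finset.card_biUnion_le_card_mul _ _ _ ?_)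
    intro v hv
    obtain ⟨x, hx, rfl⟩ := Finset.mem_image.1 hv
    have h3 := (h x hx).2
    have h4 : trunc q' '' {y | y ∈ (F : Set (ℕ → ZMod p)) ∧ trunc q y = trunc q x} =
        (((F.filter (fun y => trunc q y = trunc q x)).image (trunc q') : Finset _) :
          Set (ℕ → ZMod p)) := by
      rw [Finset.coe_image, Finset.coe_filter]
      rfl
    rw [h4, Set.ncard_coe_finset] at h3
    exact h3
  rw [← Finset.coe_image, ← Finset.coe_image, Set.ncard_coe_finset, Set.ncard_coe_finset]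
  rw [mul_comm]
  exact h2

theorem chain_two {S : Set (ℕ → ZMod p)} (hS : S.Finite) (q : ℕ → ℕ) {lo hi : ℕ} (h : lo ≤ hi)
    (hstep : ∀ i, lo ≤ i → i < hi → FB S (q (i + 1)) (q i) 2) :
    (trunc (q lo) '' S).ncard ≤ 2 ^ (hi - lo) * (trunc (q hi) '' S).ncard := by
  induction hi, h using Nat.le_induction with
  | base => simp
  | succ hi hlo ih =>
    have h1 := ih (fun i h1 h2 => hstep i h1 (by omega))
    have h2 := chain_card hS (hstep hi hlo (by omega))
    calc (trunc (q lo) '' S).ncard ≤ 2 ^ (hi - lo) * (trunc (q hi) '' S).ncard := h1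
      _ ≤ 2 ^ (hi - lo) * (2 * (trunc (q (hi + 1)) '' S).ncard) := Nat.mul_le_mul_left _ h2
      _ = 2 ^ (hi + 1 - lo) * (trunc (q (hi + 1)) '' S).ncard := by
          rw [show hi + 1 - lo = (hi - lo) + 1 by omega, pow_succ]
          ring

theorem trunc_zero_card (S : Set (ℕ → ZMod p)) : (trunc 0 '' S).ncard ≤ 1 := by
  have h : trunc 0 '' S ⊆ {0} := by
    rintro _ ⟨x, -, rfl⟩
    rw [Set.mem_singleton_iff]
    funext u
    simp [trunc]
  exact (Set.ncard_le_ncard h).trans (by simp)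

theorem card_le_trunc {C b' N' b N : ℕ} {θ' θ : Par p} {t w : ℕ → ZMod p} :
    (Sol C b' N' θ' b N θ t w).ncard ≤ (trunc N' '' Sol C b' N' θ' b N θ t w).ncard := by
  have h : Sol C b' N' θ' b N θ t w ⊆ trunc N' '' Sol C b' N' θ' b N θ t w := by
    intro x hx
    refine ⟨x, hx, ?_⟩
    funext u
    unfold trunc
    split_ifs with hu
    · rfl
    · obtain ⟨z, h1, -⟩ := hx
      exact (h1.xs u (not_lt.1 hu)).symm
  exact Set.ncard_le_ncard h (sol_finite.image _)

theorem one_le_N0 (C : ℕ) : 1 ≤ N0 C := by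
  unfold N0
  exact Nat.one_le_pow _ _ (by omega)

/-- the polynomial that controls `lam' + lam` -/
theorem lam_poly (θ' : Par p) : ∃ P : MvPolynomial (Option (ℕ × ℕ × ℕ)) (Om p), P ≠ 0 ∧
    P.totalDegree ≤ 1 ∧ ∀ θ : Par p, MvPolynomial.eval θ.val P ≠ 0 → θ'.lam + θ.lam ≠ 0 := by
  refine ⟨MvPolynomial.X none + MvPolynomial.C (algebraMap (ZMod p) (Om p) θ'.lam), ?_, ?_, ?_⟩
  · intro h
    have h1 := congrArg (MvPolynomial.eval
      (fun _ => 1 - algebraMap (ZMod p) (Om p) θ'.lam)) h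
    simp at h1
  · refine (MvPolynomial.totalDegree_add _ _).trans ?_
    rw [MvPolynomial.totalDegree_X, MvPolynomial.totalDegree_C]
    simp
  · intro θ hθ h
    apply hθ
    rw [map_add, MvPolynomial.eval_X, MvPolynomial.eval_C]
    change algebraMap (ZMod p) (Om p) θ.lam + _ = 0
    rw [← map_add, add_comm, h, map_zero]

end

end Pool.Agent.Helper48.ET
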