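import Pool.Agent.Helper48.ET.Defs

/-! Piece X: choice of the parameters `C = 2 ^ m` and `L` for given `g`. -/

set_option autoImplicit false

namespace Pool.Agent.Helper48.ET

theorem N0_two_pow_le (m : ℕ) : N0 (2 ^ m) ^ 2 ≤ 2 ^ ((2 * m + 1) * 2 ^ (4 * m + 3)) := by
  unfold N0
  have h4 : ((2 : ℕ) ^ m) ^ 4 = 2 ^ (4 * m) := by rw [← pow_mul]; ring_nf
  rw [h4]
  have h1 : 2 * 2 ^ (4 * m) + 1 ≤ 2 ^ (4 * m + 2) := by
    have : 1 ≤ 2 ^ (4 * m) := Nat.one_le_two_pow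
    rw [pow_add]; omega
  calc ((2 * 2 ^ (4 * m) + 1) ^ (2 * 2 ^ (4 * m))) ^ 2
      ≤ ((2 ^ (4 * m + 2)) ^ (2 * 2 ^ (4 * m))) ^ 2 := by gcongr
    _ = 2 ^ ((2 * m + 1) * 2 ^ (4 * m + 3)) := by
        rw [← pow_mul, ← pow_mul]
        congr 1
        rw [pow_add 2 (4 * m) 3]
        ring

theorem aux_m {m : ℕ} (hm : 3 ≤ m) : 2 * ((2 * m + 1) * 2 ^ (4 * m + 3) + 1) ≤ 2 ^ (8 * m) := by
  have h1 : 2 * m + 1 ≤ 2 ^ m := by
    induction m, hm using Nat.le_induction with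
    | base => norm_num
    | succ n hn ih => rw [pow_succ]; omega
  have h2 : (1 : ℕ) ≤ 2 ^ (5 * m + 3) := Nat.one_le_two_pow
  calc 2 * ((2 * m + 1) * 2 ^ (4 * m + 3) + 1)
      ≤ 2 * (2 ^ m * 2 ^ (4 * m + 3) + 1) := by gcongr
    _ = 2 * (2 ^ (5 * m + 3) + 1) := by rw [← pow_add]; ring_nf
    _ ≤ 2 * (2 ^ (5 * m + 3) + 2 ^ (5 * m + 3)) := by gcongr
    _ = 2 ^ (5 * m + 5) := by rw [pow_add 2 (5 * m) 3, pow_add 2 (5 * m) 5]; ring
    _ ≤ 2 ^ (8 * m) := Nat.pow_le_pow_right (by norm_num) (by omega)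

theorem params : ∃ c : ℝ, 0 < c ∧ ∃ g0 : ℕ, ∀ g : ℕ, g0 ≤ g → ∃ C L : ℕ, 8 ≤ C ∧ Even C ∧ 4 ≤ L ∧
    2 * (2 ^ L * N0 C ^ 2) ≤ g ∧
    2 * (C : ℝ) ^ (1 - (L : ℝ)) ≤ (g : ℝ) ^ (-(c * Real.log (Real.log g))) := by
  obtain ⟨k, hk⟩ : ∃ k : ℕ, k = 24 := ⟨_, rfl⟩
  refine ⟨1 / 2048, by norm_num, 2 ^ (2 ^ k), fun g hg => ?_⟩
  have hg0 : g ≠ 0 := by
    rintro rfl
    have : 0 < 2 ^ (2 ^ k) := by positivity
    omega
  set G := Nat.log 2 g with hG
  have hG1 : 2 ^ k ≤ G := Nat.le_log_of_pow_le (by norm_num) hg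
  have hGle : 2 ^ G ≤ g := Nat.pow_log_le_self 2 hg0
  have hGlt : g < 2 ^ (G + 1) := Nat.lt_pow_succ_log_self (by norm_num) g
  have hG0 : G ≠ 0 := by
    have : 0 < 2 ^ k := by positivity
    omega
  set l := Nat.log 2 G with hl
  have hl1 : k ≤ l := Nat.le_log_of_pow_le (by norm_num) hG1
  have hlle : 2 ^ l ≤ G := Nat.pow_log_le_self 2 hG0
  have hllt : G < 2 ^ (l + 1) := Nat.lt_pow_succ_log_self (by norm_num) G
  obtain ⟨m, hm⟩ : ∃ m, m = l / 8 := ⟨_, rfl⟩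
  have hm3 : 3 ≤ m := by omega
  have h8m : 2 ^ (8 * m) ≤ G := le_trans (Nat.pow_le_pow_right (by norm_num) (by omega)) hlle
  have hM := (aux_m hm3).trans h8m
  have hG24 : 2 ^ 24 ≤ G := by rw [hk] at hG1; exact hG1
  refine ⟨2 ^ m, G / 2, ?_, ?_, by omega, ?_, ?_⟩
  · calc 8 = 2 ^ 3 := by norm_num
      _ ≤ 2 ^ m := Nat.pow_le_pow_right (by norm_num) hm3
  · exact (Nat.even_pow.mpr ⟨even_two, by omega⟩)
  · refine le_trans ?_ hGle
    calc 2 * (2 ^ (G / 2) * N0 (2 ^ m) ^ 2)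
        ≤ 2 * (2 ^ (G / 2) * 2 ^ ((2 * m + 1) * 2 ^ (4 * m + 3))) := by
          exact Nat.mul_le_mul_left _ (Nat.mul_le_mul_left _ (N0_two_pow_le m))
      _ = 2 ^ (1 + G / 2 + (2 * m + 1) * 2 ^ (4 * m + 3)) := by
          rw [pow_add 2 (1 + G / 2), pow_add 2 1 (G / 2), pow_one, mul_assoc]
      _ ≤ 2 ^ G := Nat.pow_le_pow_right (by norm_num) (by omega)
  · -- the real inequality
    have hgpos : (0 : ℝ) < g := by exact_mod_cast Nat.pos_of_ne_zero hg0
    set x := Real.log g with hx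
    have hlog2 : (0 : ℝ) < Real.log 2 := Real.log_pos (by norm_num)
    have hlog2' : Real.log 2 ≤ 1 := by
      have := Real.log_two_lt_d9; linarith
    have hlog2'' : 1 / 2 ≤ Real.log 2 := by
      have := Real.log_two_gt_d9; linarith
    have hGr : (2 ^ 24 : ℝ) ≤ G := by exact_mod_cast hG24
    have hx1 : x ≤ 2 * G := by
      have h1 : (g : ℝ) ≤ 2 ^ (G + 1) := by exact_mod_cast hGlt.le
      have h2 := Real.log_le_log hgpos h1
      rw [Real.log_pow] at h2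
      push_cast at h2
      have h3 : ((G : ℝ) + 1) * Real.log 2 ≤ (G + 1) * 1 := by
        apply mul_le_mul_of_nonneg_left hlog2'; positivity
      linarith
    have hx2 : 4 ≤ x := by
      have h1 : (2 ^ G : ℝ) ≤ g := by exact_mod_cast hGle
      have h2 := Real.log_le_log (by positivity) h1
      rw [Real.log_pow] at h2
      have h3 : (G : ℝ) * (1 / 2) ≤ G * Real.log 2 := by
        apply mul_le_mul_of_nonneg_left hlog2''; positivity
      linarith
    have hlr : Real.log G ≤ 2 * l := by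
      have h1 : (G : ℝ) ≤ 2 ^ (l + 1) := by exact_mod_cast hllt.le
      have h2 := Real.log_le_log (by positivity) h1
      rw [Real.log_pow] at h2
      push_cast at h2
      have h3 : ((l : ℝ) + 1) * Real.log 2 ≤ (l + 1) * 1 := by
        apply mul_le_mul_of_nonneg_left hlog2'; positivity
      have h4 : (1 : ℝ) ≤ l := by exact_mod_cast (by omega : 1 ≤ l)
      linarith
    have hlogx : Real.log x ≤ 2 * Real.log G := by
      have h1 : x ≤ (G : ℝ) ^ 2 := by nlinarith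
      have h2 := Real.log_le_log (by linarith) h1
      rw [Real.log_pow] at h2
      simpa using h2
    have hlogx0 : 0 ≤ Real.log x := Real.log_nonneg (by linarith)
    have hmr : (l : ℝ) / 16 ≤ m := by
      have h1 : l ≤ 16 * m := by omega
      have h2 : (l : ℝ) ≤ 16 * m := by exact_mod_cast h1
      linarith
    have hLr : (G : ℝ) / 4 ≤ ((G / 2 : ℕ) : ℝ) - 1 := by
      have h1 : G + 4 ≤ 4 * (G / 2) := by omega
      have h2 : (G : ℝ) + 4 ≤ 4 * ((G / 2 : ℕ) : ℝ) := by exact_mod_cast h1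
      linarith
    set L : ℝ := ((G / 2 : ℕ) : ℝ) with hLdef
    have hl0 : (0 : ℝ) ≤ l := by positivity
    have hprod : x * Real.log x / 512 ≤ m * (L - 1) := by
      have h1 : (l : ℝ) / 16 * (G / 4) ≤ m * (L - 1) :=
        mul_le_mul hmr hLr (by positivity) (by positivity)
      have h2 : Real.log x / 4 ≤ l := by linarith
      have h3 : x / 2 ≤ G := by linarith
      have h4 : Real.log x / 4 * (x / 2) ≤ l * G :=
        mul_le_mul h2 h3 (by linarith) hl0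
      nlinarith
    have hprod2 : 2 ≤ (m : ℝ) * (L - 1) := by
      have h1 : (3 : ℝ) ≤ m := by exact_mod_cast hm3
      have h2 : (1 : ℝ) ≤ L - 1 := by linarith
      nlinarith
    have hC : (((2 ^ m : ℕ) : ℝ)) = (2 : ℝ) ^ (m : ℝ) := by
      rw [Real.rpow_natCast]; push_cast; rfl
    rw [hC, ← Real.rpow_mul (by norm_num)]
    have e1 : 2 * (2 : ℝ) ^ ((m : ℝ) * (1 - L)) = Real.exp (-((m * (L - 1) - 1) * Real.log 2)) := by
      rw [Real.rpow_def_of_pos (by norm_num)]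
      nth_rewrite 1 [← Real.exp_log (show (0 : ℝ) < 2 by norm_num)]
      rw [← Real.exp_add]
      congr 1; ring
    rw [e1, Real.rpow_def_of_pos hgpos, Real.exp_le_exp]
    have h5 : (m * (L - 1)) / 2 * (1 / 2) ≤ (m * (L - 1) - 1) * Real.log 2 :=
      mul_le_mul (by linarith) hlog2'' (by norm_num) (by linarith)
    rw [← hx]
    linarith

end Pool.Agent.Helper48.ET
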